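import Pool.Agent.NPC.Defs
import Pool.Agent.H591R2.Defs

/-!
# Definitions: simplicial spanning trees and exact samplers

The machine model is `Pool.Agent.H591R2.CoinMachine`: Mathlib's multi-stack machines `Turing.TM2`
over bits with two programs, a fair coin deciding at each step which program makes the step.
`CoinMachine.expectedTime` is the expected number of steps.  Inputs and outputs are written by the
standard code `Pool.Agent.NPC.bits` of lists of lists of natural numbers (numbers in binary).
-/

namespace Pool.Agent.E8helper15.ST

open Pool.Agent.NPC Pool.Agent.H591R2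

/-- The list `L` describes a finite simplicial complex: every face is the increasing list of its
vertices, no face is listed twice, faces are nonempty, every nonempty subset of a face is a face,
and the vertices are numbered by natural numbers smaller than the number of faces. -/
structure IsComplexList (L : List (List ℕ)) : Prop where
  /-- faces are strictly increasing lists of vertices -/
  sorted : ∀ σ ∈ L, σ.Pairwise (· < ·)
  /-- no face is listed twice -/
  nodup : L.Nodup
  /-- faces are nonempty -/
  ne_nil : ∀ σ ∈ L, σ ≠ []
  /-- nonempty subsets of faces are faces -/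
  closed : ∀ σ ∈ L, ∀ τ : List ℕ, τ.Sublist σ → τ ≠ [] → τ ∈ L
  /-- names of vertices are smaller than the number of faces -/
  small : ∀ σ ∈ L, ∀ v ∈ σ, v < L.length

/-- The complex, as a finite set of finite sets, given by a list of faces. -/
def complexOf (L : List (List ℕ)) : Finset (Finset ℕ) := (L.map List.toFinset).toFinset

/-- The complex has dimension `d`. -/
def HasDim (Δ : Finset (Finset ℕ)) (d : ℕ) : Prop :=
  (∀ σ ∈ Δ, σ.card ≤ d + 1) ∧ ∃ σ ∈ Δ, σ.card = d + 1

/-- The simplicial boundary over `ℚ` of a simplex (oriented by the order of `ℕ`), a rational chain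
on finite sets of vertices. -/
noncomputable def bdry (σ : Finset ℕ) : Finset ℕ →₀ ℚ :=
  ∑ v ∈ σ, Finsupp.single (σ.erase v) ((-1 : ℚ) ^ (σ.filter (fun w => w < v)).card)

/-- `Υ` is a (`d`-dimensional) spanning tree of the complex `Δ`: a subcomplex containing all faces
of dimension less than `d`, such that the columns of the boundary map `∂_d` indexed by the `d`-faces
of `Υ` are a basis of the column space of `∂_d`. -/
def IsTree (d : ℕ) (Δ Υ : Finset (Finset ℕ)) : Prop :=
  Υ ⊆ Δ ∧ (∀ σ ∈ Δ, σ.card ≤ d → σ ∈ Υ) ∧
    LinearIndependent ℚ (fun σ : {σ : Finset ℕ // σ ∈ Υ ∧ σ.card = d + 1} => bdry σ.1) ∧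
    Submodule.span ℚ (bdry '' {σ | σ ∈ Υ ∧ σ.card = d + 1}) =
      Submodule.span ℚ (bdry '' {σ | σ ∈ Δ ∧ σ.card = d + 1})

open Classical in
/-- The finite set of all spanning trees. -/
noncomputable def trees (d : ℕ) (Δ : Finset (Finset ℕ)) : Finset (Finset (Finset ℕ)) :=
  Δ.powerset.filter (IsTree d Δ)

/-- A subcomplex written as a list of faces: those faces of the list `L` that belong to it. -/
def listOf (L : List (List ℕ)) (Υ : Finset (Finset ℕ)) : List (List ℕ) :=
  L.filter (fun σ => σ.toFinset ∈ Υ)

/-- The probability that the machine `M` on input `x` halts with output `y`: the sum over all `i`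
of the probability (over `i` fair coin tosses) that it halts after exactly `i` steps with
output `y`. -/
noncomputable def outProb (M : CoinMachine) (x y : List Bool) : ENNReal :=
  ∑' i : ℕ, ({w : List Bool | w.length = i ∧ M.HaltsWith x w y}.ncard : ENNReal) / 2 ^ i

end Pool.Agent.E8helper15.ST
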