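import Pool.Agent.H670R2.GramPoly
import Pool.Agent.H591R2.CoinRun
import Pool.Agent.NPC.Dec
import Pool.Agent.E8helper15.ST.Defs

set_option autoImplicit false

/-!
# The exact sampler, as list programs
-/

namespace Pool.Agent.E8helper15.ST

open Pool.Agent.NPC Pool.Agent.H591R2 Pool.Agent.H670R2

/-- complexes as lists of faces -/
abbrev Cx := List (List ℕ)

/-- the largest number of vertices of a face -/
def topLen (L : Cx) : ℕ := (L.map List.length).foldr max 0

/-- the faces of top dimension -/
def Fd (L : Cx) : List (List ℕ) := L.filter (fun σ => decide (σ.length = topLen L))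

/-- the faces of dimension one less -/
def Gd (L : Cx) : List (List ℕ) := L.filter (fun τ => decide (τ.length + 1 = topLen L))

/-- incidence coefficient -/
def coef (σ τ : List ℕ) : ℤ :=
  (σ.zipIdx.map (fun p => if σ.filter (fun w => decide (w ≠ p.1)) = τ then
    (if p.2 % 2 = 0 then 1 else -1) else 0)).sum

/-- column of the boundary matrix -/
def col (L : Cx) (σ : List ℕ) : List ℤ := (Gd L).map (fun τ => coef σ τ)

/-- the selected elements -/
def sel (F : List (List ℕ)) (B : List Bool) : List (List ℕ) :=
  ((F.zip B).filter (fun p => p.2)).map (fun p => p.1)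

/-- linear independence of the columns of a list of faces -/
def indep (L : Cx) (S : List (List ℕ)) : Bool := !(decide (gdet (S.map (col L)) = 0))

/-- the bit string `B` describes a basis -/
def test (L : Cx) (B : List Bool) : Bool :=
  decide (B.length = (Fd L).length) && (indep L (sel (Fd L) B) &&
    (Fd L).all (fun σ => decide (σ ∈ sel (Fd L) B) || !(indep L (σ :: sel (Fd L) B))))

/-- greedy basis -/
def greedy (L : Cx) : List (List ℕ) :=
  (Fd L).foldl (fun S σ => if indep L (σ :: S) = true then σ :: S else S) []

/-- the greedy basis as a bit string -/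
def base0 (L : Cx) : List Bool := (Fd L).map (fun σ => decide (σ ∈ greedy L))

/-- number of top faces -/
def mm (L : Cx) : ℕ := (Fd L).length

/-- number of bits of the number of top faces -/
def kk (L : Cx) : ℕ := (mm L).size

/-- number of coins in one step -/
def cc (L : Cx) : ℕ := 2 * kk L + 1

/-- number of steps -/
def tt (L : Cx) (D : ℕ) : ℕ := 2 * (2 ^ kk L) ^ 2 * (D + mm L)

/-- flip the bits `e` and `f` -/
def flip2 (e f : ℕ) (B : List Bool) : List Bool :=
  B.zipIdx.map (fun p => if p.2 = e ∨ p.2 = f then !p.1 else p.1)

/-- one move of the chain -/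
def move (L : Cx) (ρ : ℕ) (B : List Bool) : List Bool :=
  if test L (flip2 (ρ % 2 ^ kk L) (ρ / 2 ^ kk L) B) = true then
    flip2 (ρ % 2 ^ kk L) (ρ / 2 ^ kk L) B else B

/-- one step of the simulation -/
def simStep (L : Cx) (s : List Bool × ℕ) : List Bool × ℕ :=
  (move L (s.2 % 2 ^ cc L) s.1, s.2 / 2 ^ cc L)

/-- the simulation -/
def sim (L : Cx) (t R : ℕ) : List Bool := ((simStep L)^[t] (base0 L, R)).1

/-- the bits of `v`, to length `m` -/
def bitsOf (m v : ℕ) : List Bool := (List.range m).map (fun i => v.bits.getD i false)

/-- number of bases, counted among the first `P` bit strings -/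
def nT (L : Cx) (P : ℕ) : ℕ :=
  ((List.range P).filter (fun v => test L (bitsOf (mm L) v))).length

/-- initial table -/
def tab0 (L : Cx) (P : ℕ) : List ℕ :=
  (List.range P).map (fun v => if bitsOf (mm L) v = base0 L then 1 else 0)

/-- one step of the dynamic program -/
def tabStep (L : Cx) (P : ℕ) (tab : List ℕ) : List ℕ :=
  (List.range P).map (fun v => if test L (bitsOf (mm L) v) = true then
    ((List.range (2 ^ cc L)).map (fun ρ =>
      tab.getD (valB (move L ρ (bitsOf (mm L) v))) 0)).sum else 0)

/-- the table of the numbers of coin sequences leading to the bases -/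
def tabT (L : Cx) (P t : ℕ) : List ℕ := (tabStep L P)^[t] (tab0 L P)

/-- residual weight of `y` -/
def wt (L : Cx) (D P v : ℕ) : ℕ :=
  2 ^ D * 2 ^ (cc L * tt L D) - nT L P * (2 ^ D - 1) * (tabT L P (tt L D)).getD v 0

/-- states: the complex, the parameter `D` in unary, padding -/
abbrev St := Cx × List Unit × List Unit

/-- number of coins for the next round -/
def kOf (s : St) : ℕ :=
  if s.2.2.length = 0 then s.2.1.length + cc s.1 * tt s.1 s.2.1.length
  else if s.2.2.length < 2 ^ mm s.1 then 0
  else mm s.1 + (cc s.1 * tt s.1 s.2.1.length + 1)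

/-- result of the simulation -/
def mainOut (L : Cx) (D R : ℕ) : List Bool := sim L (tt L D) (R / 2 ^ D)

/-- trial of the rare phase is successful -/
def trialOk (L : Cx) (D P R : ℕ) : Bool :=
  test L (bitsOf (mm L) (R % 2 ^ mm L)) && decide (R / 2 ^ mm L < wt L D P (R % 2 ^ mm L))

/-- the spanning tree described by a bit string -/
def treeOf (L : Cx) (B : List Bool) : List (List ℕ) :=
  L.filter (fun σ => decide (σ.length ≠ topLen L) || decide (σ ∈ sel (Fd L) B))

/-- a state as the string at the head of the loop -/
def stStr (s : St) : List Bool := head (kOf s) (bits s)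

/-- one round -/
def roundF (s : St) (R : ℕ) : List Bool :=
  if s.2.2.length = 0 then
    (if R % 2 ^ s.2.1.length = 0 then false :: stStr (s.1, s.2.1, [()])
      else true :: bits (treeOf s.1 (mainOut s.1 s.2.1.length R)))
  else if s.2.2.length < 2 ^ mm s.1 then false :: stStr (s.1, s.2.1, s.2.2 ++ s.2.2)
  else if trialOk s.1 s.2.1.length s.2.2.length R = true then
    true :: bits (treeOf s.1 (bitsOf (mm s.1) (R % 2 ^ mm s.1)))
  else false :: stStr s

/-- the main program -/
def fC (z : List Bool) : List Bool :=
  roundF ((unbits St (unpair z).2).getD ([], [], [])) (valB (unpair z).1)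

/-- the preparation: choose `D` -/
def fA (a b : ℕ) (x : List Bool) : List Bool :=
  stStr ((unbits Cx x).getD [], List.replicate (a * mm ((unbits Cx x).getD []) + b) (), [])

end Pool.Agent.E8helper15.ST
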