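import Pool.Agent.E8helper15.ST.Alg
import Pool.Agent.H671R2.PolyAuto
import Pool.Agent.H687R2.IntPoly

set_option autoImplicit false
set_option maxHeartbeats 400000

/-!
# The programs of the sampler run in polynomial time
-/

namespace Pool.Agent.E8helper15.ST

open Pool.Agent.NPC Pool.Agent.H591R2 Pool.Agent.H670R2

variable {α β : Type} [TEnc α] [TEnc β]

attribute [local fun_prop] NPC.H670R2.poly_gdet NPC.Poly.isum NPC.Poly.natBits NPC.Poly.valBits NPC.Poly.foldr

theorem poly_foldr_max {l : α → List ℕ} (hl : NPC.Poly l) : NPC.Poly (fun a => (l a).foldr max 0) := by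
  have key : ∀ l : List ℕ, sz (l.foldr max 0) ≤ 2 * sz l + sz (0 : ℕ) := by
    intro l
    induction l with
    | nil => simp
    | cons a l ih =>
      rw [List.foldr_cons]
      have h1 : sz (a :: l) = sz a + sz l + 1 := by simp
      rcases le_total a (l.foldr max 0) with h | h
      · rw [max_eq_right h]; omega
      · rw [max_eq_left h]; omega
  obtain ⟨q, hq⟩ := hl.sz_le
  refine NPC.Poly.foldr (F := fun _ b s => max b s) hl (NPC.Poly.const 0) (by fun_prop)
    (Polynomial.C 2 * q + Polynomial.C (sz (0 : ℕ))) ?_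
  intro a k _
  change sz (((l a).drop k).foldr max 0) ≤ _
  have h1 := key ((l a).drop k)
  have h2 := NPC.Poly.sz_drop_le (l a) k
  have h3 := hq a
  simp only [Polynomial.eval_add, Polynomial.eval_mul, Polynomial.eval_C]
  omega

@[fun_prop]
theorem poly_topLen {L : α → Cx} (hL : NPC.Poly L) : NPC.Poly (fun a => topLen (L a)) := by
  unfold topLen
  exact poly_foldr_max (by fun_prop)

@[fun_prop]
theorem poly_Fd {L : α → Cx} (hL : NPC.Poly L) : NPC.Poly (fun a => Fd (L a)) := by
  unfold Fd; fun_prop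

@[fun_prop]
theorem poly_Gd {L : α → Cx} (hL : NPC.Poly L) : NPC.Poly (fun a => Gd (L a)) := by
  unfold Gd; fun_prop

@[fun_prop]
theorem poly_coef {σ τ : α → List ℕ} (hσ : NPC.Poly σ) (hτ : Poly τ) :
    NPC.Poly (fun a => coef (σ a) (τ a)) := by
  unfold coef; fun_prop

@[fun_prop]
theorem poly_col {L : α → Cx} {σ : α → List ℕ} (hL : NPC.Poly L) (hσ : NPC.Poly σ) :
    NPC.Poly (fun a => col (L a) (σ a)) := by
  unfold col; fun_prop

@[fun_prop]
theorem poly_sel {F : α → List (List ℕ)} {B : α → List Bool} (hF : NPC.Poly F) (hB : NPC.Poly B) :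
    NPC.Poly (fun a => sel (F a) (B a)) := by
  unfold sel; fun_prop

@[fun_prop]
theorem poly_indep {L : α → Cx} {S : α → List (List ℕ)} (hL : NPC.Poly L) (hS : NPC.Poly S) :
    NPC.Poly (fun a => indep (L a) (S a)) := by
  unfold indep; fun_prop

@[fun_prop]
theorem poly_test {L : α → Cx} {B : α → List Bool} (hL : NPC.Poly L) (hB : NPC.Poly B) :
    NPC.Poly (fun a => test (L a) (B a)) := by
  unfold test; fun_prop

@[fun_prop]
theorem poly_greedy {L : α → Cx} (hL : NPC.Poly L) : NPC.Poly (fun a => greedy (L a)) := by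
  unfold greedy
  have key : ∀ (L : Cx) (l S : List (List ℕ)),
      sz (l.foldl (fun S σ => if indep L (σ :: S) = true then σ :: S else S) S) ≤ sz l + sz S := by
    intro L l
    induction l with
    | nil => intro S; simp
    | cons a l ih =>
      intro S
      rw [List.foldl_cons]
      have h1 := ih (if indep L (a :: S) = true then a :: S else S)
      have h2 : sz (if indep L (a :: S) = true then a :: S else S) ≤ sz a + sz S + 1 := by
        split_ifs
        · simp
        · omega
      have h3 : sz (a :: l) = sz a + sz l + 1 := by simp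
      omega
  obtain ⟨q, hq⟩ := (poly_Fd hL).sz_le
  refine NPC.Poly.foldl (F := fun a S σ => if indep (L a) (σ :: S) = true then σ :: S else S)
    (poly_Fd hL) (NPC.Poly.const []) (by fun_prop) (q + Polynomial.C (sz ([] : List (List ℕ)))) ?_
  intro a k _
  have h1 := key (L a) ((Fd (L a)).take k) []
  have h2 := NPC.Poly.sz_take_le (Fd (L a)) k
  have h3 := hq a
  simp only [Polynomial.eval_add, Polynomial.eval_C]
  omega

@[fun_prop]
theorem poly_base0 {L : α → Cx} (hL : NPC.Poly L) : NPC.Poly (fun a => base0 (L a)) := by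
  unfold base0; fun_prop

/-! ### unary numbers -/

theorem upoly_mm {L : α → Cx} (hL : NPC.Poly L) : UPoly (fun a => mm (L a)) :=
  UPoly.length (poly_Fd hL)

theorem size_le_self' (n : ℕ) : n.size ≤ n := Nat.size_le.2 Nat.lt_two_pow_self

theorem poly_size {n : α → ℕ} (hn : NPC.Poly n) : NPC.Poly (fun a => (n a).size) := by
  have h : NPC.Poly (fun a => (n a).bits.length) := by fun_prop
  exact h.congr fun a => (Nat.size_eq_bits_len (n a))

theorem upoly_kk {L : α → Cx} (hL : NPC.Poly L) : UPoly (fun a => kk (L a)) := by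
  unfold kk
  exact UPoly.of_le (poly_size (upoly_mm hL).toPoly) (upoly_mm hL) fun a => size_le_self' _

theorem upoly_cc {L : α → Cx} (hL : NPC.Poly L) : UPoly (fun a => cc (L a)) := by
  unfold cc
  exact UPoly.add (UPoly.mul (UPoly.const 2) (upoly_kk hL)) (UPoly.const 1)

theorem two_pow_size_le (n : ℕ) : 2 ^ n.size ≤ 2 * n + 1 := by
  rcases Nat.eq_zero_or_pos n with rfl | hn
  · simp
  · have h1 : 1 ≤ n.size := Nat.size_pos.2 hn
    obtain ⟨k, hk⟩ : ∃ k, n.size = k + 1 := ⟨n.size - 1, by omega⟩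
    have h2 : 2 ^ k ≤ n := by
      have := Nat.lt_size (m := k) (n := n)
      exact this.1 (by omega)
    rw [hk, pow_succ]
    omega

theorem upoly_two_kk {L : α → Cx} (hL : NPC.Poly L) : UPoly (fun a => 2 ^ kk (L a)) := by
  refine UPoly.of_le (NPC.Poly.npow (NPC.Poly.const 2) (upoly_kk hL))
    (UPoly.add (UPoly.mul (UPoly.const 2) (upoly_mm hL)) (UPoly.const 1)) fun a => ?_
  exact two_pow_size_le _

theorem upoly_two_cc {L : α → Cx} (hL : NPC.Poly L) : UPoly (fun a => 2 ^ cc (L a)) := by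
  have h1 := UPoly.mul (UPoly.const 2) (UPoly.mul (upoly_two_kk hL) (upoly_two_kk hL))
  refine NPC.Poly.congr h1 fun a => ?_
  change List.replicate (2 * (2 ^ kk (L a) * 2 ^ kk (L a))) () = List.replicate (2 ^ cc (L a)) ()
  have : 2 ^ cc (L a) = 2 * (2 ^ kk (L a) * 2 ^ kk (L a)) := by
    unfold cc
    rw [pow_succ, two_mul, pow_add]
    ring
  rw [this]

theorem upoly_tt {L : α → Cx} {D : α → ℕ} (hL : NPC.Poly L) (hD : UPoly D) :
    UPoly (fun a => tt (L a) (D a)) := by
  have h1 := UPoly.mul (UPoly.mul (UPoly.const 2) (UPoly.mul (upoly_two_kk hL) (upoly_two_kk hL)))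
    (UPoly.add hD (upoly_mm hL))
  refine NPC.Poly.congr h1 fun a => ?_
  change List.replicate (2 * (2 ^ kk (L a) * 2 ^ kk (L a)) * (D a + mm (L a))) () =
    List.replicate (tt (L a) (D a)) ()
  unfold tt
  congr 1
  ring

@[fun_prop]
theorem poly_mm {L : α → Cx} (hL : NPC.Poly L) : NPC.Poly (fun a => mm (L a)) :=
  (upoly_mm hL).toPoly

@[fun_prop]
theorem poly_two_kk {L : α → Cx} (hL : NPC.Poly L) : NPC.Poly (fun a => 2 ^ kk (L a)) :=
  (upoly_two_kk hL).toPoly

@[fun_prop]
theorem poly_two_cc {L : α → Cx} (hL : NPC.Poly L) : NPC.Poly (fun a => 2 ^ cc (L a)) :=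
  (upoly_two_cc hL).toPoly

@[fun_prop]
theorem poly_flip2 {e f : α → ℕ} {B : α → List Bool} (he : NPC.Poly e) (hf : NPC.Poly f)
    (hB : NPC.Poly B) : NPC.Poly (fun a => flip2 (e a) (f a) (B a)) := by
  unfold flip2; fun_prop

@[fun_prop]
theorem poly_move {L : α → Cx} {ρ : α → ℕ} {B : α → List Bool} (hL : NPC.Poly L)
    (hρ : NPC.Poly ρ) (hB : NPC.Poly B) : NPC.Poly (fun a => move (L a) (ρ a) (B a)) := by
  unfold move
  have h1 := poly_flip2 (NPC.Poly.mod hρ (poly_two_kk hL)) (NPC.Poly.div hρ (poly_two_kk hL)) hB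
  exact NPC.Poly.ite (NPC.Poly.decide_bool (poly_test hL h1)) h1 hB

@[fun_prop]
theorem poly_simStep {L : α → Cx} {s : α → List Bool × ℕ} (hL : NPC.Poly L)
    (hs : NPC.Poly s) : NPC.Poly (fun a => simStep (L a) (s a)) := by
  unfold simStep
  exact NPC.Poly.pair (poly_move hL (NPC.Poly.mod (NPC.Poly.snd hs) (poly_two_cc hL))
    (NPC.Poly.fst hs)) (NPC.Poly.div (NPC.Poly.snd hs) (poly_two_cc hL))

theorem flip2_length (e f : ℕ) (B : List Bool) : (flip2 e f B).length = B.length := by
  simp [flip2]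

theorem move_length (L : Cx) (ρ : ℕ) (B : List Bool) : (move L ρ B).length = B.length := by
  unfold move
  split_ifs
  · exact flip2_length _ _ _
  · rfl

theorem simStep_iter_length (L : Cx) (t : ℕ) (s : List Bool × ℕ) :
    ((simStep L)^[t] s).1.length = s.1.length ∧ ((simStep L)^[t] s).2 ≤ s.2 := by
  induction t with
  | zero => simp
  | succ t ih =>
    rw [Function.iterate_succ_apply']
    unfold simStep
    exact ⟨(move_length _ _ _).trans ih.1, (Nat.div_le_self _ _).trans ih.2⟩

theorem poly_sim {L : α → Cx} {t R : α → ℕ} (hL : NPC.Poly L) (ht : UPoly t) (hR : NPC.Poly R) :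
    NPC.Poly (fun a => sim (L a) (t a) (R a)) := by
  unfold sim
  obtain ⟨q, hq⟩ := (poly_base0 hL).sz_le
  obtain ⟨q', hq'⟩ := hR.sz_le
  have h1 := NPC.Poly.iterLen (l := fun a => List.replicate (t a) ())
    (s := fun a => (base0 (L a), R a)) (F := fun a s => simStep (L a) s) ht (by fun_prop)
    (by fun_prop) (Polynomial.C 4 * q + Polynomial.C 2 * q' + Polynomial.C 2) (by
      intro a k _
      change sz ((simStep (L a))^[k] (base0 (L a), R a)) ≤ _
      obtain ⟨h1, h2⟩ := simStep_iter_length (L a) k (base0 (L a), R a)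
      have h3 := sz_listBool_le ((simStep (L a))^[k] (base0 (L a), R a)).1
      have h4 := sz_nat_mono_le h2
      have h5 := hq a
      have h6 := hq' a
      have h7 := length_lt_sz (base0 (L a))
      rw [h1] at h3
      simp only at h3 h4
      have h8 : sz ((simStep (L a))^[k] (base0 (L a), R a)) =
        sz ((simStep (L a))^[k] (base0 (L a), R a)).1 +
        sz ((simStep (L a))^[k] (base0 (L a), R a)).2 + 1 := by
        rw [← sz_pair]
      simp only [Polynomial.eval_add, Polynomial.eval_mul, Polynomial.eval_C]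
      omega)
  have h2 := NPC.Poly.fst h1
  refine h2.congr fun a => ?_
  simp

theorem poly_bitsOf {m v : α → ℕ} (hm : UPoly m) (hv : NPC.Poly v) :
    NPC.Poly (fun a => bitsOf (m a) (v a)) := by
  unfold bitsOf
  exact NPC.Poly.map (l := fun a => List.range (m a)) (F := fun a i => (v a).bits.getD i false)
    hm.range (by fun_prop)

@[fun_prop]
theorem poly_bitsOf' {L : α → Cx} {v : α → ℕ} (hL : NPC.Poly L) (hv : NPC.Poly v) :
    NPC.Poly (fun a => bitsOf (mm (L a)) (v a)) := poly_bitsOf (upoly_mm hL) hv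

theorem poly_nT {L : α → Cx} {P : α → ℕ} (hL : NPC.Poly L) (hP : UPoly P) :
    NPC.Poly (fun a => nT (L a) (P a)) := by
  unfold nT
  exact NPC.Poly.length (NPC.Poly.filter (p := fun a v => test (L a) (bitsOf (mm (L a)) v))
    hP.range (by fun_prop))

theorem poly_tab0 {L : α → Cx} {P : α → ℕ} (hL : NPC.Poly L) (hP : UPoly P) :
    NPC.Poly (fun a => tab0 (L a) (P a)) := by
  unfold tab0
  exact NPC.Poly.map (F := fun a v => if bitsOf (mm (L a)) v = base0 (L a) then 1 else 0)
    hP.range (by fun_prop)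

theorem poly_tabStep {L : α → Cx} {P : α → ℕ} {tab : α → List ℕ} (hL : NPC.Poly L)
    (hP : UPoly P) (ht : NPC.Poly tab) : NPC.Poly (fun a => tabStep (L a) (P a) (tab a)) := by
  unfold tabStep
  refine NPC.Poly.map (F := fun a v => if test (L a) (bitsOf (mm (L a)) v) = true then
    ((List.range (2 ^ cc (L a))).map (fun ρ =>
      (tab a).getD (valB (move (L a) ρ (bitsOf (mm (L a)) v))) 0)).sum else 0) hP.range ?_
  refine NPC.Poly.ite (by fun_prop) ?_ (by fun_prop)
  refine NPC.Poly.sum ?_
  exact NPC.Poly.map (l := fun p : α × ℕ => List.range (2 ^ cc (L p.1)))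
    (F := fun p ρ => (tab p.1).getD (valB (move (L p.1) ρ (bitsOf (mm (L p.1)) p.2))) 0)
    (UPoly.range ((upoly_two_cc hL).comp (NPC.Poly.fst NPC.Poly.id))) (by fun_prop)

end Pool.Agent.E8helper15.ST
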