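import Pool.Agent.E8helper15.ST.AlgPoly

set_option autoImplicit false
set_option maxHeartbeats 400000

/-!
# The programs of the sampler run in polynomial time (continued)
-/

namespace Pool.Agent.E8helper15.ST

open Pool.Agent.NPC Pool.Agent.H591R2 Pool.Agent.H670R2

variable {α β : Type} [TEnc α] [TEnc β]

attribute [local fun_prop] NPC.H670R2.poly_gdet Poly.isum Poly.natBits Poly.valBits

theorem sum_le_of_le {l : List ℕ} {b : ℕ} (h : ∀ x ∈ l, x ≤ b) : l.sum ≤ l.length * b := by
  induction l with
  | nil => simp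
  | cons a l ih =>
    have h1 := h a (by simp)
    have h2 := ih fun x hx => h x (List.mem_cons_of_mem _ hx)
    simp only [List.sum_cons, List.length_cons]
    rw [add_mul]
    omega

theorem tabStep_iter_bound (L : Cx) (P t : ℕ) : ((tabStep L P)^[t] (tab0 L P)).length = P ∧
    ∀ x ∈ (tabStep L P)^[t] (tab0 L P), x ≤ 2 ^ (cc L * t) := by
  induction t with
  | zero =>
    refine ⟨by simp [tab0], ?_⟩
    intro x hx
    simp only [Function.iterate_zero, id_eq, tab0, List.mem_map] at hx
    obtain ⟨v, _, rfl⟩ := hx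
    split_ifs <;> simp
  | succ t ih =>
    rw [Function.iterate_succ_apply']
    refine ⟨by simp [tabStep], ?_⟩
    intro x hx
    simp only [tabStep, List.mem_map] at hx
    obtain ⟨v, _, rfl⟩ := hx
    split_ifs
    · refine (sum_le_of_le (b := 2 ^ (cc L * t)) ?_).trans ?_
      · intro y hy
        rw [List.mem_map] at hy
        obtain ⟨ρ, _, rfl⟩ := hy
        rw [List.getD_eq_getElem?_getD]
        rcases h : ((tabStep L P)^[t] (tab0 L P))[valB (move L ρ (bitsOf (mm L) v))]? with _ | z
        · simp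
        · simp only [Option.getD_some]
          exact ih.2 z (List.mem_of_getElem? h)
      · rw [List.length_map, List.length_range, ← pow_add]
        apply Nat.pow_le_pow_right (by norm_num)
        rw [mul_add]
        omega
    · exact Nat.zero_le _

theorem poly_tabT {L : α → Cx} {P t : α → ℕ} (hL : NPC.Poly L) (hP : UPoly P) (ht : UPoly t) :
    NPC.Poly (fun a => tabT (L a) (P a) (t a)) := by
  unfold tabT
  obtain ⟨q, hq⟩ := NPC.Poly.sz_le (f := fun a => List.replicate (P a) ()) hP
  obtain ⟨q', hq'⟩ := NPC.Poly.sz_le (f := fun a => List.replicate (cc (L a) * t a) ())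
    (UPoly.mul (upoly_cc hL) ht)
  have h1 := NPC.Poly.iterLen (l := fun a => List.replicate (t a) ())
    (s := fun a => tab0 (L a) (P a)) (F := fun a tab => tabStep (L a) (P a) tab) ht
    (poly_tab0 hL hP)
    (poly_tabStep (L := fun p : α × List ℕ => L p.1) (P := fun p : α × List ℕ => P p.1)
      (tab := fun p : α × List ℕ => p.2) (hL.comp (NPC.Poly.fst NPC.Poly.id))
      (hP.comp (NPC.Poly.fst NPC.Poly.id)) (NPC.Poly.snd NPC.Poly.id))
    (q * (Polynomial.C 4 * (q' + Polynomial.C 1) + Polynomial.C 2) + Polynomial.C 1) (by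
      intro a k hk
      change sz ((tabStep (L a) (P a))^[k] (tab0 (L a) (P a))) ≤ _
      rw [List.length_replicate] at hk
      obtain ⟨h1, h2⟩ := tabStep_iter_bound (L a) (P a) k
      have h3 := hq a
      have h4 := hq' a
      have h5 := length_lt_sz (List.replicate (P a) ())
      have h6 := length_lt_sz (List.replicate (cc (L a) * t a) ())
      rw [List.length_replicate] at h5 h6
      have h7 : ∀ x ∈ (tabStep (L a) (P a))^[k] (tab0 (L a) (P a)),
          sz x ≤ 4 * (cc (L a) * t a + 1) + 1 := by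
        intro x hx
        have h8 := sz_nat_le x
        have h9 : x.size ≤ cc (L a) * t a + 1 := by
          rw [Nat.size_le]
          refine lt_of_le_of_lt (h2 x hx) (Nat.pow_lt_pow_right (by norm_num) ?_)
          have := Nat.mul_le_mul_left (cc (L a)) hk
          omega
        omega
      have h10 := sz_le_length_mul _ _ h7
      rw [h1] at h10
      refine h10.trans ?_
      simp only [Polynomial.eval_add, Polynomial.eval_mul, Polynomial.eval_C]
      have h11 : P a * (4 * (cc (L a) * t a + 1) + 1 + 1) ≤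
          Polynomial.eval (sz a) q * (4 * (Polynomial.eval (sz a) q' + 1) + 2) :=
        Nat.mul_le_mul (by omega) (by omega)
      omega)
  refine h1.congr fun a => ?_
  simp

theorem poly_two_pow {n : α → ℕ} (hn : UPoly n) : NPC.Poly fun a => 2 ^ n a :=
  NPC.Poly.npow (NPC.Poly.const 2) hn

theorem poly_wt {L : α → Cx} {D P v : α → ℕ} (hL : NPC.Poly L) (hD : UPoly D) (hP : UPoly P)
    (hv : NPC.Poly v) : NPC.Poly (fun a => wt (L a) (D a) (P a) (v a)) := by
  unfold wt
  have h1 := poly_two_pow hD
  have h2 := upoly_tt hL hD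
  have h3 := poly_two_pow (UPoly.mul (upoly_cc hL) h2)
  have h4 := poly_nT hL hP
  have h5 := poly_tabT hL hP h2
  exact NPC.Poly.sub (NPC.Poly.mul h1 h3) (NPC.Poly.mul (NPC.Poly.mul h4
    (NPC.Poly.sub h1 (NPC.Poly.const 1))) (NPC.Poly.getD h5 hv (NPC.Poly.const 0)))

theorem upoly_ite {p : α → Prop} [DecidablePred p] {m n : α → ℕ}
    (hp : NPC.Poly (fun a => decide (p a))) (hm : UPoly m) (hn : UPoly n) :
    UPoly (fun a => if p a then m a else n a) := by
  refine NPC.Poly.congr (NPC.Poly.ite hp hm hn) fun a => ?_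
  change (if p a then List.replicate (m a) () else List.replicate (n a) ()) =
    List.replicate (if p a then m a else n a) ()
  split_ifs <;> rfl

theorem upoly_kOf {s : α → St} (hs : NPC.Poly s) : UPoly (fun a => kOf (s a)) := by
  unfold kOf
  have hL : NPC.Poly (fun a => (s a).1) := NPC.Poly.fst hs
  have hD : UPoly (fun a => (s a).2.1.length) := UPoly.length (NPC.Poly.fst (NPC.Poly.snd hs))
  have hP : UPoly (fun a => (s a).2.2.length) := UPoly.length (NPC.Poly.snd (NPC.Poly.snd hs))
  have h1 := UPoly.mul (upoly_cc hL) (upoly_tt hL hD)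
  exact upoly_ite (NPC.Poly.decide_eq hP.toPoly (NPC.Poly.const 0)) (UPoly.add hD h1)
    (upoly_ite (NPC.Poly.decide_lt hP.toPoly (poly_two_pow (upoly_mm hL))) (UPoly.const 0)
      (UPoly.add (upoly_mm hL) (UPoly.add h1 (UPoly.const 1))))

theorem poly_mainOut {L : α → Cx} {D R : α → ℕ} (hL : NPC.Poly L) (hD : UPoly D)
    (hR : NPC.Poly R) : NPC.Poly (fun a => mainOut (L a) (D a) (R a)) := by
  unfold mainOut
  exact poly_sim hL (upoly_tt hL hD) (NPC.Poly.div hR (poly_two_pow hD))

theorem poly_trialOk {L : α → Cx} {D P R : α → ℕ} (hL : NPC.Poly L) (hD : UPoly D)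
    (hP : UPoly P) (hR : NPC.Poly R) :
    NPC.Poly (fun a => trialOk (L a) (D a) (P a) (R a)) := by
  unfold trialOk
  have h1 := poly_two_pow (upoly_mm hL)
  have h2 := NPC.Poly.mod hR h1
  exact NPC.Poly.and (poly_test hL (poly_bitsOf' hL h2))
    (NPC.Poly.decide_lt (NPC.Poly.div hR h1) (poly_wt hL hD hP h2))

theorem poly_treeOf {L : α → Cx} {B : α → List Bool} (hL : NPC.Poly L) (hB : NPC.Poly B) :
    NPC.Poly (fun a => treeOf (L a) (B a)) := by
  unfold treeOf
  fun_prop

theorem poly_bits' {β : Type} [TEnc β] {f : α → β} (hf : NPC.Poly f) :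
    NPC.Poly (fun a => bits (f a)) := by
  have h1 : PC (bits : α → List Bool) (fun x : List Bool => x) (fun a => bits (f a)) := hf
  exact PC.comp (g := fun x => x) (f := fun a => bits (f a)) PC.rawIn h1

theorem poly_head {k : α → ℕ} {x : α → List Bool} (hk : UPoly k) (hx : NPC.Poly x) :
    NPC.Poly (fun a => head (k a) (x a)) := by
  unfold head
  have h1 : NPC.Poly (fun a => (List.replicate (k a) ()).map (fun _ => true)) :=
    NPC.Poly.map (F := fun _ _ => true) hk (NPC.Poly.const true)
  have h2 : NPC.Poly (fun a => List.replicate (k a) true) := h1.congr fun a => by simp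
  exact NPC.Poly.append h2 (NPC.Poly.cons (NPC.Poly.const false) hx)

theorem poly_stStr {s : α → St} (hs : NPC.Poly s) : NPC.Poly (fun a => stStr (s a)) := by
  unfold stStr
  exact poly_head (upoly_kOf hs) (poly_bits' hs)

theorem poly_roundF {s : α → St} {R : α → ℕ} (hs : NPC.Poly s) (hR : NPC.Poly R) :
    NPC.Poly (fun a => roundF (s a) (R a)) := by
  unfold roundF
  have hL : NPC.Poly (fun a => (s a).1) := NPC.Poly.fst hs
  have hDl : NPC.Poly (fun a => (s a).2.1) := NPC.Poly.fst (NPC.Poly.snd hs)
  have hPl : NPC.Poly (fun a => (s a).2.2) := NPC.Poly.snd (NPC.Poly.snd hs)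
  have hD : UPoly (fun a => (s a).2.1.length) := UPoly.length hDl
  have hP : UPoly (fun a => (s a).2.2.length) := UPoly.length hPl
  refine NPC.Poly.ite (NPC.Poly.decide_eq hP.toPoly (NPC.Poly.const 0)) ?_ ?_
  · refine NPC.Poly.ite (NPC.Poly.decide_eq (NPC.Poly.mod hR (poly_two_pow hD))
      (NPC.Poly.const 0)) ?_ ?_
    · exact NPC.Poly.cons (NPC.Poly.const false)
        (poly_stStr (NPC.Poly.pair hL (NPC.Poly.pair hDl (NPC.Poly.const [()]))))
    · exact NPC.Poly.cons (NPC.Poly.const true) (poly_bits' (poly_treeOf hL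
        (poly_mainOut hL hD hR)))
  · refine NPC.Poly.ite (NPC.Poly.decide_lt hP.toPoly (poly_two_pow (upoly_mm hL))) ?_ ?_
    · exact NPC.Poly.cons (NPC.Poly.const false)
        (poly_stStr (NPC.Poly.pair hL (NPC.Poly.pair hDl (NPC.Poly.append hPl hPl))))
    · refine NPC.Poly.ite (NPC.Poly.decide_bool (poly_trialOk hL hD hP hR)) ?_ ?_
      · exact NPC.Poly.cons (NPC.Poly.const true) (poly_bits' (poly_treeOf hL
          (poly_bitsOf' hL (NPC.Poly.mod hR (poly_two_pow (upoly_mm hL))))))
      · exact NPC.Poly.cons (NPC.Poly.const false) (poly_stStr hs)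

theorem poly_fC : NPC.Poly fC := by
  unfold fC
  have h0 : NPC.Poly (fun y : List Bool => unpair y) := poly_unpair
  have h1 : NPC.Poly (fun y : List Bool => (unpair y).1) := NPC.Poly.fst h0
  have h2 : NPC.Poly (fun y : List Bool => (unpair y).2) := NPC.Poly.snd h0
  have h3 : NPC.Poly (fun y : List Bool => unbits St (unpair y).2) :=
    NPC.Poly.comp (g := unbits St) poly_unbits h2
  exact poly_roundF (NPC.Poly.optGetD h3 (NPC.Poly.const _)) (NPC.Poly.valBits h1)

theorem poly_fA (a b : ℕ) : NPC.Poly (fA a b) := by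
  unfold fA
  have h3 : NPC.Poly (fun x : List Bool => unbits Cx x) := poly_unbits
  have h4 : NPC.Poly (fun x : List Bool => (unbits Cx x).getD []) :=
    NPC.Poly.optGetD h3 (NPC.Poly.const _)
  have h5 : UPoly (fun x : List Bool => a * mm ((unbits Cx x).getD []) + b) :=
    UPoly.add (UPoly.mul (UPoly.const a) (upoly_mm h4)) (UPoly.const b)
  exact poly_stStr (NPC.Poly.pair h4 (NPC.Poly.pair h5 (NPC.Poly.const [])))

end Pool.Agent.E8helper15.ST
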