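import Pool.Agent.E8helper15.ST.Poincare

set_option autoImplicit false
set_option maxHeartbeats 1000000

/-!
Convergence of the random exchange chain on the bases of a matroid.
-/

namespace Pool.Agent.E8helper15.ST

open Finset

/-- the exchange move -/
def phi (T : Finset (Finset ℕ)) (e f : ℕ) (A : Finset ℕ) : Finset ℕ :=
  if symmDiff A {e, f} ∈ T then symmDiff A {e, f} else A

/-- number of ways to reach `A` from `A₀` in `s` steps -/
def cnt (T : Finset (Finset ℕ)) (K : ℕ) (A₀ : Finset ℕ) : ℕ → Finset ℕ → ℕ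
  | 0, A => if A = A₀ then 1 else 0
  | s + 1, A => ∑ e ∈ range K, ∑ f ∈ range (2 * K), cnt T K A₀ s (phi T e f A)

section

variable {T : Finset (Finset ℕ)} {m l K : ℕ} {A₀ : Finset ℕ}

theorem phi_mem {A : Finset ℕ} (hA : A ∈ T) (e f : ℕ) : phi T e f A ∈ T := by
  unfold phi
  split_ifs with h
  · exact h
  · exact hA

theorem phi_phi {A : Finset ℕ} (hA : A ∈ T) (e f : ℕ) : phi T e f (phi T e f A) = A := by
  unfold phi
  by_cases h : symmDiff A {e, f} ∈ T
  · rw [if_pos h, symmDiff_symmDiff_cancel_right, if_pos hA]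
  · rw [if_neg h, if_neg h]

theorem sum_phi (g : Finset ℕ → ℝ) (e f : ℕ) : ∑ A ∈ T, g (phi T e f A) = ∑ A ∈ T, g A := by
  refine sum_nbij' (phi T e f) (phi T e f) ?_ ?_ ?_ ?_ ?_
  · exact fun A hA => phi_mem hA e f
  · exact fun A hA => phi_mem hA e f
  · exact fun A hA => phi_phi hA e f
  · exact fun A hA => phi_phi hA e f
  · exact fun A _ => rfl

theorem phi_large (hTm : ∀ A ∈ T, A ⊆ range m) {A : Finset ℕ} (hA : A ∈ T) {e f : ℕ}
    (hf : m ≤ f) : phi T e f A = A := by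
  unfold phi
  rw [if_neg]
  intro h
  have h1 : f ∉ A := fun h => by
    have := hTm A hA h
    rw [mem_range] at this
    omega
  have h2 : f ∈ symmDiff A {e, f} := by
    rw [mem_symmDiff]
    right
    exact ⟨by simp, h1⟩
  have := hTm _ h h2
  rw [mem_range] at this
  omega

/-- the non-lazy part of the averaging operator -/
noncomputable def P1 (T : Finset (Finset ℕ)) (K : ℕ) (g : Finset ℕ → ℝ) (A : Finset ℕ) : ℝ :=
  (∑ e ∈ range K, ∑ f ∈ range K, g (phi T e f A)) / (K : ℝ) ^ 2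

/-- the averaging operator -/
noncomputable def PP (T : Finset (Finset ℕ)) (K : ℕ) (g : Finset ℕ → ℝ) (A : Finset ℕ) : ℝ :=
  (∑ e ∈ range K, ∑ f ∈ range (2 * K), g (phi T e f A)) / (2 * (K : ℝ) ^ 2)

theorem PP_eq (hTm : ∀ A ∈ T, A ⊆ range m) (hmK : m ≤ K) (hK : 0 < K) (g : Finset ℕ → ℝ)
    {A : Finset ℕ} (hA : A ∈ T) : PP T K g A = (g A + P1 T K g A) / 2 := by
  have h1 : ∀ e ∈ range K, ∑ f ∈ range (2 * K), g (phi T e f A) =
      ∑ f ∈ range K, g (phi T e f A) + K * g A := by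
    intro e he
    rw [mem_range] at he
    rw [two_mul, sum_range_add]
    congr 1
    rw [sum_congr rfl (fun f _ => by
      rw [phi_large hTm hA (f := K + f) (by omega)]), sum_const, card_range, nsmul_eq_mul]
  unfold PP P1
  rw [sum_congr rfl h1, sum_add_distrib, sum_const, card_range, nsmul_eq_mul]
  have : (K : ℝ) ≠ 0 := by positivity
  field_simp
  ring

theorem sum_P1 (hK : 0 < K) (g : Finset ℕ → ℝ) : ∑ A ∈ T, P1 T K g A = ∑ A ∈ T, g A := by
  unfold P1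
  rw [← sum_div, sum_comm]
  have h1 : ∀ e ∈ range K, ∑ A ∈ T, ∑ f ∈ range K, g (phi T e f A) = K * ∑ A ∈ T, g A := by
    intro e _
    rw [sum_comm, sum_congr rfl (fun f _ => sum_phi g e f), sum_const, card_range, nsmul_eq_mul]
  rw [sum_congr rfl h1, sum_const, card_range, nsmul_eq_mul]
  have : (K : ℝ) ≠ 0 := by positivity
  field_simp

theorem norm_P1 (hK : 0 < K) (g : Finset ℕ → ℝ) :
    ∑ A ∈ T, P1 T K g A ^ 2 ≤ ∑ A ∈ T, g A ^ 2 := by
  have hK' : (0 : ℝ) < K := by exact_mod_cast hK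
  rw [← sum_P1 hK (fun A => g A ^ 2)]
  apply sum_le_sum
  intro A _
  unfold P1
  rw [div_pow, div_le_div_iff₀ (by positivity) (by positivity), ← sum_product', ← sum_product']
  have h := sq_sum_le_card_mul_sum_sq (s := range K ×ˢ range K) (f := fun p => g (phi T p.1 p.2 A))
  rw [card_product, card_range] at h
  push_cast at h
  nlinarith

/-- adjacent bases are reached by moves -/
theorem sum_adj_le (hTm : ∀ A ∈ T, A ⊆ range m) (hl : ∀ A ∈ T, A.card = l) (hmK : m ≤ K)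
    (g : Finset ℕ → ℝ) {A : Finset ℕ} (hA : A ∈ T) :
    ∑ B ∈ T, (if (A ∩ B).card + 1 = l then (g A - g B) ^ 2 else 0) ≤
      ∑ e ∈ range K, ∑ f ∈ range K, (g A - g (phi T e f A)) ^ 2 := by
  classical
  rw [← sum_product', ← sum_filter]
  have key : ∀ B ∈ T.filter (fun B => (A ∩ B).card + 1 = l),
      ∃ p ∈ range K ×ˢ range K, phi T p.1 p.2 A = B := by
    intro B hB
    rw [mem_filter] at hB
    have h1 : (A \ B).card = 1 := by
      have := card_sdiff_add_card_inter A B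
      have := hl A hA
      omega
    have h2 : (B \ A).card = 1 := by
      have := card_sdiff_add_card_inter B A
      rw [inter_comm B A] at this
      have := hl B hB.1
      omega
    rw [card_eq_one] at h1 h2
    obtain ⟨a, ha⟩ := h1
    obtain ⟨b, hb⟩ := h2
    have haA : a ∈ A \ B := by rw [ha]; simp
    have hbB : b ∈ B \ A := by rw [hb]; simp
    rw [mem_sdiff] at haA hbB
    have h3 : symmDiff A {a, b} = B := by
      have h4 : symmDiff A B = {a, b} := by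
        rw [symmDiff_def, ha, hb]; rfl
      rw [← h4, symmDiff_symmDiff_cancel_left]
    refine ⟨(a, b), ?_, ?_⟩
    · rw [mem_product, mem_range, mem_range]
      have h5 := hTm A hA haA.1
      have h6 := hTm B hB.1 hbB.1
      rw [mem_range] at h5 h6
      exact ⟨by simp only; omega, by simp only; omega⟩
    · unfold phi
      simp only
      rw [h3, if_pos hB.1]
  choose! q hq1 hq2 using key
  calc ∑ B ∈ T with (A ∩ B).card + 1 = l, (g A - g B) ^ 2
      = ∑ B ∈ T with (A ∩ B).card + 1 = l, (g A - g (phi T (q B).1 (q B).2 A)) ^ 2 := by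
        apply sum_congr rfl
        intro B hB
        rw [hq2 B hB]
    _ = ∑ p ∈ (T.filter (fun B => (A ∩ B).card + 1 = l)).image q,
          (g A - g (phi T p.1 p.2 A)) ^ 2 := by
        rw [sum_image]
        intro B hB B' hB' h
        rw [← hq2 B hB, ← hq2 B' hB', h]
    _ ≤ _ := by
        apply sum_le_sum_of_subset_of_nonneg
        · intro p hp
          rw [mem_image] at hp
          obtain ⟨B, hB, rfl⟩ := hp
          exact hq1 B hB
        · intro _ _ _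
          positivity

/-- Dirichlet form -/
theorem dirichlet (hK : 0 < K) (g : Finset ℕ → ℝ) :
    ∑ A ∈ T, ∑ e ∈ range K, ∑ f ∈ range K, (g A - g (phi T e f A)) ^ 2 =
      2 * (K : ℝ) ^ 2 * (∑ A ∈ T, g A ^ 2 - ∑ A ∈ T, g A * P1 T K g A) := by
  have hK' : (0 : ℝ) < K := by exact_mod_cast hK
  have h1 : ∀ A ∈ T, ∑ e ∈ range K, ∑ f ∈ range K, (g A - g (phi T e f A)) ^ 2 =
      (K : ℝ) ^ 2 * g A ^ 2 - 2 * (K : ℝ) ^ 2 * (g A * P1 T K g A) +
        (K : ℝ) ^ 2 * P1 T K (fun A => g A ^ 2) A := by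
    intro A _
    have e1 : (K : ℝ) ^ 2 * P1 T K (fun A => g A ^ 2) A =
        ∑ e ∈ range K, ∑ f ∈ range K, g (phi T e f A) ^ 2 := by
      unfold P1; field_simp
    have e2 : (K : ℝ) ^ 2 * (g A * P1 T K g A) =
        ∑ e ∈ range K, ∑ f ∈ range K, g A * g (phi T e f A) := by
      simp only [← mul_sum]
      unfold P1; field_simp
    have e3 : (K : ℝ) ^ 2 * g A ^ 2 = ∑ e ∈ range K, ∑ f ∈ range K, g A ^ 2 := by
      simp only [sum_const, card_range, nsmul_eq_mul]; ring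
    rw [mul_assoc 2, e1, e2, e3]
    simp only [mul_sum, ← sum_sub_distrib, ← sum_add_distrib]
    apply sum_congr rfl
    intro e _
    apply sum_congr rfl
    intro f _
    ring
  rw [sum_congr rfl h1, sum_add_distrib, sum_sub_distrib, ← mul_sum, ← mul_sum, ← mul_sum,
    sum_P1 hK]
  ring

/-- contraction of the averaging operator on functions of mean zero -/
theorem contract (hT : Exch T) (hTm : ∀ A ∈ T, A ⊆ range m) (hl : ∀ A ∈ T, A.card = l)
    (hmK : m ≤ K) (hK : 0 < K) (g : Finset ℕ → ℝ) (hg : ∑ A ∈ T, g A = 0) :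
    ∑ A ∈ T, PP T K g A ^ 2 ≤ (1 - 1 / (K : ℝ) ^ 2) * ∑ A ∈ T, g A ^ 2 := by
  have hK' : (0 : ℝ) < K := by exact_mod_cast hK
  have h1 := poincare hT (V := range m) (fun A hA => ⟨hTm A hA, hl A hA⟩) g hg
  have h2 : ∑ A ∈ T, ∑ B ∈ T, (if (A ∩ B).card + 1 = l then (g A - g B) ^ 2 else 0) ≤
      ∑ A ∈ T, ∑ e ∈ range K, ∑ f ∈ range K, (g A - g (phi T e f A)) ^ 2 :=
    sum_le_sum fun A hA => sum_adj_le hTm hl hmK g hA
  rw [dirichlet hK g] at h2
  have h3 := norm_P1 (T := T) hK g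
  have h4 : ∑ A ∈ T, PP T K g A ^ 2 = (∑ A ∈ T, g A ^ 2 + 2 * ∑ A ∈ T, g A * P1 T K g A +
      ∑ A ∈ T, P1 T K g A ^ 2) / 4 := by
    rw [mul_sum, ← sum_add_distrib, ← sum_add_distrib, sum_div]
    apply sum_congr rfl
    intro A hA
    rw [PP_eq hTm hmK hK g hA]
    ring
  rw [h4]
  set X := ∑ A ∈ T, g A ^ 2
  set Y := ∑ A ∈ T, g A * P1 T K g A
  set Z := ∑ A ∈ T, P1 T K g A ^ 2
  have h5 : X ≤ (1 / 2) * (K : ℝ) ^ 2 * (X - Y) := by linarith
  have h6 : 2 / (K : ℝ) ^ 2 * X ≤ X - Y := by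
    rw [div_mul_eq_mul_div, div_le_iff₀ (by positivity)]
    linarith
  have h7 : (1 - 1 / (K : ℝ) ^ 2) * X = X - (2 / (K : ℝ) ^ 2 * X) / 2 := by ring
  rw [h7]
  linarith

theorem cnt_succ_real (hK : 0 < K) (s : ℕ) (A : Finset ℕ) :
    (cnt T K A₀ (s + 1) A : ℝ) / (2 * (K : ℝ) ^ 2) ^ (s + 1) =
      PP T K (fun B => (cnt T K A₀ s B : ℝ) / (2 * (K : ℝ) ^ 2) ^ s) A := by
  have hK' : (0 : ℝ) < K := by exact_mod_cast hK
  unfold PP
  simp only [← sum_div]
  rw [cnt, pow_succ]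
  push_cast
  field_simp

theorem PP_one (hK : 0 < K) (c : ℝ) (A : Finset ℕ) : PP T K (fun _ => c) A = c := by
  have hK' : (0 : ℝ) < K := by exact_mod_cast hK
  unfold PP
  simp only [sum_const, card_range, nsmul_eq_mul]
  push_cast
  field_simp

theorem PP_sub (g h : Finset ℕ → ℝ) (A : Finset ℕ) :
    PP T K (fun B => g B - h B) A = PP T K g A - PP T K h A := by
  unfold PP
  rw [← sub_div, ← sum_sub_distrib]
  congr 1
  apply sum_congr rfl
  intro e _
  rw [sum_sub_distrib]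

theorem sum_PP (hTm : ∀ A ∈ T, A ⊆ range m) (hmK : m ≤ K) (hK : 0 < K) (g : Finset ℕ → ℝ) :
    ∑ A ∈ T, PP T K g A = ∑ A ∈ T, g A := by
  rw [sum_congr rfl (fun A hA => PP_eq hTm hmK hK g hA), ← sum_div, sum_add_distrib, sum_P1 hK]
  ring

/-- variance decay -/
theorem decay (hT : Exch T) (hTm : ∀ A ∈ T, A ⊆ range m) (hl : ∀ A ∈ T, A.card = l)
    (hmK : m ≤ K) (hK : 0 < K) (hA₀ : A₀ ∈ T) (s : ℕ) :
    ∑ A ∈ T, ((cnt T K A₀ s A : ℝ) / (2 * (K : ℝ) ^ 2) ^ s) = 1 ∧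
    ∑ A ∈ T, ((cnt T K A₀ s A : ℝ) / (2 * (K : ℝ) ^ 2) ^ s - 1 / T.card) ^ 2 ≤
      (1 - 1 / (K : ℝ) ^ 2) ^ s := by
  have hK' : (0 : ℝ) < K := by exact_mod_cast hK
  have hK1 : (1 : ℝ) ≤ K := by exact_mod_cast hK
  have hN : (0 : ℝ) < T.card := by exact_mod_cast card_pos.2 ⟨A₀, hA₀⟩
  induction s with
  | zero =>
    have h1 : ∀ A, ((cnt T K A₀ 0 A : ℝ) / (2 * (K : ℝ) ^ 2) ^ 0) = if A = A₀ then 1 else 0 := by
      intro A
      rw [cnt]
      split_ifs <;> simp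
    have h2 : ∑ A ∈ T, (if A = A₀ then (1 : ℝ) else 0) = 1 := by
      rw [sum_ite_eq' T A₀ (fun _ => (1 : ℝ)), if_pos hA₀]
    simp only [h1]
    refine ⟨h2, ?_⟩
    have h3 : ∀ A ∈ T, ((if A = A₀ then (1 : ℝ) else 0) - 1 / T.card) ^ 2 =
        (if A = A₀ then (1 : ℝ) else 0) - 2 / T.card * (if A = A₀ then (1 : ℝ) else 0) +
          (1 / (T.card : ℝ)) ^ 2 := by
      intro A _
      split_ifs <;> ring
    rw [sum_congr rfl h3, sum_add_distrib, sum_sub_distrib, ← mul_sum, h2, sum_const, nsmul_eq_mul,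
      pow_zero]
    have : (T.card : ℝ) * (1 / (T.card : ℝ)) ^ 2 = 1 / T.card := by field_simp
    rw [this]
    have : 0 < 1 / (T.card : ℝ) := by positivity
    have e : 2 / (T.card : ℝ) = 2 * (1 / T.card) := by ring
    rw [e]
    linarith
  | succ s ih =>
    obtain ⟨ih1, ih2⟩ := ih
    constructor
    · rw [sum_congr rfl (fun A _ => cnt_succ_real hK s A), sum_PP hTm hmK hK, ih1]
    · set g : Finset ℕ → ℝ := fun B => (cnt T K A₀ s B : ℝ) / (2 * (K : ℝ) ^ 2) ^ s - 1 / T.card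
        with hg
      have h1 : ∀ A ∈ T, ((cnt T K A₀ (s + 1) A : ℝ) / (2 * (K : ℝ) ^ 2) ^ (s + 1) -
          1 / T.card) ^ 2 = PP T K g A ^ 2 := by
        intro A _
        rw [cnt_succ_real hK, hg, PP_sub, PP_one hK]
      rw [sum_congr rfl h1]
      have hg0 : ∑ A ∈ T, g A = 0 := by
        rw [hg, sum_sub_distrib, ih1, sum_const, nsmul_eq_mul]
        field_simp
        ring
      refine (contract hT hTm hl hmK hK g hg0).trans ?_
      rw [pow_succ (1 - 1 / (K : ℝ) ^ 2) s, mul_comm]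
      apply mul_le_mul_of_nonneg_right ih2
      have : 1 / (K : ℝ) ^ 2 ≤ 1 := by
        rw [div_le_one (by positivity)]
        nlinarith
      linarith

theorem card_le_two_pow (hTm : ∀ A ∈ T, A ⊆ range m) : T.card ≤ 2 ^ m := by
  have : T ⊆ (range m).powerset := fun A hA => mem_powerset.2 (hTm A hA)
  have h := card_le_card this
  rwa [card_powerset, card_range] at h

/-- After `2 K² (D + m)` steps the chain is extremely close to uniform. -/
theorem mix (hT : Exch T) (hTm : ∀ A ∈ T, A ⊆ range m) (hl : ∀ A ∈ T, A.card = l)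
    (hmK : m ≤ K) (hK : 0 < K) (hA₀ : A₀ ∈ T) (D : ℕ) {A : Finset ℕ} (hA : A ∈ T) :
    |(T.card : ℝ) * cnt T K A₀ (2 * K ^ 2 * (D + m)) A - (2 * (K : ℝ) ^ 2) ^ (2 * K ^ 2 * (D + m))| ≤
      (2 * (K : ℝ) ^ 2) ^ (2 * K ^ 2 * (D + m)) / 2 ^ D := by
  have hK' : (0 : ℝ) < K := by exact_mod_cast hK
  have hK1 : (1 : ℝ) ≤ K := by exact_mod_cast hK
  set t := 2 * K ^ 2 * (D + m) with ht
  have hN : (0 : ℝ) < T.card := by exact_mod_cast card_pos.2 ⟨A₀, hA₀⟩
  have h1 := (decay hT hTm hl hmK hK hA₀ t).2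
  have h2 : ((cnt T K A₀ t A : ℝ) / (2 * (K : ℝ) ^ 2) ^ t - 1 / T.card) ^ 2 ≤
      (1 - 1 / (K : ℝ) ^ 2) ^ t :=
    (single_le_sum (f := fun A => ((cnt T K A₀ t A : ℝ) / (2 * (K : ℝ) ^ 2) ^ t - 1 / T.card) ^ 2)
      (fun _ _ => sq_nonneg _) hA).trans h1
  have h3 : (1 - 1 / (K : ℝ) ^ 2) ^ t ≤ ((1 / 2 : ℝ) ^ (D + m)) ^ 2 := by
    have h4 : 1 - 1 / (K : ℝ) ^ 2 ≤ Real.exp (-(1 / (K : ℝ) ^ 2)) := by
      have := Real.add_one_le_exp (-(1 / (K : ℝ) ^ 2))
      linarith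
    have h5 : 0 ≤ 1 - 1 / (K : ℝ) ^ 2 := by
      have : 1 / (K : ℝ) ^ 2 ≤ 1 := by
        rw [div_le_one (by positivity)]
        nlinarith
      linarith
    have h6 : Real.exp (-(1 / (K : ℝ) ^ 2)) ^ t = Real.exp (-1) ^ (2 * (D + m)) := by
      rw [← Real.exp_nat_mul, ← Real.exp_nat_mul, ht]
      congr 1
      push_cast
      field_simp
    have h7 : Real.exp (-1) ≤ 1 / 2 := by
      rw [Real.exp_neg, ← one_div]
      apply one_div_le_one_div_of_le (by norm_num)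
      have := Real.add_one_le_exp (1 : ℝ)
      linarith
    calc (1 - 1 / (K : ℝ) ^ 2) ^ t ≤ Real.exp (-(1 / (K : ℝ) ^ 2)) ^ t := pow_le_pow_left₀ h5 h4 t
      _ = Real.exp (-1) ^ (2 * (D + m)) := h6
      _ ≤ (1 / 2) ^ (2 * (D + m)) := pow_le_pow_left₀ (Real.exp_pos _).le h7 _
      _ = ((1 / 2 : ℝ) ^ (D + m)) ^ 2 := by rw [← pow_mul, mul_comm]
  have h4 : |(cnt T K A₀ t A : ℝ) / (2 * (K : ℝ) ^ 2) ^ t - 1 / T.card| ≤ (1 / 2) ^ (D + m) :=
    abs_le_of_sq_le_sq (h2.trans h3) (by positivity)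
  have hW : (0 : ℝ) < (2 * (K : ℝ) ^ 2) ^ t := by positivity
  have h5 : (T.card : ℝ) * cnt T K A₀ t A - (2 * (K : ℝ) ^ 2) ^ t =
      (T.card * (2 * (K : ℝ) ^ 2) ^ t) *
        ((cnt T K A₀ t A : ℝ) / (2 * (K : ℝ) ^ 2) ^ t - 1 / T.card) := by
    field_simp
  rw [h5, abs_mul, abs_of_pos (by positivity)]
  have h6 : (T.card : ℝ) ≤ 2 ^ m := by exact_mod_cast card_le_two_pow hTm
  calc (T.card * (2 * (K : ℝ) ^ 2) ^ t) * _ ≤ (2 ^ m * (2 * (K : ℝ) ^ 2) ^ t) * (1 / 2) ^ (D + m) :=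
        mul_le_mul (mul_le_mul_of_nonneg_right h6 hW.le) h4 (abs_nonneg _) (by positivity)
    _ = _ := by
        rw [pow_add, one_div_pow, one_div_pow]
        field_simp

end

end Pool.Agent.E8helper15.ST
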