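import Pool.Agent.E8helper15.ST.Alg
import Pool.Agent.E8helper15.ST.Mix

set_option autoImplicit false
set_option maxHeartbeats 400000

/-!
# Bit strings, numbers and finite sets
-/

namespace Pool.Agent.E8helper15.ST

open Pool.Agent.NPC Pool.Agent.H591R2 Finset

/-- the bit string of a set of numbers smaller than `m` -/
def bl (m : ℕ) (A : Finset ℕ) : List Bool := (List.range m).map (fun i => decide (i ∈ A))

theorem bl_length (m : ℕ) (A : Finset ℕ) : (bl m A).length = m := by simp [bl]

theorem testBit_bits (v i : ℕ) : v.bits.getD i false = v.testBit i := by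
  rw [Nat.testBit_eq_inth, List.getI_eq_getElem?_getD, List.getD_eq_getElem?_getD]
  rfl

theorem bitsOf_length (m v : ℕ) : (bitsOf m v).length = m := by simp [bitsOf]

theorem bitsOf_getD (m v i : ℕ) : (bitsOf m v).getD i false = (decide (i < m) && v.testBit i) := by
  unfold bitsOf
  rw [List.getD_eq_getElem?_getD, List.getElem?_map]
  by_cases h : i < m
  · rw [List.getElem?_range h]
    simp only [Option.map_some, Option.getD_some, testBit_bits, h, decide_true, Bool.true_and]
  · rw [List.getElem?_eq_none (by simpa using h)]
    simp [h]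

theorem testBit_valB (B : List Bool) : ∀ i, (valB B).testBit i = B.getD i false := by
  induction B with
  | nil => intro i; simp
  | cons b B ih =>
    intro i
    rw [valB_cons]
    have e : (if b = true then 1 else 0) + 2 * valB B = 2 * valB B + b.toNat := by
      cases b <;> simp; omega
    rw [e]
    cases i with
    | zero => cases b <;> simp [Nat.testBit_zero]
    | succ i =>
      rw [List.getD_cons_succ, ← ih i, Nat.testBit_succ]
      congr 1
      cases b <;> simp <;> omega

theorem list_ext_getD {B B' : List Bool} (h : B.length = B'.length)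
    (h' : ∀ i < B.length, B.getD i false = B'.getD i false) : B = B' := by
  apply List.ext_getElem h
  intro i h1 h2
  have := h' i h1
  rw [List.getD_eq_getElem _ _ h1, List.getD_eq_getElem _ _ h2] at this
  exact this

theorem bitsOf_valB {m : ℕ} {B : List Bool} (h : B.length = m) : bitsOf m (valB B) = B := by
  apply list_ext_getD (by rw [bitsOf_length, h])
  intro i hi
  rw [bitsOf_length] at hi
  rw [bitsOf_getD, testBit_valB]
  simp [hi]

theorem valB_bitsOf {m v : ℕ} (h : v < 2 ^ m) : valB (bitsOf m v) = v := by
  apply Nat.eq_of_testBit_eq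
  intro i
  rw [testBit_valB, bitsOf_getD]
  by_cases hi : i < m
  · simp [hi]
  · have : v.testBit i = false := Nat.testBit_eq_false_of_lt
      (lt_of_lt_of_le h (Nat.pow_le_pow_right (by norm_num) (by omega)))
    simp [hi, this]

theorem bl_getD (m : ℕ) (A : Finset ℕ) (i : ℕ) :
    (bl m A).getD i false = (decide (i < m) && decide (i ∈ A)) := by
  unfold bl
  rw [List.getD_eq_getElem?_getD, List.getElem?_map]
  by_cases h : i < m
  · rw [List.getElem?_range h]
    simp [h]
  · rw [List.getElem?_eq_none (by simpa using h)]
    simp [h]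

theorem bl_inj {m : ℕ} {A A' : Finset ℕ} (h1 : A ⊆ range m) (h2 : A' ⊆ range m)
    (h : bl m A = bl m A') : A = A' := by
  ext i
  by_cases hi : i < m
  · have := bl_getD m A i
    rw [h, bl_getD] at this
    simp only [hi, decide_true, Bool.true_and] at this
    have := (decide_eq_decide.1 this)
    exact this.symm
  · constructor
    · intro h; exact absurd (mem_range.1 (h1 h)) hi
    · intro h; exact absurd (mem_range.1 (h2 h)) hi

/-- the set of a bit string -/
def pos (B : List Bool) : Finset ℕ := (range B.length).filter (fun i => B.getD i false = true)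

theorem bl_pos (B : List Bool) : bl B.length (pos B) = B := by
  apply list_ext_getD (by rw [bl_length])
  intro i hi
  rw [bl_length] at hi
  rw [bl_getD]
  have e : i ∈ pos B ↔ B.getD i false = true := by
    unfold pos
    rw [mem_filter, mem_range]
    exact ⟨fun h => h.2, fun h => ⟨hi, h⟩⟩
  simp only [hi, decide_true, Bool.true_and, e]
  cases B.getD i false <;> simp

theorem pos_sub (B : List Bool) : pos B ⊆ range B.length := filter_subset _ _

theorem flip2_bl (m e f : ℕ) (A : Finset ℕ) : flip2 e f (bl m A) = bl m (symmDiff A {e, f}) := by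
  have hlen : (flip2 e f (bl m A)).length = m := by simp [flip2, bl_length]
  apply list_ext_getD (by rw [hlen, bl_length])
  intro i hi
  rw [hlen] at hi
  rw [bl_getD]
  unfold flip2
  rw [List.getD_eq_getElem?_getD, List.getElem?_map, List.getElem?_zipIdx,
    List.getElem?_eq_getElem (by rw [bl_length]; exact hi)]
  simp only [Option.map_some, Option.getD_some, Nat.zero_add]
  have h1 : (bl m A)[i]'(by rw [bl_length]; exact hi) = decide (i ∈ A) := by simp [bl]
  rw [h1]
  by_cases hA : i ∈ A <;> by_cases hef : i = e ∨ i = f
  · simp [hi, hA, hef, mem_symmDiff]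
  · simp [hi, hA, hef, mem_symmDiff]
  · simp [hi, hA, hef, mem_symmDiff]
  · simp [hi, hA, hef, mem_symmDiff]

/-- splitting a sum by division with remainder -/
theorem sum_split' {β : Type} [AddCommMonoid β] (N M : ℕ) (h : ℕ → ℕ → β) :
    ∑ R ∈ range (N * M), h (R % N) (R / N) = ∑ a ∈ range N, ∑ b ∈ range M, h a b := by
  rw [sum_comm]
  rcases Nat.eq_zero_or_pos N with rfl | hN
  · simp
  induction M with
  | zero => simp
  | succ M ih =>
    rw [Nat.mul_succ, sum_range_add, ih, sum_range_succ]
    congr 1
    apply sum_congr rfl
    intro a ha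
    rw [mem_range] at ha
    rw [Nat.mul_add_mod, Nat.mod_eq_of_lt ha, Nat.mul_add_div hN, Nat.div_eq_of_lt ha, add_zero]

/-- sums over numbers, over bit strings and over sets -/
theorem sum_bits {β : Type} [AddCommMonoid β] (m : ℕ) (g : List Bool → β) :
    ∑ v ∈ range (2 ^ m), g (bitsOf m v) = ∑ A ∈ (range m).powerset, g (bl m A) := by
  refine sum_bij' (fun v _ => pos (bitsOf m v)) (fun A _ => valB (bl m A)) ?_ ?_ ?_ ?_ ?_
  · intro v _
    rw [mem_powerset]
    have := pos_sub (bitsOf m v)
    rwa [bitsOf_length] at this
  · intro A _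
    rw [mem_range]
    have := valB_lt (bl m A)
    rwa [bl_length] at this
  · intro v hv
    rw [mem_range] at hv
    have := bl_pos (bitsOf m v)
    rw [bitsOf_length] at this
    rw [this, valB_bitsOf hv]
  · intro A hA
    rw [mem_powerset] at hA
    rw [bitsOf_valB (bl_length m A)]
    apply bl_inj (m := m) _ hA
    · have := bl_pos (bl m A)
      rwa [bl_length] at this
    · have := pos_sub (bl m A)
      rwa [bl_length] at this
  · intro v _
    have := bl_pos (bitsOf m v)
    rw [bitsOf_length] at this
    rw [this]

end Pool.Agent.E8helper15.ST
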