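import Pool.Agent.H591R2.Coin
import Pool.Agent.E8helper15.ST.Defs

/-!
# Output probabilities of coin-tossing machines
-/

namespace Pool.Agent.E8helper15.ST

open Pool.Agent.H591R2 CoinMachine

variable {M : CoinMachine}

/-- the set of coin sequences of length `i` that lead to a halted configuration in `G` -/
def hset (G : M.Conf → Prop) (c : M.Conf) (i : ℕ) : Set (List Bool) :=
  {w : List Bool | w.length = i ∧ ∃ c', M.run c w = some c' ∧ c'.l = none ∧ G c'}

/-- probability to halt in a configuration satisfying `G` -/
noncomputable def pr (G : M.Conf → Prop) (c : M.Conf) : ENNReal :=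
  ∑' i : ℕ, ((hset G c i).ncard : ENNReal) / 2 ^ i

theorem hset_finite (G : M.Conf → Prop) (c : M.Conf) (i : ℕ) : (hset G c i).Finite :=
  finite_len i _

theorem hset_zero_run (G : M.Conf → Prop) {c : M.Conf} (h : c.l ≠ none) : hset G c 0 = ∅ := by
  ext w
  simp only [hset, Set.mem_ofPred_eq, Set.mem_empty_iff_false, iff_false, not_and]
  intro hw
  rw [List.length_eq_zero_iff] at hw
  subst hw
  rintro ⟨c', h1, h2, _⟩
  rw [run_nil, Option.some.injEq] at h1
  subst h1
  exact h h2

theorem hset_succ_halt (G : M.Conf → Prop) {c : M.Conf} (h : c.l = none) (i : ℕ) :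
    hset G c (i + 1) = ∅ := by
  ext w
  simp only [hset, Set.mem_ofPred_eq, Set.mem_empty_iff_false, iff_false, not_and]
  intro hw
  cases w with
  | nil => simp at hw
  | cons b w =>
    rintro ⟨c', h1, _⟩
    rw [run_cons, step_none b h] at h1
    simp at h1

open Classical in
theorem pr_halt (G : M.Conf → Prop) {c : M.Conf} (h : c.l = none) :
    pr G c = if G c then 1 else 0 := by
  unfold pr
  rw [tsum_eq_single 0]
  · split_ifs with hG
    · have : hset G c 0 = {[]} := by
        ext w
        simp only [hset, Set.mem_ofPred_eq, Set.mem_singleton_iff]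
        constructor
        · exact fun hw => List.length_eq_zero_iff.1 hw.1
        · rintro rfl
          exact ⟨rfl, c, rfl, h, hG⟩
      rw [this, Set.ncard_singleton]
      simp
    · have : hset G c 0 = ∅ := by
        ext w
        simp only [hset, Set.mem_ofPred_eq, Set.mem_empty_iff_false, iff_false, not_and]
        intro hw
        rw [List.length_eq_zero_iff] at hw
        subst hw
        rintro ⟨c', h1, h2, h3⟩
        rw [run_nil, Option.some.injEq] at h1
        subst h1
        exact hG h3
      rw [this, Set.ncard_empty]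
      simp
  · intro i hi
    obtain ⟨j, rfl⟩ := Nat.exists_eq_succ_of_ne_zero hi
    rw [hset_succ_halt G h]
    simp

theorem ncard_hset_succ (G : M.Conf → Prop) {c c0 c1 : M.Conf} (h0 : M.step false c = some c0)
    (h1 : M.step true c = some c1) (i : ℕ) :
    (hset G c (i + 1)).ncard = (hset G c0 i).ncard + (hset G c1 i).ncard := by
  have e : hset G c (i + 1) = (fun w => false :: w) '' hset G c0 i ∪
      (fun w => true :: w) '' hset G c1 i := by
    ext w
    simp only [hset, Set.mem_ofPred_eq, Set.mem_union, Set.mem_image]
    constructor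
    · rintro ⟨h3, c', h4, h5, h6⟩
      cases w with
      | nil => simp at h3
      | cons b w =>
        have h3' : w.length = i := by simpa using h3
        cases b
        · left
          rw [run_cons, h0] at h4
          exact ⟨w, ⟨h3', c', h4, h5, h6⟩, rfl⟩
        · right
          rw [run_cons, h1] at h4
          exact ⟨w, ⟨h3', c', h4, h5, h6⟩, rfl⟩
    · rintro (⟨w', ⟨h3, c', h4, h5, h6⟩, rfl⟩ | ⟨w', ⟨h3, c', h4, h5, h6⟩, rfl⟩)
      · refine ⟨by simp [h3], c', ?_, h5, h6⟩
        rw [run_cons, h0]; exact h4
      · refine ⟨by simp [h3], c', ?_, h5, h6⟩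
        rw [run_cons, h1]; exact h4
  have hdis : Disjoint ((fun w => false :: w) '' hset G c0 i) ((fun w => true :: w) '' hset G c1 i) := by
    rw [Set.disjoint_left]
    rintro w ⟨w1, _, rfl⟩ ⟨w2, _, h⟩
    simp at h
  rw [e, Set.ncard_union_eq hdis ((hset_finite _ _ _).image _) ((hset_finite _ _ _).image _),
    Set.ncard_image_of_injective _ (fun a b h => by simpa using h),
    Set.ncard_image_of_injective _ (fun a b h => by simpa using h)]

theorem pr_coin' (G : M.Conf → Prop) {c c0 c1 : M.Conf} (h0 : M.step false c = some c0)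
    (h1 : M.step true c = some c1) : pr G c = (pr G c0 + pr G c1) / 2 := by
  have hc : c.l ≠ none := by
    intro h
    rw [step_none false h] at h0
    simp at h0
  unfold pr
  rw [tsum_eq_zero_add' ENNReal.summable, hset_zero_run G hc]
  simp only [Set.ncard_empty, Nat.cast_zero, ENNReal.zero_div, zero_add]
  have e : ∀ i : ℕ, ((hset G c (i + 1)).ncard : ENNReal) / 2 ^ (i + 1) =
      (((hset G c0 i).ncard : ENNReal) / 2 ^ i + ((hset G c1 i).ncard : ENNReal) / 2 ^ i) / 2 := by
    intro i
    rw [ncard_hset_succ G h0 h1, Nat.cast_add, ← ENNReal.add_div, pow_succ]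
    rw [ENNReal.div_eq_inv_mul, ENNReal.div_eq_inv_mul, ENNReal.div_eq_inv_mul,
      ENNReal.mul_inv (Or.inr (by simp)) (Or.inr (by simp))]
    ring
  simp only [e]
  simp only [ENNReal.div_eq_inv_mul]
  rw [ENNReal.tsum_mul_left, ENNReal.tsum_add]

/-- a coin toss -/
theorem pr_coin (G : M.Conf → Prop) {c : M.Conf} {d : Bool → M.Conf}
    (h : ∀ b, M.step b c = some (d b)) : pr G c = (pr G (d false) + pr G (d true)) / 2 :=
  pr_coin' G (h false) (h true)

theorem half_add (a : ENNReal) : (a + a) / 2 = a := by
  rw [ENNReal.add_div, ENNReal.add_halves]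

/-- a deterministic step -/
theorem pr_step (G : M.Conf → Prop) {c d : M.Conf} (h : ∀ b, M.step b c = some d) :
    pr G c = pr G d := by
  rw [pr_coin G (d := fun _ => d) h, half_add]

/-- a deterministic segment -/
theorem pr_seg (G : M.Conf → Prop) (t : ℕ) : ∀ {c d : M.Conf},
    (∀ w : List Bool, w.length = t → M.run c w = some d) → pr G c = pr G d := by
  induction t with
  | zero =>
    intro c d h
    have := h [] rfl
    rw [run_nil, Option.some.injEq] at this
    rw [this]
  | succ t ih =>
    intro c d h
    have hc : c.l ≠ none := by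
      intro hc
      have := h (List.replicate (t + 1) false) (by simp)
      rw [List.replicate_succ, run_cons, step_none _ hc] at this
      simp at this
    obtain ⟨c0, h0⟩ := step_some (M := M) false hc
    obtain ⟨c1, h1⟩ := step_some (M := M) true hc
    have i0 : pr G c0 = pr G d := ih fun w hw => by
      have := h (false :: w) (by simp [hw])
      rw [run_cons, h0] at this
      exact this
    have i1 : pr G c1 = pr G d := ih fun w hw => by
      have := h (true :: w) (by simp [hw])
      rw [run_cons, h1] at this
      exact this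
    rw [pr_coin' G h0 h1, i0, i1, half_add]

theorem pr_partial_le (G : M.Conf → Prop) (N : ℕ) : ∀ c : M.Conf,
    ∑ i ∈ Finset.range N, ((hset G c i).ncard : ENNReal) / 2 ^ i ≤ 1 := by
  induction N with
  | zero => intro c; simp
  | succ N ih =>
    intro c
    by_cases hc : c.l = none
    · rw [Finset.sum_range_succ', Finset.sum_eq_zero, zero_add]
      · have : hset G c 0 ⊆ {[]} := by
          intro w hw
          exact List.length_eq_zero_iff.1 hw.1
        have h1 := Set.ncard_le_ncard this (Set.finite_singleton _)
        rw [Set.ncard_singleton] at h1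
        rw [pow_zero, div_one]
        exact_mod_cast h1
      · intro i _
        rw [hset_succ_halt G hc]
        simp
    · obtain ⟨c0, h0⟩ := step_some (M := M) false hc
      obtain ⟨c1, h1⟩ := step_some (M := M) true hc
      rw [Finset.sum_range_succ', hset_zero_run G hc]
      simp only [Set.ncard_empty, Nat.cast_zero, ENNReal.zero_div, add_zero]
      have e : ∀ i : ℕ, ((hset G c (i + 1)).ncard : ENNReal) / 2 ^ (i + 1) =
          (((hset G c0 i).ncard : ENNReal) / 2 ^ i + ((hset G c1 i).ncard : ENNReal) / 2 ^ i) / 2 := by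
        intro i
        rw [ncard_hset_succ G h0 h1, Nat.cast_add, ← ENNReal.add_div, pow_succ]
        rw [ENNReal.div_eq_inv_mul, ENNReal.div_eq_inv_mul, ENNReal.div_eq_inv_mul,
          ENNReal.mul_inv (Or.inr (by simp)) (Or.inr (by simp))]
        ring
      simp only [e]
      simp only [ENNReal.div_eq_inv_mul (b := 2)]
      rw [← Finset.mul_sum, Finset.sum_add_distrib]
      calc (2 : ENNReal)⁻¹ * _ ≤ 2⁻¹ * (1 + 1) := by
            apply mul_le_mul_right
            exact add_le_add (ih c0) (ih c1)
        _ = 1 := by
            rw [one_add_one_eq_two]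
            exact ENNReal.inv_mul_cancel (by simp) (by simp)

theorem pr_le_one (G : M.Conf → Prop) (c : M.Conf) : pr G c ≤ 1 :=
  ENNReal.tsum_le_of_sum_range_le fun N => pr_partial_le G N c

/-- the probability of an output -/
theorem outProb_eq (x y : List Bool) :
    outProb M x y = pr (fun c => ∃ v, c = letI := M.decK
      (⟨none, v, Function.update (fun _ => []) M.out y⟩ : M.Conf)) (M.start x) := by
  unfold outProb pr
  congr 1
  funext i
  congr 3
  ext w
  simp only [hset, Set.mem_ofPred_eq, HaltsWith]
  constructor
  · rintro ⟨h1, v, h2⟩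
    exact ⟨h1, _, h2, rfl, v, rfl⟩
  · rintro ⟨h1, c', h2, _, v, rfl⟩
    exact ⟨h1, v, h2⟩

end Pool.Agent.E8helper15.ST
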