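import Pool.Agent.H591R2.CoinRun
import Pool.Agent.H591R2.RawOut
import Pool.Agent.E8helper15.ST.Prob

/-!
# Machines working in rounds: toss coins, then run a deterministic program
-/

set_option maxHeartbeats 400000

namespace Pool.Agent.E8helper15.ST

open Turing Function Pool.Agent.NPC Pool.Agent.H591R2 CoinMachine

/-- average over `j` coin tosses, extended nonnegative values -/
noncomputable def avgE : ℕ → (List Bool → ENNReal) → List Bool → ENNReal
  | 0, f, acc => f acc
  | j + 1, f, acc => (avgE j f (false :: acc) + avgE j f (true :: acc)) / 2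

theorem avgE_congr (j : ℕ) {f g : List Bool → ENNReal} : ∀ acc : List Bool,
    (∀ l : List Bool, l.length = acc.length + j → f l = g l) → avgE j f acc = avgE j g acc := by
  induction j with
  | zero => intro acc h; exact h acc rfl
  | succ j ih =>
    intro acc h
    unfold avgE
    rw [ih (false :: acc) (fun l hl => h l (by simp at hl; omega)),
      ih (true :: acc) (fun l hl => h l (by simp at hl; omega))]

theorem sum_range_doubleE (m : ℕ) (h : ℕ → ENNReal) :
    ∑ R ∈ Finset.range (2 * m), h R = ∑ R ∈ Finset.range m, (h (2 * R) + h (2 * R + 1)) := by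
  induction m with
  | zero => simp
  | succ m ih =>
    rw [show 2 * (m + 1) = 2 * m + 1 + 1 by ring, Finset.sum_range_succ, Finset.sum_range_succ, ih,
      Finset.sum_range_succ]
    ring

theorem avgE_num (j : ℕ) (g : ℕ → ENNReal) : ∀ acc : List Bool,
    avgE j (fun l => g (valB l.reverse)) acc =
      (∑ R ∈ Finset.range (2 ^ j), g (valB acc.reverse + 2 ^ acc.length * R)) / 2 ^ j := by
  induction j with
  | zero => intro acc; simp [avgE]
  | succ j ih =>
    intro acc
    unfold avgE
    rw [ih, ih, pow_succ 2 j, mul_comm (2 ^ j) 2, sum_range_doubleE]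
    have e : ∀ b : Bool, valB (b :: acc).reverse = valB acc.reverse +
        2 ^ acc.length * (if b then 1 else 0) := by
      intro b
      rw [List.reverse_cons, valB_append, List.length_reverse]
      cases b <;> simp
    rw [e, e, Finset.sum_add_distrib]
    simp only [List.length_cons, Bool.false_eq_true, if_false, if_true, mul_zero, add_zero, mul_one]
    have e1 : ∀ R, valB acc.reverse + 2 ^ (acc.length + 1) * R =
        valB acc.reverse + 2 ^ acc.length * (2 * R) := by intro R; ring
    have e2 : ∀ R, valB acc.reverse + 2 ^ acc.length + 2 ^ (acc.length + 1) * R =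
        valB acc.reverse + 2 ^ acc.length * (2 * R + 1) := by intro R; ring
    simp only [e1, e2]
    rw [← ENNReal.add_div, pow_succ]
    rw [ENNReal.div_eq_inv_mul, ENNReal.div_eq_inv_mul, ENNReal.div_eq_inv_mul,
      ENNReal.mul_inv (Or.inr (by simp)) (Or.inr (by simp))]
    ring

/-- average in terms of numbers -/
theorem avgE_num' (j : ℕ) (g : ℕ → ENNReal) :
    avgE j (fun l => g (valB l.reverse)) [] = (∑ R ∈ Finset.range (2 ^ j), g R) / 2 ^ j := by
  rw [avgE_num]
  simp

/-- average in terms of numbers -/
theorem avg_num' (j : ℕ) (g : ℕ → ℝ) :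
    avg j (fun l => g (valB l.reverse)) [] = (∑ R ∈ Finset.range (2 ^ j), g R) / 2 ^ j := by
  rw [avg_num]
  simp

section

variable {N₀ : ℕ} {cA cC : Cmd (Fin (N₀ + 2))} {x' : List Bool} {k τ : ℕ}
  {fA fC : List Bool → List Bool}

/-- the programs compute the two functions in the given times -/
structure Progs (cA cC : Cmd (Fin (N₀ + 2))) (fA fC : List Bool → List Bool)
    (pA pC : Polynomial ℕ) : Prop where
  runA : ∀ x, ∃ t ≤ pA.eval x.length, Run cA (inp x) (inp (fA x)) t
  runC : ∀ z, ∃ t ≤ pC.eval z.length, Run cC (inp z) (inp (fC z)) t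

theorem exists_progs {fC : List Bool → List Bool} (hC : NPC.Poly fC) :
    ∃ pC : Polynomial ℕ, ∀ fA : List Bool → List Bool, NPC.Poly fA →
      ∃ (N₀ : ℕ) (cA cC : Cmd (Fin (N₀ + 2))) (pA : Polynomial ℕ), Progs cA cC fA fC pA pC := by
  obtain ⟨cmC, pC, hC⟩ := Pool.Agent.NPC.R591.raw hC
  refine ⟨pC, fun fA hA => ?_⟩
  obtain ⟨cmA, pA, hA⟩ := Pool.Agent.NPC.R591.raw hA
  have hinp : ∀ x : List Bool,
      (fun i : Fin (max cmA.bd cmC.bd + 1 + 1) => (NPC.inp x : ℕ → List Bool) i) =
      (NPC.inp x : Fin (max cmA.bd cmC.bd + 2) → List Bool) := by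
    intro x
    funext i
    by_cases hi : i = 0
    · subst hi; simp [NPC.inp]
    · have : (i : ℕ) ≠ 0 := fun h => hi (Fin.ext h)
      simp [NPC.inp, hi, this]
  refine ⟨max cmA.bd cmC.bd, cmA.map (Fin.ofNat (max cmA.bd cmC.bd + 1 + 1)),
    cmC.map (Fin.ofNat (max cmA.bd cmC.bd + 1 + 1)), pA, fun x => ?_, fun z => ?_⟩
  · obtain ⟨t, ht, hrun⟩ := hA x
    have h1 := hrun.restrict (n := max cmA.bd cmC.bd + 1) (by omega)
    rw [hinp, hinp] at h1
    exact ⟨t, ht, h1⟩
  · obtain ⟨t, ht, hrun⟩ := hC z
    have h1 := hrun.restrict (n := max cmA.bd cmC.bd + 1) (by omega)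
    rw [hinp, hinp] at h1
    exact ⟨t, ht, h1⟩

/-- what happens after a string has been produced by the main program -/
noncomputable def aft (cA cC : Cmd (Fin (N₀ + 2))) (N : ℕ) : List Bool → ℝ
  | false :: u => eT N (cfg cA cC 1 u [])
  | _ => 0

/-- the configurations with output `y` -/
def GG (cA cC : Cmd (Fin (N₀ + 2))) (y : List Bool) (c : (lvMachine cA cC).Conf) : Prop :=
  ∃ v, c = mkc cA cC none v (update (fun _ => []) 0 y)

open Classical in
/-- what happens after a string has been produced by the main program -/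
noncomputable def aftP (cA cC : Cmd (Fin (N₀ + 2))) (y : List Bool) : List Bool → ENNReal
  | false :: u => pr (GG cA cC y) (cfg cA cC 1 u [])
  | true :: u => if u = y then 1 else 0
  | [] => 0

theorem length_pairBits (r x' : List Bool) : (pairBits r x').length = 2 * r.length + 1 + x'.length := by
  unfold pairBits
  simp only [List.length_append, List.length_flatMap, List.length_cons]
  simp only [List.length_nil, List.map_const', List.sum_replicate, smul_eq_mul]
  ring

theorem eT_body' {pA pC : Polynomial ℕ} (h : Progs cA cC fA fC pA pC) (N : ℕ)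
    {l : List Bool} (hl : l.length = k) (hne : fC (pairBits l.reverse x') ≠ []) :
    eT N (cfg cA cC 1 (false :: x') l) ≤ k + 3 + pC.eval (2 * k + 1 + x'.length) +
      aft cA cC N (fC (pairBits l.reverse x')) := by
  have h1 := eT_step N (fun b => step_one_false cA cC b x' l)
  have h2 := eT_two (cA := cA) (cC := cC) N l (false :: x')
  rw [pairBits_eq, hl] at h2
  obtain ⟨t, ht, hrun⟩ := h.runC (pairBits l.reverse x')
  rw [length_pairBits, List.length_reverse, hl] at ht
  rw [inp_eq, inp_eq] at hrun
  obtain ⟨v', hseg⟩ := code_seg hrun (lvProg cA cC) (fun l => Sum.inr (Sum.inl l)) (ctl cA cC 3)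
    (fun _ _ => rfl) none
  have h3 := eT_seg N t (seg_run cA cC hseg)
  have ht' : (t : ℝ) ≤ (pC.eval (2 * k + 1 + x'.length) : ℕ) := by exact_mod_cast ht
  rcases hs : fC (pairBits l.reverse x') with _ | ⟨_ | _, u⟩
  · exact absurd hs hne
  · rw [hs] at h3
    have h4 := eT_step N (fun b => step_three_false cA cC b v' u)
    simp only [aft]
    linarith
  · rw [hs] at h3
    have h4 := eT_step N (fun b => step_three_true cA cC b v' u)
    rw [eT_halt N (c := mkc cA cC none none (st2 u [])) rfl] at h4
    simp only [aft]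
    linarith

/-- expected time of a round -/
theorem eT_round {pA pC : Polynomial ℕ} (h : Progs cA cC fA fC pA pC) (N k : ℕ) (x' : List Bool)
    (hne : ∀ r : List Bool, r.length = k → fC (pairBits r x') ≠ []) :
    eT N (cfg cA cC 1 (head k x') []) ≤ 2 * k + 3 + pC.eval (2 * k + 1 + x'.length) +
      avg k (fun l => aft cA cC N (fC (pairBits l.reverse x'))) [] := by
  have h3 := eT_toss (cA := cA) (cC := cC) (x' := x') N k []
  have h4 : avg k (fun l => eT N (cfg cA cC 1 (false :: x') l)) [] ≤
      avg k (fun l => (k + 3 + pC.eval (2 * k + 1 + x'.length) : ℝ) +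
        aft cA cC N (fC (pairBits l.reverse x'))) [] := by
    apply avg_mono
    intro l hl
    have hl' : l.length = k := by simpa using hl
    exact eT_body' h N hl' (hne _ (by simpa using hl'))
  have h5 : ∀ (j : ℕ) (c : ℝ) (f : List Bool → ℝ) (acc : List Bool),
      avg j (fun l => c + f l) acc = c + avg j f acc := by
    intro j c f
    induction j with
    | zero => intro acc; rfl
    | succ j ih => intro acc; unfold avg; rw [ih, ih]; ring
  rw [h5] at h4
  linarith

/-- starting the machine -/
theorem eT_start {pA pC : Polynomial ℕ} (h : Progs cA cC fA fC pA pC) (N : ℕ) (x : List Bool) :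
    eT N ((lvMachine cA cC).start x) ≤ pA.eval x.length + 1 + eT N (cfg cA cC 1 (fA x) []) := by
  obtain ⟨t, ht, hrun⟩ := h.runA x
  obtain ⟨v', hseg⟩ := code_seg hrun (lvProg cA cC) Sum.inl (ctl cA cC 0) (fun _ _ => rfl) none
  have h1 := eT_seg N t (seg_run cA cC hseg)
  rw [inp_eq (fA x)] at h1
  have h2 := eT_step N (fun b => step_zero cA cC b v' (fA x))
  rw [start_eq]
  have ht' : (t : ℝ) ≤ (pA.eval x.length : ℕ) := by exact_mod_cast ht
  linarith

/-! ### probabilities -/

theorem pr_two (G : (lvMachine cA cC).Conf → Prop) : ∀ v u : List Bool,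
    pr G (cfg cA cC 2 u v) = pr G (mkc cA cC (some (Sum.inr (Sum.inl cC.entry))) none
      (st2 (v.reverse.flatMap (fun b => [true, b]) ++ u) [])) := by
  intro v
  induction v with
  | nil =>
    intro u
    rw [pr_step G (fun b => step_two_nil cA cC b u)]
    simp
  | cons a v ih =>
    intro u
    rw [pr_step G (fun b => step_two_cons cA cC b a u v), ih (true :: a :: u)]
    simp

theorem pr_toss (G : (lvMachine cA cC).Conf → Prop) : ∀ (j : ℕ) (acc : List Bool),
    pr G (cfg cA cC 1 (head j x') acc) =
      avgE j (fun l => pr G (cfg cA cC 1 (false :: x') l)) acc := by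
  intro j
  induction j with
  | zero => intro acc; simp [head, avgE]
  | succ j ih =>
    intro acc
    have e : true :: head j x' = head (j + 1) x' := rfl
    unfold avgE
    rw [← e, pr_coin G (fun b => step_one_true cA cC b (head j x') acc), ih, ih]

theorem update_out_inj {y u : List Bool} (h : (update (fun _ => []) 0 u : Fin (N₀ + 2) → List Bool) =
    update (fun _ => []) 0 y) : u = y := by
  have := congrFun h 0
  simpa using this

theorem GG_iff {y u : List Bool} : GG cA cC y (mkc cA cC none none (st2 u [])) ↔ u = y := by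
  rw [st2_nil]
  constructor
  · rintro ⟨v, hv⟩
    have h1 : (mkc cA cC none none (update (fun _ => []) 0 u)).stk =
        (mkc cA cC none v (update (fun _ => []) 0 y)).stk := by rw [hv]
    exact update_out_inj h1
  · rintro rfl
    exact ⟨none, rfl⟩

theorem pr_end (y u : List Bool) (v' : Option Bool) :
    pr (GG cA cC y) (mkc cA cC (some (ctl cA cC 3)) v' (st2 (true :: u) [])) =
      aftP cA cC y (true :: u) := by
  have h1 := pr_step (GG cA cC y) (fun b => step_three_true cA cC b v' u)
  rw [h1, pr_halt _ (c := mkc cA cC none none (st2 u [])) rfl]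
  simp only [aftP, GG_iff]

theorem pr_body {pA pC : Polynomial ℕ} (h : Progs cA cC fA fC pA pC) (y : List Bool)
    (l : List Bool) (hne : fC (pairBits l.reverse x') ≠ []) :
    pr (GG cA cC y) (cfg cA cC 1 (false :: x') l) = aftP cA cC y (fC (pairBits l.reverse x')) := by
  have h1 := pr_step (GG cA cC y) (fun b => step_one_false cA cC b x' l)
  have h2 := pr_two (GG cA cC y) l (false :: x')
  rw [pairBits_eq] at h2
  obtain ⟨t, ht, hrun⟩ := h.runC (pairBits l.reverse x')
  rw [inp_eq, inp_eq] at hrun
  obtain ⟨v', hseg⟩ := code_seg hrun (lvProg cA cC) (fun l => Sum.inr (Sum.inl l)) (ctl cA cC 3)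
    (fun _ _ => rfl) none
  have h3 := pr_seg (GG cA cC y) t (seg_run cA cC hseg)
  rw [h1, h2]
  refine h3.trans ?_
  rcases hs : fC (pairBits l.reverse x') with _ | ⟨_ | _, u⟩
  · exact absurd hs hne
  · exact pr_step (GG cA cC y) (fun b => step_three_false cA cC b v' u)
  · exact pr_end y u v'

/-- output probability of a round -/
theorem pr_round {pA pC : Polynomial ℕ} (h : Progs cA cC fA fC pA pC) (y : List Bool) (k : ℕ)
    (x' : List Bool) (hne : ∀ r : List Bool, r.length = k → fC (pairBits r x') ≠ []) :
    pr (GG cA cC y) (cfg cA cC 1 (head k x') []) =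
      avgE k (fun l => aftP cA cC y (fC (pairBits l.reverse x'))) [] := by
  rw [pr_toss]
  apply avgE_congr
  intro l hl
  exact pr_body h y l (hne _ (by simpa using hl))

theorem outProb_lv (y x : List Bool) :
    outProb (lvMachine cA cC) x y = pr (GG cA cC y) ((lvMachine cA cC).start x) := by
  rw [outProb_eq]
  rfl

/-- starting the machine -/
theorem pr_start {pA pC : Polynomial ℕ} (h : Progs cA cC fA fC pA pC) (y x : List Bool) :
    outProb (lvMachine cA cC) x y = pr (GG cA cC y) (cfg cA cC 1 (fA x) []) := by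
  rw [outProb_lv]
  obtain ⟨t, ht, hrun⟩ := h.runA x
  obtain ⟨v', hseg⟩ := code_seg hrun (lvProg cA cC) Sum.inl (ctl cA cC 0) (fun _ _ => rfl) none
  have h1 := pr_seg (GG cA cC y) t (seg_run cA cC hseg)
  rw [inp_eq (fA x)] at h1
  have h2 := pr_step (GG cA cC y) (fun b => step_zero cA cC b v' (fA x))
  rw [start_eq]
  exact h1.trans h2

end

end Pool.Agent.E8helper15.ST
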