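import Pool.Agent.E8helper15.ST.Samp
import Pool.Agent.E8helper15.ST.Round

set_option autoImplicit false
set_option maxHeartbeats 400000

/-!
# The output distribution and the expected time of the sampler
-/

namespace Pool.Agent.E8helper15.ST

open Pool.Agent.NPC Pool.Agent.H591R2 Finset CoinMachine

theorem fC_state (s : St) (r : List Bool) : fC (pairBits r (bits s)) = roundF s (valB r) := by
  unfold fC
  rw [unpair_pairBits, unbits_bits]
  rfl

theorem roundF_ne (s : St) (R : ℕ) : roundF s R ≠ [] := by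
  unfold roundF
  split_ifs <;> simp

section

variable {N₀ : ℕ} {cA cC : Cmd (Fin (N₀ + 2))} {fA : List Bool → List Bool}
  {pA pC : Polynomial ℕ}

/-- probability of output `y` from state `s` -/
noncomputable def Pr (cA cC : Cmd (Fin (N₀ + 2))) (y : List Bool) (s : St) : ENNReal :=
  pr (GG cA cC y) (cfg cA cC 1 (stStr s) [])

/-- truncated expected time from state `s` -/
noncomputable def Tm (cA cC : Cmd (Fin (N₀ + 2))) (N : ℕ) (s : St) : ℝ :=
  eT N (cfg cA cC 1 (stStr s) [])

/-- cost of a round -/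
noncomputable def cost (pC : Polynomial ℕ) (s : St) : ℕ :=
  2 * kOf s + 3 + pC.eval (2 * kOf s + 1 + (bits s).length)

theorem Pr_round (h : Progs cA cC fA fC pA pC) (y : List Bool) (s : St) :
    Pr cA cC y s = (∑ R ∈ range (2 ^ kOf s), aftP cA cC y (roundF s R)) / 2 ^ kOf s := by
  unfold Pr
  have h1 := pr_round h y (kOf s) (bits s) (fun r _ => by rw [fC_state]; exact roundF_ne _ _)
  simp only [fC_state] at h1
  rw [show stStr s = head (kOf s) (bits s) from rfl, h1]
  exact avgE_num' (kOf s) (fun R => aftP cA cC y (roundF s R))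

theorem Tm_round (h : Progs cA cC fA fC pA pC) (N : ℕ) (s : St) :
    Tm cA cC N s ≤ cost pC s +
      (∑ R ∈ range (2 ^ kOf s), aft cA cC N (roundF s R)) / 2 ^ kOf s := by
  unfold Tm
  have h1 := eT_round h N (kOf s) (bits s) (fun r _ => by rw [fC_state]; exact roundF_ne _ _)
  simp only [fC_state] at h1
  rw [avg_num' (kOf s) (fun R => aft cA cC N (roundF s R))] at h1
  rw [show stStr s = head (kOf s) (bits s) from rfl]
  refine h1.trans (le_of_eq ?_)
  unfold cost
  push_cast
  ring

theorem Tm_nonneg (N : ℕ) (s : St) : 0 ≤ Tm cA cC N s := eT_nonneg N _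

theorem Pr_ne_top (y : List Bool) (s : St) : Pr cA cC y s ≠ ⊤ :=
  ne_top_of_le_ne_top ENNReal.one_ne_top (pr_le_one _ _)

/-- the state of the rare phase with padding of length `2^j` -/
def padSt (L : Cx) (D j : ℕ) : St := (L, List.replicate D (), List.replicate (2 ^ j) ())

/-- the initial state -/
def initSt (L : Cx) (D : ℕ) : St := (L, List.replicate D (), [])

theorem padSt_zero (L : Cx) (D : ℕ) : padSt L D 0 = (L, List.replicate D (), [()]) := rfl

theorem padSt_succ (L : Cx) (D j : ℕ) : (L, List.replicate D (), List.replicate (2 ^ j) () ++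
    List.replicate (2 ^ j) ()) = padSt L D (j + 1) := by
  unfold padSt
  rw [List.replicate_append_replicate, pow_succ, mul_two]

theorem kOf_pad {L : Cx} {D j : ℕ} (hj : j < mm L) : kOf (padSt L D j) = 0 := by
  unfold kOf padSt
  simp only [List.length_replicate]
  rw [if_neg (by positivity), if_pos (Nat.pow_lt_pow_right (by norm_num) hj)]

theorem kOf_last (L : Cx) (D : ℕ) :
    kOf (padSt L D (mm L)) = mm L + (cc L * tt L D + 1) := by
  unfold kOf padSt
  simp only [List.length_replicate]
  rw [if_neg (by positivity), if_neg (lt_irrefl _)]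

theorem kOf_init (L : Cx) (D : ℕ) : kOf (initSt L D) = D + cc L * tt L D := by
  unfold kOf initSt
  simp

theorem roundF_pad {L : Cx} {D j : ℕ} (hj : j < mm L) (R : ℕ) :
    roundF (padSt L D j) R = false :: stStr (padSt L D (j + 1)) := by
  unfold roundF
  rw [← padSt_succ]
  unfold padSt
  simp only [List.length_replicate]
  rw [if_neg (by positivity), if_pos (Nat.pow_lt_pow_right (by norm_num) hj)]

theorem roundF_last (L : Cx) (D R : ℕ) :
    roundF (padSt L D (mm L)) R = if trialOk L D (2 ^ mm L) R = true then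
      true :: bits (treeOf L (bitsOf (mm L) (R % 2 ^ mm L))) else
      false :: stStr (padSt L D (mm L)) := by
  unfold roundF padSt
  simp only [List.length_replicate]
  rw [if_neg (by positivity), if_neg (lt_irrefl _)]

theorem roundF_init (L : Cx) (D R : ℕ) :
    roundF (initSt L D) R = if R % 2 ^ D = 0 then false :: stStr (padSt L D 0)
      else true :: bits (treeOf L (mainOut L D R)) := by
  unfold roundF initSt
  simp only [List.length_replicate, List.length_nil, if_true]
  rfl

/-! ### probabilities -/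

theorem inner_sum {β : Type} [AddCommMonoid β] {w M : ℕ} (hw : w ≤ M) (c X : β) :
    ∑ b ∈ range M, (if b < w then c else X) + w • X = w • c + M • X := by
  obtain ⟨d, rfl⟩ := Nat.exists_eq_add_of_le hw
  rw [sum_range_add]
  have h1 : ∑ b ∈ range w, (if b < w then c else X) = w • c := by
    rw [sum_congr rfl (fun b hb => if_pos (mem_range.1 hb)), sum_const, card_range]
  have h2 : ∑ b ∈ range d, (if w + b < w then c else X) = d • X := by
    rw [sum_congr rfl (fun b _ => if_neg (by omega)), sum_const, card_range]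
  rw [h1, h2, add_smul]
  abel

/-- one pass through the trial round -/
theorem trial_sum {β : Type} [AddCommMonoid β] {L : Cx} {l : ℕ} (h : Good L l) (D : ℕ)
    (c : List Bool → β) (X : β) :
    ∑ R ∈ range (2 ^ mm L * (2 * WW L D)),
      (if trialOk L D (2 ^ mm L) R = true then c (bitsOf (mm L) (R % 2 ^ mm L)) else X) +
      ((TT L).card * WW L D) • X =
    ∑ A ∈ TT L, (wt L D (2 ^ mm L) (valB (bl (mm L) A))) • c (bl (mm L) A) +
      (2 ^ mm L * (2 * WW L D)) • X := by
  unfold trialOk
  rw [sum_split' (2 ^ mm L) (2 * WW L D) (fun a b => if (test L (bitsOf (mm L) a) &&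
    decide (b < wt L D (2 ^ mm L) a)) = true then c (bitsOf (mm L) a) else X)]
  -- rewrite as a sum over sets
  have h1 : ∀ a ∈ range (2 ^ mm L), ∑ b ∈ range (2 * WW L D),
      (if (test L (bitsOf (mm L) a) && decide (b < wt L D (2 ^ mm L) a)) = true then
        c (bitsOf (mm L) a) else X) =
      (fun B => ∑ b ∈ range (2 * WW L D), (if (test L B && decide (b < wt L D (2 ^ mm L) (valB B)))
        = true then c B else X)) (bitsOf (mm L) a) := by
    intro a ha
    rw [mem_range] at ha
    simp only [valB_bitsOf ha]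
  rw [sum_congr rfl h1, sum_bits (mm L) (fun B => ∑ b ∈ range (2 * WW L D),
    (if (test L B && decide (b < wt L D (2 ^ mm L) (valB B))) = true then c B else X))]
  have hpow : ((range (mm L)).powerset).card = 2 ^ mm L := by rw [card_powerset, card_range]
  have hsplit : ∀ g : Finset ℕ → β, ∑ A ∈ (range (mm L)).powerset, g A =
      ∑ A ∈ TT L, g A + ∑ A ∈ (range (mm L)).powerset.filter
        (fun A => ¬ test L (bl (mm L) A) = true), g A := by
    intro g
    unfold TT
    rw [sum_filter_add_sum_filter_not]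
  rw [hsplit]
  have h2 : ∀ A ∈ (range (mm L)).powerset.filter (fun A => ¬ test L (bl (mm L) A) = true),
      ∑ b ∈ range (2 * WW L D), (if (test L (bl (mm L) A) &&
        decide (b < wt L D (2 ^ mm L) (valB (bl (mm L) A)))) = true then c (bl (mm L) A) else X) =
      (2 * WW L D) • X := by
    intro A hA
    rw [mem_filter] at hA
    have : test L (bl (mm L) A) = false := by simpa using hA.2
    simp only [this, Bool.false_and, Bool.false_eq_true, if_false, sum_const, card_range]
  rw [sum_congr rfl h2, sum_const]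
  have h3 : ∑ A ∈ TT L, ∑ b ∈ range (2 * WW L D), (if (test L (bl (mm L) A) &&
        decide (b < wt L D (2 ^ mm L) (valB (bl (mm L) A)))) = true then c (bl (mm L) A) else X) +
      ∑ A ∈ TT L, (wt L D (2 ^ mm L) (valB (bl (mm L) A))) • X =
      ∑ A ∈ TT L, (wt L D (2 ^ mm L) (valB (bl (mm L) A))) • c (bl (mm L) A) +
      ∑ A ∈ TT L, (2 * WW L D) • X := by
    rw [← sum_add_distrib, ← sum_add_distrib]
    apply sum_congr rfl
    intro A hA
    have h4 := (mem_TT.1 hA).2
    simp only [h4, Bool.true_and, decide_eq_true_eq]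
    exact inner_sum (wt_aux h D hA).2 _ _
  rw [← sum_smul, sum_wt h, sum_const] at h3
  have hc : (TT L).card + ((range (mm L)).powerset.filter
      (fun A => ¬ test L (bl (mm L) A) = true)).card = 2 ^ mm L := by
    unfold TT
    rw [card_filter_add_card_filter_not, hpow]
  rw [add_right_comm, h3, add_assoc, ← add_smul, ← smul_smul]
  congr 1
  rw [← smul_smul, hc, smul_smul 2 (WW L D)]

theorem Pr_pad (h : Progs cA cC fA fC pA pC) (y : List Bool) (L : Cx) (D : ℕ) :
    ∀ d j : ℕ, j + d = mm L → Pr cA cC y (padSt L D j) = Pr cA cC y (padSt L D (mm L)) := by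
  intro d
  induction d with
  | zero => intro j hj; rw [add_zero] at hj; rw [hj]
  | succ d ih =>
    intro j hj
    rw [Pr_round h, kOf_pad (by omega)]
    simp only [pow_zero, sum_range_one, div_one]
    rw [roundF_pad (by omega)]
    exact ih (j + 1) (by omega)

theorem Pr_last {L : Cx} {l : ℕ} (hG : Good L l) (h : Progs cA cC fA fC pA pC) (D : ℕ)
    (hinj : ∀ A ∈ TT L, ∀ A' ∈ TT L, treeOf L (bl (mm L) A) = treeOf L (bl (mm L) A') → A = A')
    {A : Finset ℕ} (hA : A ∈ TT L) :
    (((TT L).card * WW L D : ℕ) : ENNReal) *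
      Pr cA cC (bits (treeOf L (bl (mm L) A))) (padSt L D (mm L)) =
      (wt L D (2 ^ mm L) (valB (bl (mm L) A)) : ℕ) := by
  classical
  set y := bits (treeOf L (bl (mm L) A)) with hy
  set X := Pr cA cC y (padSt L D (mm L)) with hX
  have hk : 2 ^ kOf (padSt L D (mm L)) = 2 ^ mm L * (2 * WW L D) := by
    rw [kOf_last, pow_add, pow_succ]
    unfold WW
    ring
  have h1 := Pr_round h y (padSt L D (mm L))
  rw [← hX] at h1
  have h2 : ∀ R ∈ range (2 ^ kOf (padSt L D (mm L))), aftP cA cC y (roundF (padSt L D (mm L)) R) =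
      if trialOk L D (2 ^ mm L) R = true then
        (fun B => if bits (treeOf L B) = y then (1 : ENNReal) else 0)
          (bitsOf (mm L) (R % 2 ^ mm L)) else X := by
    intro R _
    rw [roundF_last]
    split_ifs with h3
    · rfl
    · rfl
  rw [sum_congr rfl h2, hk] at h1
  have h3 := trial_sum hG D (fun B => if bits (treeOf L B) = y then (1 : ENNReal) else 0) X
  have h4 : ∑ A' ∈ TT L, (wt L D (2 ^ mm L) (valB (bl (mm L) A'))) •
      (if bits (treeOf L (bl (mm L) A')) = y then (1 : ENNReal) else 0) =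
      (wt L D (2 ^ mm L) (valB (bl (mm L) A)) : ℕ) := by
    rw [sum_eq_single A]
    · rw [if_pos rfl]; simp
    · intro A' hA' hne
      rw [if_neg, smul_zero]
      intro h5
      exact hne (hinj A' hA' A hA (bits_injective h5))
    · intro h5; exact absurd hA h5
  rw [h4] at h3
  set S := ∑ R ∈ range (2 ^ mm L * (2 * WW L D)),
      (if trialOk L D (2 ^ mm L) R = true then
        (fun B => if bits (treeOf L B) = y then (1 : ENNReal) else 0)
          (bitsOf (mm L) (R % 2 ^ mm L)) else X) with hS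
  have hXt : X ≠ ⊤ := Pr_ne_top _ _
  have hpow : (2 : ENNReal) ^ kOf (padSt L D (mm L)) = ((2 ^ mm L * (2 * WW L D) : ℕ) : ENNReal) := by
    rw [← hk]; push_cast; rfl
  have h5 : ((2 ^ mm L * (2 * WW L D) : ℕ) : ENNReal) * X = S := by
    rw [h1, ← hpow]
    exact ENNReal.mul_div_cancel (by simp) (by simp)
  rw [nsmul_eq_mul, nsmul_eq_mul, h5, add_comm] at h3
  have hSt : S ≠ ⊤ := by
    rw [← h5]
    exact ENNReal.mul_ne_top (ENNReal.natCast_ne_top _) hXt
  exact (ENNReal.add_left_inj hSt).1 h3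

theorem Pr_init {L : Cx} {l : ℕ} (hG : Good L l) (h : Progs cA cC fA fC pA pC) (D : ℕ)
    (hinj : ∀ A ∈ TT L, ∀ A' ∈ TT L, treeOf L (bl (mm L) A) = treeOf L (bl (mm L) A') → A = A')
    {A : Finset ℕ} (hA : A ∈ TT L) :
    Pr cA cC (bits (treeOf L (bl (mm L) A))) (initSt L D) = ((TT L).card : ENNReal)⁻¹ := by
  classical
  set y := bits (treeOf L (bl (mm L) A)) with hy
  set X := Pr cA cC y (padSt L D (mm L)) with hX
  have hk : 2 ^ kOf (initSt L D) = 2 ^ D * WW L D := by
    rw [kOf_init, pow_add]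
    rfl
  have h1 := Pr_round h y (initSt L D)
  have h2 : ∀ R ∈ range (2 ^ kOf (initSt L D)), aftP cA cC y (roundF (initSt L D) R) =
      (fun a b => if a = 0 then X else if sim L (tt L D) b = bl (mm L) A then 1 else 0)
        (R % 2 ^ D) (R / 2 ^ D) := by
    intro R _
    rw [roundF_init]
    simp only
    split_ifs with h3 h4
    · exact Pr_pad h y L D (mm L) 0 (by omega)
    · change (if bits (treeOf L (mainOut L D R)) = y then (1 : ENNReal) else 0) = 1
      rw [if_pos]
      unfold mainOut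
      rw [h4]
    · change (if bits (treeOf L (mainOut L D R)) = y then (1 : ENNReal) else 0) = 0
      rw [if_neg]
      intro h5
      apply h4
      unfold mainOut at h5
      obtain ⟨A', hA', hA2⟩ := sim_mem hG (tt L D) (R / 2 ^ D)
      rw [hA2] at h5 ⊢
      rw [hinj A' hA' A hA (bits_injective h5)]
  rw [sum_congr rfl h2, hk, sum_split' (2 ^ D) (WW L D)
    (fun a b => if a = 0 then X else if sim L (tt L D) b = bl (mm L) A then (1 : ENNReal) else 0)] at h1
  have h3 : ∀ a ∈ range (2 ^ D), ∑ b ∈ range (WW L D), (if a = 0 then X else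
      if sim L (tt L D) b = bl (mm L) A then (1 : ENNReal) else 0) =
      if a = 0 then (WW L D : ENNReal) * X else (cn L (tt L D) A : ENNReal) := by
    intro a _
    split_ifs with ha
    · rw [sum_const, card_range, nsmul_eq_mul]
    · have h4 := count_sim hG (tt L D) A hA
      rw [← h4]
      push_cast
      rfl
  rw [sum_congr rfl h3] at h1
  obtain ⟨q, hq⟩ : ∃ q, 2 ^ D = q + 1 := ⟨2 ^ D - 1, by have := Nat.one_le_two_pow (n := D); omega⟩
  rw [hq, sum_range_succ'] at h1
  simp only [Nat.add_eq_zero_iff, one_ne_zero, and_false, if_false, if_true, sum_const, card_range,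
    nsmul_eq_mul] at h1
  -- multiply out
  set P := Pr cA cC y (initSt L D) with hP
  have hWpos : 0 < WW L D := by unfold WW; positivity
  have hNpos : 0 < (TT L).card := card_pos.2 ⟨A, hA⟩
  have hpow : (2 : ENNReal) ^ kOf (initSt L D) = (((q + 1) * WW L D : ℕ) : ENNReal) := by
    rw [← hq, ← hk]; push_cast; rfl
  rw [hpow] at h1
  have h4 : (((q + 1) * WW L D : ℕ) : ENNReal) * P =
      (q : ENNReal) * (cn L (tt L D) A : ENNReal) + (WW L D : ENNReal) * X := by
    rw [h1]
    apply ENNReal.mul_div_cancel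
    · have : 0 < (q + 1) * WW L D := by positivity
      exact_mod_cast this.ne'
    · exact ENNReal.natCast_ne_top _
  have h5 := Pr_last hG h D hinj hA
  rw [← hy, ← hX, wt_eq hG D hA, hq] at h5
  have h6 := (wt_aux hG D hA).1
  rw [hq] at h6
  rw [Nat.add_sub_cancel] at h5 h6
  have h7 : (((TT L).card : ENNReal) * ((((q + 1) * WW L D : ℕ) : ENNReal) * P)) =
      (((q + 1) * WW L D : ℕ) : ENNReal) := by
    rw [h4, mul_add]
    have e1 : ((TT L).card : ENNReal) * ((WW L D : ENNReal) * X) =
        (((TT L).card * WW L D : ℕ) : ENNReal) * X := by push_cast; ring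
    rw [e1, h5]
    have e2 : ((TT L).card : ENNReal) * ((q : ENNReal) * (cn L (tt L D) A : ENNReal)) =
        (((TT L).card * q * cn L (tt L D) A : ℕ) : ENNReal) := by push_cast; ring
    rw [e2, ← Nat.cast_add, Nat.add_sub_cancel' h6]
  have h8 : (((q + 1) * WW L D : ℕ) : ENNReal) * (((TT L).card : ENNReal) * P) =
      (((q + 1) * WW L D : ℕ) : ENNReal) * 1 := by
    rw [mul_one, mul_left_comm]
    exact h7
  have h9 : ((TT L).card : ENNReal) * P = 1 := by
    have h10 : (((q + 1) * WW L D : ℕ) : ENNReal) ≠ 0 := by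
      have : 0 < (q + 1) * WW L D := by positivity
      exact_mod_cast this.ne'
    exact (ENNReal.mul_right_inj h10 (ENNReal.natCast_ne_top _)).1 h8
  exact ENNReal.eq_inv_of_mul_eq_one_left (by rw [mul_comm]; exact h9)

/-! ### expected time -/

theorem Tm_last {L : Cx} {l : ℕ} (hG : Good L l) (h : Progs cA cC fA fC pA pC) (D N : ℕ) :
    Tm cA cC N (padSt L D (mm L)) ≤ 2 ^ (mm L + 1) * cost pC (padSt L D (mm L)) := by
  set T := Tm cA cC N (padSt L D (mm L)) with hT
  have hT0 : 0 ≤ T := Tm_nonneg _ _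
  have hk : 2 ^ kOf (padSt L D (mm L)) = 2 ^ mm L * (2 * WW L D) := by
    rw [kOf_last, pow_add, pow_succ]
    unfold WW
    ring
  have h1 := Tm_round h N (padSt L D (mm L))
  rw [← hT] at h1
  have h2 : ∀ R ∈ range (2 ^ kOf (padSt L D (mm L))), aft cA cC N (roundF (padSt L D (mm L)) R) =
      if trialOk L D (2 ^ mm L) R = true then
        (fun _ => (0 : ℝ)) (bitsOf (mm L) (R % 2 ^ mm L)) else T := by
    intro R _
    rw [roundF_last]
    split_ifs with h3
    · rfl
    · rfl
  rw [sum_congr rfl h2, hk] at h1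
  have h3 := trial_sum hG D (fun _ => (0 : ℝ)) T
  simp only [smul_zero, sum_const_zero, zero_add] at h3
  set S := ∑ R ∈ range (2 ^ mm L * (2 * WW L D)),
      (if trialOk L D (2 ^ mm L) R = true then (0 : ℝ) else T) with hS
  rw [nsmul_eq_mul, nsmul_eq_mul] at h3
  have hWpos : (0 : ℝ) < WW L D := by unfold WW; positivity
  have hN1 : (1 : ℝ) ≤ (TT L).card := by exact_mod_cast card_pos.2 ⟨AA L, AA_mem hG⟩
  have hpow : (2 : ℝ) ^ kOf (padSt L D (mm L)) = ((2 ^ mm L * (2 * WW L D) : ℕ) : ℝ) := by
    rw [← hk]; push_cast; rfl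
  rw [hpow] at h1
  set c : ℝ := ((cost pC (padSt L D (mm L)) : ℕ) : ℝ) with hc
  have hM : (0 : ℝ) < ((2 ^ mm L * (2 * WW L D) : ℕ) : ℝ) := by push_cast; positivity
  have h4 : ((2 ^ mm L * (2 * WW L D) : ℕ) : ℝ) * T ≤ ((2 ^ mm L * (2 * WW L D) : ℕ) : ℝ) * c + S := by
    have := mul_le_mul_of_nonneg_left h1 hM.le
    rw [mul_add, mul_div_cancel₀ _ hM.ne'] at this
    exact this
  have h5 : (((TT L).card * WW L D : ℕ) : ℝ) * T ≤ ((2 ^ mm L * (2 * WW L D) : ℕ) : ℝ) * c := by
    linarith
  push_cast at h5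
  have h6 : (WW L D : ℝ) * T ≤ (TT L).card * WW L D * T := by
    have : (WW L D : ℝ) * T ≤ (TT L).card * (WW L D * T) := by
      have h7 : 0 ≤ (WW L D : ℝ) * T := by positivity
      nlinarith
    linarith
  have h7 : (WW L D : ℝ) * T ≤ WW L D * (2 ^ (mm L + 1) * c) := by
    calc (WW L D : ℝ) * T ≤ (TT L).card * WW L D * T := h6
      _ ≤ 2 ^ mm L * (2 * WW L D) * c := h5
      _ = WW L D * (2 ^ (mm L + 1) * c) := by rw [pow_succ]; ring
  exact le_of_mul_le_mul_left h7 hWpos

theorem Tm_pad {L : Cx} {l : ℕ} (hG : Good L l) (h : Progs cA cC fA fC pA pC) (D N : ℕ) {C : ℝ}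
    (hC : ∀ j ≤ mm L, (cost pC (padSt L D j) : ℝ) ≤ C) :
    ∀ d j : ℕ, j + d = mm L → Tm cA cC N (padSt L D j) ≤ d * C + 2 ^ (mm L + 1) * C := by
  intro d
  induction d with
  | zero =>
    intro j hj
    rw [add_zero] at hj
    rw [hj, Nat.cast_zero, zero_mul, zero_add]
    exact (Tm_last hG h D N).trans (mul_le_mul_of_nonneg_left (hC _ le_rfl) (by positivity))
  | succ d ih =>
    intro j hj
    have h1 := Tm_round h N (padSt L D j)
    rw [kOf_pad (by omega)] at h1
    simp only [pow_zero, sum_range_one, div_one] at h1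
    rw [roundF_pad (by omega)] at h1
    have h2 := ih (j + 1) (by omega)
    have h3 := hC j (by omega)
    have h4 : aft cA cC N (false :: stStr (padSt L D (j + 1))) = Tm cA cC N (padSt L D (j + 1)) := rfl
    rw [h4] at h1
    push_cast
    linarith

theorem Tm_init {L : Cx} {l : ℕ} (hG : Good L l) (h : Progs cA cC fA fC pA pC) (D N : ℕ) {C : ℝ}
    (hC : ∀ j ≤ mm L, (cost pC (padSt L D j) : ℝ) ≤ C) :
    Tm cA cC N (initSt L D) ≤ cost pC (initSt L D) + 2 ^ (mm L + 2) * C / 2 ^ D := by
  have hk : 2 ^ kOf (initSt L D) = 2 ^ D * WW L D := by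
    rw [kOf_init, pow_add]
    rfl
  have h1 := Tm_round h N (initSt L D)
  set X := Tm cA cC N (padSt L D 0) with hX
  have h2 : ∀ R ∈ range (2 ^ kOf (initSt L D)), aft cA cC N (roundF (initSt L D) R) =
      (fun a _ => if a = 0 then X else 0) (R % 2 ^ D) (R / 2 ^ D) := by
    intro R _
    rw [roundF_init]
    simp only
    split_ifs with h3
    · rfl
    · rfl
  rw [sum_congr rfl h2, hk, sum_split' (2 ^ D) (WW L D) (fun a _ => if a = 0 then X else 0)] at h1
  simp only [sum_const, card_range, nsmul_eq_mul] at h1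
  obtain ⟨q, hq⟩ : ∃ q, 2 ^ D = q + 1 := ⟨2 ^ D - 1, by have := Nat.one_le_two_pow (n := D); omega⟩
  rw [hq, sum_range_succ'] at h1
  simp only [Nat.add_eq_zero_iff, one_ne_zero, and_false, if_false, if_true, mul_zero,
    sum_const_zero, zero_add] at h1
  have hWpos : (0 : ℝ) < WW L D := by unfold WW; positivity
  have hpow : (2 : ℝ) ^ kOf (initSt L D) = 2 ^ D * WW L D := by
    have : ((2 ^ kOf (initSt L D) : ℕ) : ℝ) = ((2 ^ D * WW L D : ℕ) : ℝ) := by rw [hk]
    push_cast at this
    exact this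
  rw [hpow] at h1
  have h3 : (WW L D : ℝ) * X / (2 ^ D * WW L D) = X / 2 ^ D := by field_simp
  rw [h3] at h1
  refine h1.trans ?_
  have hC0 : 0 ≤ C := le_trans (Nat.cast_nonneg _) (hC 0 (Nat.zero_le _))
  have h4 : X ≤ 2 ^ (mm L + 2) * C := by
    have h5 := Tm_pad hG h D N hC (mm L) 0 (by omega)
    rw [← hX] at h5
    have h6 : ((mm L : ℕ) : ℝ) ≤ 2 ^ (mm L + 1) := by
      have : mm L < 2 ^ (mm L + 1) := lt_trans Nat.lt_two_pow_self
        (Nat.pow_lt_pow_right (by norm_num) (Nat.lt_succ_self _))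
      exact_mod_cast this.le
    calc X ≤ mm L * C + 2 ^ (mm L + 1) * C := h5
      _ ≤ 2 ^ (mm L + 1) * C + 2 ^ (mm L + 1) * C := by
          have := mul_le_mul_of_nonneg_right h6 hC0
          linarith
      _ = 2 ^ (mm L + 2) * C := by rw [pow_succ 2 (mm L + 1)]; ring
  have h5 : X / 2 ^ D ≤ 2 ^ (mm L + 2) * C / 2 ^ D := div_le_div_of_nonneg_right h4 (by positivity)
  linarith

end

end Pool.Agent.E8helper15.ST
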