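import Pool.Agent.E8helper15.ST.Trickle

set_option autoImplicit false
set_option maxHeartbeats 1000000

/-!
A Poincaré inequality for the basis exchange graph of a matroid.
-/

namespace Pool.Agent.E8helper15.ST

open Finset Pool.Agent.Helper870.DT

/-- the exchange property of bases -/
def Exch (T : Finset (Finset ℕ)) : Prop :=
  ∀ A ∈ T, ∀ B ∈ T, ∀ a ∈ A \ B, ∃ b ∈ B \ A, insert b (A.erase a) ∈ T

section

variable {T : Finset (Finset ℕ)} {l : ℕ}

/-- augmentation of independent sets -/
theorem aug (hT : Exch T) (hl : ∀ A ∈ T, A.card = l) {I J : Finset ℕ}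
    (hI : (upS T I).Nonempty) (hJ : (upS T J).Nonempty) (hIJ : I.card < J.card) :
    ∃ j ∈ J \ I, (upS T (insert j I)).Nonempty := by
  classical
  by_contra hcon
  push Not at hcon
  -- choose a pair with maximal intersection
  have hne : (upS T I ×ˢ upS T J).Nonempty := hI.product hJ
  obtain ⟨⟨A, B⟩, hAB, hmax⟩ := exists_max_image (upS T I ×ˢ upS T J)
    (fun p => (p.1 ∩ p.2).card) hne
  simp only [mem_product] at hAB
  obtain ⟨hA, hB⟩ := hAB
  rw [mem_upS] at hA hB
  have h1 : ∀ j ∈ J, j ∈ A → j ∈ I := by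
    intro j hj hjA
    by_contra hjI
    have := hcon j (mem_sdiff.2 ⟨hj, hjI⟩)
    have h2 : A ∈ upS T (insert j I) := mem_upS.2 ⟨hA.1, insert_subset hjA hA.2⟩
    rw [this] at h2
    simp at h2
  have h2 : ∀ a ∈ A, a ∉ B → a ∈ I := by
    intro a ha haB
    by_contra haI
    obtain ⟨b, hb, hb2⟩ := hT A hA.1 B hB.1 a (mem_sdiff.2 ⟨ha, haB⟩)
    rw [mem_sdiff] at hb
    have h3 := hmax (insert b (A.erase a), B) (by
      rw [mem_product]
      refine ⟨mem_upS.2 ⟨hb2, ?_⟩, mem_upS.2 hB⟩
      intro i hi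
      rw [mem_insert, mem_erase]
      right
      exact ⟨fun h => haI (h ▸ hi), hA.2 hi⟩)
    simp only at h3
    have h4 : A ∩ B ⊂ insert b (A.erase a) ∩ B := by
      rw [ssubset_iff_of_subset]
      · exact ⟨b, by simp [hb.1], by simp [hb.2]⟩
      · intro i hi
        rw [mem_inter] at hi ⊢
        refine ⟨mem_insert_of_mem (mem_erase.2 ⟨fun h => haB (h ▸ hi.2), hi.1⟩), hi.2⟩
    have := card_lt_card h4
    omega
  have h3 : ∀ b ∈ B, b ∉ A → b ∈ J := by
    intro b hb hbA
    by_contra hbJ
    obtain ⟨a, ha, ha2⟩ := hT B hB.1 A hA.1 b (mem_sdiff.2 ⟨hb, hbA⟩)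
    rw [mem_sdiff] at ha
    have h3 := hmax (A, insert a (B.erase b)) (by
      rw [mem_product]
      refine ⟨mem_upS.2 hA, mem_upS.2 ⟨ha2, ?_⟩⟩
      intro i hi
      rw [mem_insert, mem_erase]
      right
      exact ⟨fun h => hbJ (h ▸ hi), hB.2 hi⟩)
    simp only at h3
    have h4 : A ∩ B ⊂ A ∩ insert a (B.erase b) := by
      rw [ssubset_iff_of_subset]
      · exact ⟨a, by simp [ha.1], by simp [ha.2]⟩
      · intro i hi
        rw [mem_inter] at hi ⊢
        exact ⟨hi.1, mem_insert_of_mem (mem_erase.2 ⟨fun h => hbA (h ▸ hi.1), hi.2⟩)⟩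
    have := card_lt_card h4
    omega
  have h4 : (A \ B).card = (B \ A).card := by
    have e1 := card_sdiff_add_card_inter A B
    have e2 := card_sdiff_add_card_inter B A
    rw [inter_comm B A] at e2
    have e3 := hl A hA.1
    have e4 := hl B hB.1
    omega
  have h5 : (A \ B).card ≤ (I \ J).card := by
    apply card_le_card
    intro a ha
    rw [mem_sdiff] at ha ⊢
    exact ⟨h2 a ha.1 ha.2, fun h => ha.2 (hB.2 h)⟩
  have h6 : (J \ I).card ≤ (B \ A).card := by
    apply card_le_card
    intro a ha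
    rw [mem_sdiff] at ha ⊢
    exact ⟨hB.2 ha.1, fun h => ha.2 (h1 a ha.1 h)⟩
  have e1 := card_sdiff_add_card_inter I J
  have e2 := card_sdiff_add_card_inter J I
  rw [inter_comm J I] at e2
  omega

theorem lorentz_alg {A a P Q R : ℝ} (hA : 0 ≤ A) (hP : 0 ≤ P) (hPA : P ≤ A ^ 2) (hQ : 0 ≤ Q)
    (hR : R ^ 2 ≤ P * Q) : (A ^ 2 - P) * (a ^ 2 - Q) ≤ (A * a - R) ^ 2 := by
  rcases le_or_gt (a ^ 2) Q with h | h
  · have : (A ^ 2 - P) * (a ^ 2 - Q) ≤ 0 :=
      mul_nonpos_of_nonneg_of_nonpos (by linarith) (by linarith)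
    exact this.trans (sq_nonneg _)
  · set p := Real.sqrt P with hp
    set q := Real.sqrt Q with hq
    have hp2 : p ^ 2 = P := Real.sq_sqrt hP
    have hq2 : q ^ 2 = Q := Real.sq_sqrt hQ
    have hp0 : 0 ≤ p := Real.sqrt_nonneg _
    have hq0 : 0 ≤ q := Real.sqrt_nonneg _
    have h1 : p ≤ A := by
      apply le_of_sq_le_sq _ hA
      rw [hp2]; exact hPA
    have h2 : q ≤ |a| := by
      apply le_of_sq_le_sq _ (abs_nonneg a)
      rw [hq2, sq_abs]; exact h.le
    have h3 : |R| ≤ p * q := by
      apply abs_le_of_sq_le_sq _ (by positivity)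
      rw [mul_pow, hp2, hq2]; exact hR
    have h4 : p * q ≤ A * |a| := mul_le_mul h1 h2 hq0 hA
    have h5 : (A * |a| - p * q) ^ 2 ≤ (A * |a| - |R|) ^ 2 :=
      pow_le_pow_left₀ (by linarith) (by linarith) 2
    have h6 : (A * |a| - |R|) ^ 2 ≤ (A * a - R) ^ 2 := by
      have h7 : A * a * R ≤ A * |a| * |R| := by
        calc A * a * R ≤ |A * a * R| := le_abs_self _
          _ = A * |a| * |R| := by rw [abs_mul, abs_mul, abs_of_nonneg hA]
      have h8 := sq_abs a
      have h9 := sq_abs R
      nlinarith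
    have h7 : (A ^ 2 - P) * (a ^ 2 - Q) ≤ (A * |a| - p * q) ^ 2 := by
      rw [← hp2, ← hq2, ← sq_abs a]
      nlinarith [sq_nonneg (A * q - |a| * p)]
    linarith

/-- the Lorentz-type inequality for complete multipartite graphs -/
theorem lorentz {κ : Type} [DecidableEq κ] (L : Finset ℕ) (rep : ℕ → κ) (u : ℕ → ℝ) :
    (∑ x ∈ L, ∑ y ∈ L, (1 - if rep x = rep y then (1 : ℝ) else 0)) *
      (∑ x ∈ L, ∑ y ∈ L, (1 - if rep x = rep y then (1 : ℝ) else 0) * (u x * u y)) ≤
    (∑ x ∈ L, (∑ y ∈ L, (1 - if rep x = rep y then (1 : ℝ) else 0)) * u x) ^ 2 := by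
  classical
  set C := L.image rep with hC
  have key : ∀ f g : ℕ → ℝ, ∑ x ∈ L, ∑ y ∈ L, (if rep x = rep y then (1 : ℝ) else 0) * (f x * g y) =
      ∑ c ∈ C, (∑ x ∈ L with rep x = c, f x) * (∑ x ∈ L with rep x = c, g x) := by
    intro f g
    have h1 : ∀ x ∈ L, ∑ y ∈ L, (if rep x = rep y then (1 : ℝ) else 0) * (f x * g y) =
        f x * ∑ y ∈ L with rep y = rep x, g y := by
      intro x _
      rw [mul_sum, sum_filter]
      apply sum_congr rfl
      intro y _
      by_cases h : rep x = rep y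
      · simp [h]
      · simp [h, Ne.symm h]
    rw [sum_congr rfl h1, ← sum_fiberwise_of_maps_to (g := rep) (t := C)
      (fun x hx => mem_image_of_mem _ hx)]
    apply sum_congr rfl
    intro c _
    rw [sum_mul]
    apply sum_congr rfl
    intro x hx
    rw [mem_filter] at hx
    rw [hx.2]
  set P := ∑ c ∈ C, (∑ x ∈ L with rep x = c, (1 : ℝ)) * (∑ x ∈ L with rep x = c, (1 : ℝ)) with hP
  set Q := ∑ c ∈ C, (∑ x ∈ L with rep x = c, u x) * (∑ x ∈ L with rep x = c, u x) with hQ
  set R := ∑ c ∈ C, (∑ x ∈ L with rep x = c, u x) * (∑ x ∈ L with rep x = c, (1 : ℝ)) with hR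
  have e1 : ∑ x ∈ L, ∑ y ∈ L, (1 - if rep x = rep y then (1 : ℝ) else 0) =
      (L.card : ℝ) ^ 2 - P := by
    have h1 := key (fun _ => 1) (fun _ => 1)
    simp only [mul_one] at h1
    rw [hP, ← h1]
    simp only [sum_sub_distrib, sum_const, nsmul_eq_mul, mul_one]
    ring
  have e2 : ∑ x ∈ L, ∑ y ∈ L, (1 - if rep x = rep y then (1 : ℝ) else 0) * (u x * u y) =
      (∑ x ∈ L, u x) ^ 2 - Q := by
    rw [hQ, ← key u u, sq, sum_mul_sum, ← sum_sub_distrib]
    apply sum_congr rfl
    intro x _
    rw [← sum_sub_distrib]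
    apply sum_congr rfl
    intro y _
    ring
  have e3 : ∑ x ∈ L, (∑ y ∈ L, (1 - if rep x = rep y then (1 : ℝ) else 0)) * u x =
      (L.card : ℝ) * (∑ x ∈ L, u x) - R := by
    have h1 := key u (fun _ => 1)
    simp only [mul_one] at h1
    rw [hR, ← h1, mul_sum, ← sum_sub_distrib]
    apply sum_congr rfl
    intro x _
    rw [sum_sub_distrib, sub_mul]
    congr 1
    · simp
    · rw [sum_mul]
  rw [e1, e2, e3]
  apply lorentz_alg (Nat.cast_nonneg _)
  · exact sum_nonneg fun c _ => mul_self_nonneg _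
  · have : 0 ≤ ∑ x ∈ L, ∑ y ∈ L, (1 - if rep x = rep y then (1 : ℝ) else 0) :=
      sum_nonneg fun x _ => sum_nonneg fun y _ => by split_ifs <;> norm_num
    rw [e1] at this
    linarith
  · exact sum_nonneg fun c _ => mul_self_nonneg _
  · have h := sum_mul_sq_le_sq_mul_sq C (fun c => ∑ x ∈ L with rep x = c, u x)
      (fun c => ∑ x ∈ L with rep x = c, (1 : ℝ))
    simp only [sq] at h ⊢
    rw [mul_comm P Q]
    exact h

theorem QQ_mat_base {V : Finset ℕ} (hT : Exch T) (hl : ∀ A ∈ T, A ⊆ V ∧ A.card = l)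
    (S : Finset ℕ) (hS : S.card + 2 = l) : QQ T V S := by
  classical
  have hl' : ∀ A ∈ T, A.card = l := fun A hA => (hl A hA).2
  set L := (V \ S).filter (fun x => (upS T (insert x S)).Nonempty) with hL
  set rep : ℕ → Finset ℕ := fun x => L.filter (fun y => x = y ∨ insert x (insert y S) ∉ T) with hrep
  -- extension of a one-element set
  have hmem : ∀ x ∈ V \ S, ∀ y ∈ V \ S, x ≠ y →
      ((upS T (insert x (insert y S))).card : ℝ) = if insert x (insert y S) ∈ T then 1 else 0 := by
    intro x hx y hy hxy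
    rw [mem_sdiff] at hx hy
    have hc : (insert x (insert y S)).card = l := by
      rw [card_insert_of_notMem (by simp [hxy, hx.2]), card_insert_of_notMem hy.2]
      omega
    have hsub : upS T (insert x (insert y S)) ⊆ {insert x (insert y S)} := by
      intro A hA
      rw [mem_upS] at hA
      rw [mem_singleton]
      exact (eq_of_subset_of_card_le hA.2 (by rw [hl' A hA.1, hc])).symm
    split_ifs with h
    · have : upS T (insert x (insert y S)) = {insert x (insert y S)} := by
        apply subset_antisymm hsub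
        rw [singleton_subset_iff, mem_upS]
        exact ⟨h, Subset.refl _⟩
      rw [this, card_singleton, Nat.cast_one]
    · have : upS T (insert x (insert y S)) = ∅ := by
        rw [eq_empty_iff_forall_notMem]
        intro A hA
        have h1 := mem_singleton.1 (hsub hA)
        rw [mem_upS] at hA
        exact h (h1 ▸ hA.1)
      rw [this, card_empty, Nat.cast_zero]
  -- parallel elements
  have hmemL : ∀ x ∈ V \ S, ∀ y ∈ V \ S, insert x (insert y S) ∈ T → x ∈ L ∧ y ∈ L := by
    intro x hx y hy h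
    rw [hL, mem_filter, mem_filter]
    refine ⟨⟨hx, _, mem_upS.2 ⟨h, ?_⟩⟩, ⟨hy, _, mem_upS.2 ⟨h, ?_⟩⟩⟩
    · exact insert_subset (mem_insert_self _ _)
        ((subset_insert _ _).trans (subset_insert _ _))
    · exact subset_insert _ _
  have htrans : ∀ x ∈ L, ∀ y ∈ L, ∀ z ∈ L, x ≠ y → y ≠ z → x ≠ z →
      insert x (insert y S) ∉ T → insert y (insert z S) ∉ T → insert x (insert z S) ∉ T := by
    intro x hx y hy z hz hxy hyz hxz h1 h2 h3
    rw [hL, mem_filter, mem_sdiff] at hx hy hz
    obtain ⟨j, hj, hj2⟩ := aug hT hl' (I := insert y S) (J := insert x (insert z S)) hy.2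
      ⟨_, mem_upS.2 ⟨h3, Subset.refl _⟩⟩ (by
        rw [card_insert_of_notMem hy.1.2, card_insert_of_notMem (by simp [hxz, hx.1.2]),
          card_insert_of_notMem hz.1.2]
        omega)
    rw [mem_sdiff, mem_insert, mem_insert, mem_insert, not_or] at hj
    have hin : ∀ j, j ≠ y → j ∉ S → (upS T (insert j (insert y S))).Nonempty →
        insert j (insert y S) ∈ T := by
      rintro j hjy hjS ⟨A, hA⟩
      rw [mem_upS] at hA
      have hc : (insert j (insert y S)).card = l := by
        rw [card_insert_of_notMem (by simp [hjy, hjS]), card_insert_of_notMem hy.1.2]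
        omega
      have := eq_of_subset_of_card_le hA.2 (by rw [hl' A hA.1, hc])
      rw [this]; exact hA.1
    have hjT := hin j hj.2.1 hj.2.2 hj2
    rcases hj.1 with rfl | rfl | h
    · exact h1 hjT
    · exact h2 (by rw [Finset.insert_comm]; exact hjT)
    · exact hj.2.2 h
  have hrepeq : ∀ x ∈ L, ∀ y ∈ L, rep x = rep y ↔ (x = y ∨ insert x (insert y S) ∉ T) := by
    intro x hx y hy
    constructor
    · intro h
      have : y ∈ rep y := by
        simp [hrep, hy]
      rw [← h, hrep] at this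
      simp only [mem_filter] at this
      exact this.2
    · rintro (rfl | h)
      · rfl
      · by_cases hxy : x = y
        · rw [hxy]
        ext z
        simp only [hrep, mem_filter]
        constructor
        · rintro ⟨hz, h3⟩
          refine ⟨hz, ?_⟩
          by_cases hyz : y = z
          · exact Or.inl hyz
          right
          rcases h3 with rfl | h3
          · rw [Finset.insert_comm]; exact h
          · by_cases hxz : x = z
            · rw [← hxz, Finset.insert_comm]; exact h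
            · exact htrans y hy x hx z hz (Ne.symm hxy) hxz hyz
                (by rw [Finset.insert_comm]; exact h) h3
        · rintro ⟨hz, h3⟩
          refine ⟨hz, ?_⟩
          by_cases hxz : x = z
          · exact Or.inl hxz
          right
          rcases h3 with rfl | h3
          · exact h
          · by_cases hyz : y = z
            · rw [← hyz]; exact h
            · exact htrans x hx y hy z hz hxy hyz hxz h h3
  have hWt : ∀ x ∈ V \ S, ∀ y ∈ V \ S, Wt T S x y =
      if x ∈ L ∧ y ∈ L then (1 - if rep x = rep y then (1 : ℝ) else 0) else 0 := by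
    intro x hx y hy
    unfold Wt
    by_cases hxy : x = y
    · subst hxy
      simp
    · rw [if_neg hxy, hmem x hx y hy hxy]
      by_cases hT2 : insert x (insert y S) ∈ T
      · obtain ⟨h1, h2⟩ := hmemL x hx y hy hT2
        rw [if_pos hT2, if_pos ⟨h1, h2⟩]
        have : ¬ rep x = rep y := by
          rw [hrepeq x h1 y h2]; push Not; exact ⟨hxy, hT2⟩
        rw [if_neg this]; ring
      · rw [if_neg hT2]
        split_ifs with h1 h2
        · ring
        · exact absurd ((hrepeq x h1.1 y h1.2).2 (Or.inr hT2)) h2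
        · rfl
  -- conclude
  have hLsub : L ⊆ V \ S := filter_subset _ _
  have hsum : ∀ g : ℕ → ℕ → ℝ, ∑ x ∈ V \ S, ∑ y ∈ V \ S, Wt T S x y * g x y =
      ∑ x ∈ L, ∑ y ∈ L, (1 - if rep x = rep y then (1 : ℝ) else 0) * g x y := by
    intro g
    rw [← sum_subset hLsub]
    · apply sum_congr rfl
      intro x hx
      rw [← sum_subset hLsub]
      · apply sum_congr rfl
        intro y hy
        rw [hWt x (hLsub hx) y (hLsub hy), if_pos ⟨hx, hy⟩]
      · intro y hy hyL
        rw [hWt x (hLsub hx) y hy, if_neg (fun h => hyL h.2), zero_mul]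
    · intro x hx hxL
      apply sum_eq_zero
      intro y hy
      rw [hWt x hx y hy, if_neg (fun h => hxL h.1), zero_mul]
  intro u
  have h1 := hsum (fun _ _ => 1)
  simp only [mul_one] at h1
  have h2 := hsum (fun x y => u x * u y)
  have h3 : ∑ x ∈ V \ S, (∑ y ∈ V \ S, Wt T S x y) * u x =
      ∑ x ∈ L, (∑ y ∈ L, (1 - if rep x = rep y then (1 : ℝ) else 0)) * u x := by
    have := hsum (fun x _ => u x)
    simp only [← sum_mul] at this
    exact this
  rw [h1, h2, h3]
  exact lorentz L rep u

theorem QQ_mat {V : Finset ℕ} (hT : Exch T) (hl : ∀ A ∈ T, A ⊆ V ∧ A.card = l) :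
    ∀ (r : ℕ) (S : Finset ℕ), S.card + (r + 2) = l → QQ T V S := by
  intro r
  have hl' : ∀ A ∈ T, A.card = l := fun A hA => (hl A hA).2
  induction r with
  | zero => intro S hS; exact QQ_mat_base hT hl S hS
  | succ r ih =>
    intro S hS
    refine QQ_step' T V l r hl S hS ?_ ?_
    · intro x hx y hy hxy h1 h2
      by_cases h3 : (upS T (insert x (insert y S))).Nonempty
      · exact Or.inl h3
      · right
        rw [mem_sdiff] at hx hy
        obtain ⟨A, hA⟩ := h1
        rw [mem_upS] at hA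
        obtain ⟨z, hz, hzn⟩ : ∃ z ∈ A, z ∉ insert x S := by
          by_contra hcon
          push Not at hcon
          have h4 := card_le_card (fun z hz => hcon z hz : A ⊆ insert x S)
          rw [card_insert_of_notMem hx.2, hl' A hA.1] at h4
          omega
        rw [mem_insert, not_or] at hzn
        have hxz : (upS T (insert x (insert z S))).Nonempty :=
          ⟨A, mem_upS.2 ⟨hA.1, by
            rw [Finset.insert_comm]
            exact insert_subset hz hA.2⟩⟩
        have hzy : z ≠ y := by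
          rintro rfl
          exact h3 hxz
        obtain ⟨j, hj, hj2⟩ := aug hT hl' (I := insert y S) (J := insert x (insert z S)) h2 hxz (by
          rw [card_insert_of_notMem hy.2, card_insert_of_notMem (by simp [Ne.symm hzn.1, hx.2]),
            card_insert_of_notMem hzn.2]
          omega)
        rw [mem_sdiff, mem_insert, mem_insert, mem_insert, not_or] at hj
        refine ⟨z, mem_sdiff.2 ⟨(hl A hA.1).1 hz, hzn.2⟩, Ne.symm hzn.1, hzy, hxz, ?_⟩
        rcases hj.1 with rfl | rfl | h
        · exact absurd hj2 h3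
        · exact hj2
        · exact absurd h hj.2.2
    · intro z hz
      apply ih
      rw [card_insert_of_notMem (mem_sdiff.1 hz).2]
      omega

/-- variance of a function on a finite set of at least two elements -/
theorem var_le (Y : Finset (Finset ℕ)) (f : Finset ℕ → ℝ) :
    H phiS Y f ≤ (1 / 4) * ∑ A ∈ Y, ∑ B ∈ Y, (if A = B then 0 else (f A - f B) ^ 2) := by
  classical
  have h0 : ∀ A ∈ Y, ∑ B ∈ Y, (if A = B then 0 else (f A - f B) ^ 2) = ∑ B ∈ Y, (f A - f B) ^ 2 := by
    intro A _
    apply sum_congr rfl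
    intro B _
    split_ifs with h
    · rw [h]; ring
    · rfl
  rw [sum_congr rfl h0]
  have hpos : 0 ≤ ∑ A ∈ Y, ∑ B ∈ Y, (f A - f B) ^ 2 :=
    sum_nonneg fun _ _ => sum_nonneg fun _ _ => sq_nonneg _
  have hid : ∑ A ∈ Y, ∑ B ∈ Y, (f A - f B) ^ 2 = 2 * (Y.card * ∑ A ∈ Y, f A ^ 2 - (∑ A ∈ Y, f A) ^ 2) := by
    have h1 : ∀ A ∈ Y, ∑ B ∈ Y, (f A - f B) ^ 2 =
        Y.card * f A ^ 2 - 2 * f A * ∑ B ∈ Y, f B + ∑ B ∈ Y, f B ^ 2 := by
      intro A _
      rw [mul_sum, ← nsmul_eq_mul, ← sum_const, ← sum_sub_distrib, ← sum_add_distrib]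
      apply sum_congr rfl
      intro B _
      ring
    rw [sum_congr rfl h1, sum_add_distrib, sum_sub_distrib, ← mul_sum, ← sum_mul, ← mul_sum,
      sum_const, nsmul_eq_mul]
    ring
  unfold H phiS
  rcases Nat.lt_or_ge Y.card 2 with h | h
  · interval_cases hc : Y.card
    · rw [card_eq_zero] at hc
      subst hc
      simp
    · rw [card_eq_one] at hc
      obtain ⟨a, rfl⟩ := hc
      simp
  · have hc : (2 : ℝ) ≤ Y.card := by exact_mod_cast h
    have h2 : (∑ A ∈ Y, f A ^ 2) - (Y.card : ℝ) * ((∑ A ∈ Y, f A) / Y.card) ^ 2 =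
        (∑ A ∈ Y, ∑ B ∈ Y, (f A - f B) ^ 2) / (2 * Y.card) := by
      rw [hid]
      field_simp
    rw [h2, div_le_iff₀ (by positivity)]
    nlinarith

/-- double counting of pairs of bases above a common hyperplane-size set -/
theorem pairs_le (V : Finset ℕ) (hl : ∀ A ∈ T, A ⊆ V ∧ A.card = l) (h1 : 1 ≤ l)
    (g : Finset ℕ → Finset ℕ → ℝ) :
    ∑ S ∈ V.powersetCard (l - 1), ∑ A ∈ upS T S, ∑ B ∈ upS T S, (if A = B then 0 else g A B) =
      ∑ A ∈ T, ∑ B ∈ T, (if (A ∩ B).card + 1 = l then g A B else 0) := by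
  classical
  have e1 : ∀ S ∈ V.powersetCard (l - 1),
      ∑ A ∈ upS T S, ∑ B ∈ upS T S, (if A = B then 0 else g A B) =
      ∑ A ∈ T, ∑ B ∈ T, (if S ⊆ A ∩ B ∧ A ≠ B then g A B else 0) := by
    intro S _
    unfold upS
    rw [sum_filter]
    apply sum_congr rfl
    intro A _
    rw [sum_filter]
    split_ifs with h
    · apply sum_congr rfl
      intro B _
      by_cases h3 : S ⊆ B
      · by_cases h4 : A = B
        · simp [h4]
        · simp [h3, h4, subset_inter_iff, h]
      · simp [h3, subset_inter_iff]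
    · symm
      apply sum_eq_zero
      intro B _
      simp [subset_inter_iff, h]
  rw [sum_congr rfl e1, sum_comm]
  apply sum_congr rfl
  intro A hA
  rw [sum_comm]
  apply sum_congr rfl
  intro B hB
  have hA' := hl A hA
  have hB' := hl B hB
  rw [← sum_filter]
  by_cases h : (A ∩ B).card + 1 = l
  · rw [if_pos h]
    have : (V.powersetCard (l - 1)).filter (fun S => S ⊆ A ∩ B ∧ A ≠ B) = {A ∩ B} := by
      ext S
      rw [mem_filter, mem_powersetCard, mem_singleton]
      constructor
      · rintro ⟨⟨_, h3⟩, h4, _⟩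
        exact eq_of_subset_of_card_le h4 (by omega)
      · rintro rfl
        refine ⟨⟨inter_subset_left.trans hA'.1, by omega⟩, Subset.refl _, ?_⟩
        rintro rfl
        rw [inter_self, hA'.2] at h
        omega
    rw [this, sum_singleton]
  · rw [if_neg h]
    have : (V.powersetCard (l - 1)).filter (fun S => S ⊆ A ∩ B ∧ A ≠ B) = ∅ := by
      rw [eq_empty_iff_forall_notMem]
      intro S hS
      rw [mem_filter, mem_powersetCard] at hS
      obtain ⟨⟨_, h3⟩, h4, h5⟩ := hS
      have h6 := card_le_card h4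
      have h7 : (A ∩ B).card ≤ l := by
        rw [← hA'.2]; exact card_le_card inter_subset_left
      have h8 : (A ∩ B).card = l := by omega
      apply h5
      have h9 : A ∩ B = A := eq_of_subset_of_card_le inter_subset_left (by rw [h8, hA'.2])
      have h10 : A ∩ B = B := eq_of_subset_of_card_le inter_subset_right (by rw [h8, hB'.2])
      rw [← h9]
      exact h10
    rw [this, sum_empty]

/-- **Poincaré inequality** for the basis exchange graph of a matroid. -/
theorem poincare (hT : Exch T) {V : Finset ℕ} (hl : ∀ A ∈ T, A ⊆ V ∧ A.card = l)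
    (f : Finset ℕ → ℝ) (hf : ∑ A ∈ T, f A = 0) :
    ∑ A ∈ T, f A ^ 2 ≤
      (1 / 4) * ∑ A ∈ T, ∑ B ∈ T, (if (A ∩ B).card + 1 = l then (f A - f B) ^ 2 else 0) := by
  classical
  have hRHS : 0 ≤ (1 / 4 : ℝ) * ∑ A ∈ T, ∑ B ∈ T,
      (if (A ∩ B).card + 1 = l then (f A - f B) ^ 2 else 0) := by
    apply mul_nonneg (by norm_num)
    exact sum_nonneg fun _ _ => sum_nonneg fun _ _ => by split_ifs <;> positivity
  rcases Nat.eq_zero_or_pos l with h0 | h1
  · -- rank zero
    have hsub : T ⊆ {∅} := by
      intro A hA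
      rw [mem_singleton, ← card_eq_zero, (hl A hA).2, h0]
    rcases subset_singleton_iff.1 hsub with h | h
    · rw [h]; simp
    · rw [h] at hf ⊢
      rw [sum_singleton] at hf ⊢
      rw [hf]
      simp
  -- make the function nonnegative
  set c := ∑ A ∈ T, |f A| with hc
  set g : Finset ℕ → ℝ := fun A => if A ∈ T then f A + c else 0 with hg
  have hg0 : ∀ A, 0 ≤ g A := by
    intro A
    rw [hg]
    simp only
    split_ifs with h
    · have h3 : |f A| ≤ c := single_le_sum (f := fun A => |f A|) (fun _ _ => abs_nonneg _) h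
      have h4 := neg_abs_le (f A)
      linarith
    · exact le_rfl
  have h3 := LI phiS_adm T V l hl (QQ_mat hT hl) g hg0 (l - 1) ∅ (empty_subset _)
    (by rw [card_empty]; omega)
  have e1 : upS T ∅ = T := by unfold upS; simp
  have e2 : upS (V.powersetCard (l - 1)) ∅ = V.powersetCard (l - 1) := by unfold upS; simp
  rw [e1, e2] at h3
  have h4 := h3.trans (sum_le_sum fun S _ => var_le (upS T S) g)
  rw [← mul_sum, pairs_le V hl h1] at h4
  rcases T.eq_empty_or_nonempty with rfl | hne
  · simp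
  have hcard : (0 : ℝ) < T.card := by exact_mod_cast hne.card_pos
  rw [H_phiS] at h4
  have h5 : (∑ x ∈ T, g x) / T.card = c := by
    have : ∑ x ∈ T, g x = T.card * c := by
      have h6 : ∑ x ∈ T, g x = ∑ x ∈ T, (f x + c) := sum_congr rfl fun x hx => by
        rw [hg]; simp only [hx, if_true]
      rw [h6, sum_add_distrib, hf, sum_const, nsmul_eq_mul, zero_add]
    rw [this]; field_simp
  rw [h5] at h4
  have h6 : ∑ y ∈ T, (g y - c) ^ 2 = ∑ y ∈ T, f y ^ 2 := sum_congr rfl fun x hx => by
    rw [hg]; simp only [hx, if_true]; ring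
  rw [h6] at h4
  refine h4.trans (le_of_eq ?_)
  congr 1
  apply sum_congr rfl
  intro A hA
  apply sum_congr rfl
  intro B hB
  rw [hg]
  simp only [hA, hB, if_true]
  split_ifs <;> ring

end

end Pool.Agent.E8helper15.ST
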