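import Pool.Agent.E8helper15.ST.Bits

set_option autoImplicit false
set_option maxHeartbeats 400000

/-!
# Counting the outcomes of the sampler
-/

namespace Pool.Agent.E8helper15.ST

open Pool.Agent.NPC Pool.Agent.H591R2 Finset

/-- the bases as sets of indices -/
def TT (L : Cx) : Finset (Finset ℕ) :=
  (range (mm L)).powerset.filter (fun A => test L (bl (mm L) A) = true)

/-- the properties of the input that are needed -/
structure Good (L : Cx) (l : ℕ) : Prop where
  exch : Exch (TT L)
  card : ∀ A ∈ TT L, A.card = l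
  base : test L (base0 L) = true

/-- the initial basis -/
def AA (L : Cx) : Finset ℕ := pos (base0 L)

/-- the number of ways -/
def cn (L : Cx) (s : ℕ) (A : Finset ℕ) : ℕ := cnt (TT L) (2 ^ kk L) (AA L) s A

theorem mem_TT {L : Cx} {A : Finset ℕ} : A ∈ TT L ↔ A ⊆ range (mm L) ∧ test L (bl (mm L) A) = true := by
  unfold TT
  rw [mem_filter, mem_powerset]

theorem test_length {L : Cx} {B : List Bool} (h : test L B = true) : B.length = mm L := by
  unfold test at h
  rw [Bool.and_eq_true, decide_eq_true_eq] at h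
  exact h.1

theorem bl_pos' {L : Cx} {B : List Bool} (h : test L B = true) : bl (mm L) (pos B) = B := by
  have := bl_pos B
  rwa [test_length h] at this

theorem pos_mem {L : Cx} {B : List Bool} (h : test L B = true) : pos B ∈ TT L := by
  rw [mem_TT]
  refine ⟨?_, by rw [bl_pos' h]; exact h⟩
  have := pos_sub B
  rwa [test_length h] at this

theorem base0_eq {L : Cx} {l : ℕ} (h : Good L l) : base0 L = bl (mm L) (AA L) := (bl_pos' h.base).symm

theorem AA_mem {L : Cx} {l : ℕ} (h : Good L l) : AA L ∈ TT L := pos_mem h.base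

theorem TT_sub {L : Cx} : ∀ A ∈ TT L, A ⊆ range (mm L) := fun A hA => (mem_TT.1 hA).1

theorem bl_congr {m : ℕ} {A B : Finset ℕ} (h : ∀ i < m, (i ∈ A ↔ i ∈ B)) : bl m A = bl m B := by
  unfold bl
  apply List.map_congr_left
  intro i hi
  rw [List.mem_range] at hi
  simp [h i hi]

theorem card_symmDiff_ne (A : Finset ℕ) (g : ℕ) : (symmDiff A {g}).card ≠ A.card := by
  by_cases h : g ∈ A
  · have : symmDiff A {g} = A.erase g := by
      ext x
      simp only [mem_symmDiff, mem_singleton, mem_erase]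
      constructor
      · rintro (⟨h1, h2⟩ | ⟨h1, h2⟩)
        · exact ⟨h2, h1⟩
        · exact absurd (h1 ▸ h) h2
      · rintro ⟨h1, h2⟩
        exact Or.inl ⟨h2, h1⟩
    rw [this, card_erase_of_mem h]
    have := card_pos.2 ⟨g, h⟩
    omega
  · have : symmDiff A {g} = insert g A := by
      ext x
      simp only [mem_symmDiff, mem_singleton, mem_insert]
      constructor
      · rintro (⟨h1, h2⟩ | ⟨h1, h2⟩)
        · exact Or.inr h1
        · exact Or.inl h1
      · rintro (h1 | h1)
        · exact Or.inr ⟨h1, h1 ▸ h⟩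
        · exact Or.inl ⟨h1, fun h2 => h (h2 ▸ h1)⟩
    rw [this, card_insert_of_notMem h]
    omega

theorem move_bl {L : Cx} {l : ℕ} (h : Good L l) (ρ : ℕ) {A : Finset ℕ} (hA : A ∈ TT L) :
    move L ρ (bl (mm L) A) = bl (mm L) (phi (TT L) (ρ % 2 ^ kk L) (ρ / 2 ^ kk L) A) := by
  set e := ρ % 2 ^ kk L with he
  set f := ρ / 2 ^ kk L with hf
  set m := mm L with hm
  have hAm : A ⊆ range m := TT_sub A hA
  unfold move
  rw [← he, ← hf, flip2_bl]
  have hout : ∀ g, m ≤ g → g = e ∨ g = f → symmDiff A {e, f} ∉ TT L := by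
    intro g hg hgef hmem
    have h1 := TT_sub _ hmem
    have h2 : g ∉ A := fun h => by
      have := mem_range.1 (hAm h)
      omega
    have h3 : g ∈ symmDiff A {e, f} := by
      rw [mem_symmDiff]
      right
      refine ⟨?_, h2⟩
      rw [mem_insert, mem_singleton]
      exact hgef
    have := mem_range.1 (h1 h3)
    omega
  have hone : ∀ g, g < m → (∀ i < m, (i ∈ symmDiff A {e, f} ↔ i ∈ symmDiff A {g})) →
      ¬ test L (bl m (symmDiff A {e, f})) = true := by
    intro g hg h1 h2
    rw [bl_congr h1] at h2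
    have h3 : symmDiff A {g} ∈ TT L := by
      rw [mem_TT]
      refine ⟨?_, h2⟩
      intro i hi
      rw [mem_symmDiff, mem_singleton] at hi
      rcases hi with hi | hi
      · exact hAm hi.1
      · rw [hi.1]; exact mem_range.2 hg
    have h4 := h.card _ h3
    have h5 := h.card _ hA
    exact card_symmDiff_ne A g (by omega)
  by_cases h1 : e < m
  · by_cases h2 : f < m
    · have hsub : symmDiff A {e, f} ⊆ range m := by
        intro i hi
        rw [mem_symmDiff, mem_insert, mem_singleton] at hi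
        rcases hi with hi | hi
        · exact hAm hi.1
        · rw [mem_range]
          rcases hi.1 with h3 | h3 <;> omega
      unfold phi
      by_cases h3 : test L (bl m (symmDiff A {e, f})) = true
      · rw [if_pos h3, if_pos (mem_TT.2 ⟨hsub, h3⟩)]
      · rw [if_neg h3, if_neg (fun h4 => h3 (mem_TT.1 h4).2)]
    · have h3 : ¬ test L (bl m (symmDiff A {e, f})) = true := by
        apply hone e h1
        intro i hi
        simp only [mem_symmDiff, mem_insert, mem_singleton]
        have : i ≠ f := by omega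
        simp [this]
      unfold phi
      rw [if_neg h3, if_neg (hout f (by omega) (Or.inr rfl))]
  · by_cases h2 : f < m
    · have h3 : ¬ test L (bl m (symmDiff A {e, f})) = true := by
        apply hone f h2
        intro i hi
        simp only [mem_symmDiff, mem_insert, mem_singleton]
        have : i ≠ e := by omega
        simp [this]
      unfold phi
      rw [if_neg h3, if_neg (hout e (by omega) (Or.inl rfl))]
    · have h3 : bl m (symmDiff A {e, f}) = bl m A := by
        apply bl_congr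
        intro i hi
        simp only [mem_symmDiff, mem_insert, mem_singleton]
        have h4 : i ≠ e := by omega
        have h5 : i ≠ f := by omega
        simp [h4, h5]
      unfold phi
      rw [if_neg (hout e (by omega) (Or.inl rfl)), h3]
      split_ifs <;> rfl

/-! ### the simulation -/

theorem simStep_snd (L : Cx) (s : ℕ) (p : List Bool × ℕ) :
    ((simStep L)^[s] p).2 = p.2 / 2 ^ (cc L * s) := by
  induction s with
  | zero => simp
  | succ s ih =>
    rw [Function.iterate_succ_apply', simStep, ih, Nat.div_div_eq_div_mul, ← pow_add]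
    congr 2

theorem sim_zero (L : Cx) (R : ℕ) : sim L 0 R = base0 L := rfl

theorem sim_succ (L : Cx) (s R : ℕ) :
    sim L (s + 1) R = move L (R / 2 ^ (cc L * s) % 2 ^ cc L) (sim L s R) := by
  unfold sim
  rw [Function.iterate_succ_apply']
  unfold simStep
  rw [show (fun s : List Bool × ℕ => (move L (s.2 % 2 ^ cc L) s.1, s.2 / 2 ^ cc L)) = simStep L
    from rfl]
  simp only
  rw [simStep_snd]

theorem sim_mod (L : Cx) (s R : ℕ) : sim L s (R % 2 ^ (cc L * s)) = sim L s R := by
  induction s generalizing R with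
  | zero => rfl
  | succ s ih =>
    rw [sim_succ, sim_succ]
    have e : 2 ^ (cc L * (s + 1)) = 2 ^ (cc L * s) * 2 ^ cc L := by rw [← pow_add]; congr 1
    rw [e, Nat.mod_mul_right_div_self, Nat.mod_mod, ← ih (R % (2 ^ (cc L * s) * 2 ^ cc L)),
      Nat.mod_mul_right_mod, ih]

theorem sim_mem {L : Cx} {l : ℕ} (h : Good L l) (s R : ℕ) :
    ∃ A ∈ TT L, sim L s R = bl (mm L) A := by
  induction s with
  | zero => exact ⟨AA L, AA_mem h, base0_eq h⟩
  | succ s ih =>
    obtain ⟨A, hA, hA2⟩ := ih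
    rw [sim_succ, hA2, move_bl h _ hA]
    exact ⟨_, phi_mem hA _ _, rfl⟩

theorem two_pow_cc (L : Cx) : 2 ^ cc L = 2 ^ kk L * (2 * 2 ^ kk L) := by
  unfold cc
  rw [pow_succ, two_mul, pow_add]
  ring

/-- number of coin sequences leading to a basis -/
theorem count_sim {L : Cx} {l : ℕ} (h : Good L l) (s : ℕ) : ∀ A ∈ TT L,
    ∑ R ∈ range (2 ^ (cc L * s)), (if sim L s R = bl (mm L) A then 1 else 0) = cn L s A := by
  induction s with
  | zero =>
    intro A hA
    rw [mul_zero, pow_zero, sum_range_one, sim_zero, base0_eq h]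
    unfold cn cnt
    by_cases h1 : A = AA L
    · rw [h1, if_pos rfl, if_pos rfl]
    · rw [if_neg h1, if_neg]
      intro h2
      exact h1 (bl_inj (TT_sub _ (AA_mem h)) (TT_sub _ hA) h2).symm
  | succ s ih =>
    intro A hA
    have e : 2 ^ (cc L * (s + 1)) = 2 ^ (cc L * s) * 2 ^ cc L := by rw [← pow_add]; congr 1
    rw [e]
    have h1 : ∀ R ∈ range (2 ^ (cc L * s) * 2 ^ cc L),
        (if sim L (s + 1) R = bl (mm L) A then 1 else 0) =
        (fun a b => if move L b (sim L s a) = bl (mm L) A then 1 else 0)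
          (R % 2 ^ (cc L * s)) (R / 2 ^ (cc L * s)) := by
      intro R hR
      rw [mem_range] at hR
      simp only
      have h2 : R / 2 ^ (cc L * s) < 2 ^ cc L := Nat.div_lt_of_lt_mul hR
      rw [sim_succ, sim_mod, Nat.mod_eq_of_lt h2]
    rw [sum_congr rfl h1, sum_split' (2 ^ (cc L * s)) (2 ^ cc L)
      (fun a b => if move L b (sim L s a) = bl (mm L) A then 1 else 0), sum_comm]
    have h2 : ∀ ρ ∈ range (2 ^ cc L), ∑ R ∈ range (2 ^ (cc L * s)),
        (if move L ρ (sim L s R) = bl (mm L) A then 1 else 0) =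
        cn L s (phi (TT L) (ρ % 2 ^ kk L) (ρ / 2 ^ kk L) A) := by
      intro ρ _
      rw [← ih _ (phi_mem hA _ _)]
      apply sum_congr rfl
      intro R _
      obtain ⟨A', hA', hA2⟩ := sim_mem h s R
      rw [hA2, move_bl h _ hA']
      congr 1
      apply propext
      constructor
      · intro h3
        have h4 := bl_inj (TT_sub _ (phi_mem hA' _ _)) (TT_sub _ hA) h3
        rw [← h4, phi_phi hA']
      · intro h3
        have h4 := bl_inj (TT_sub _ hA') (TT_sub _ (phi_mem hA _ _)) h3
        rw [h4, phi_phi hA]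
    rw [sum_congr rfl h2, two_pow_cc, sum_split' (2 ^ kk L) (2 * 2 ^ kk L)
      (fun e f => cn L s (phi (TT L) e f A))]
    rfl

/-! ### the table -/

theorem list_sum_range (f : ℕ → ℕ) (n : ℕ) : ((List.range n).map f).sum = ∑ i ∈ range n, f i := by
  induction n with
  | zero => simp
  | succ n ih => rw [List.range_succ, List.map_append, List.sum_append, ih, sum_range_succ]; simp

theorem tabT_getD {L : Cx} {l : ℕ} (h : Good L l) (s : ℕ) : ∀ A ∈ TT L,
    (tabT L (2 ^ mm L) s).getD (valB (bl (mm L) A)) 0 = cn L s A := by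
  have hv : ∀ A : Finset ℕ, valB (bl (mm L) A) < 2 ^ mm L := by
    intro A
    have := valB_lt (bl (mm L) A)
    rwa [bl_length] at this
  induction s with
  | zero =>
    intro A hA
    unfold tabT tab0
    rw [Function.iterate_zero, id_eq, List.getD_eq_getElem?_getD, List.getElem?_map,
      List.getElem?_range (hv A)]
    simp only [Option.map_some, Option.getD_some]
    rw [bitsOf_valB (bl_length _ _), base0_eq h]
    unfold cn cnt
    by_cases h1 : A = AA L
    · rw [h1, if_pos rfl, if_pos rfl]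
    · rw [if_neg h1, if_neg]
      intro h2
      exact h1 (bl_inj (TT_sub _ hA) (TT_sub _ (AA_mem h)) h2)
  | succ s ih =>
    intro A hA
    have e : tabT L (2 ^ mm L) (s + 1) = tabStep L (2 ^ mm L) (tabT L (2 ^ mm L) s) := by
      unfold tabT
      rw [Function.iterate_succ_apply']
    rw [e]
    unfold tabStep
    rw [List.getD_eq_getElem?_getD, List.getElem?_map, List.getElem?_range (hv A)]
    simp only [Option.map_some, Option.getD_some]
    rw [bitsOf_valB (bl_length _ _), if_pos (mem_TT.1 hA).2]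
    have h1 : ((List.range (2 ^ cc L)).map (fun ρ =>
        (tabT L (2 ^ mm L) s).getD (valB (move L ρ (bl (mm L) A))) 0)).sum =
        ∑ ρ ∈ range (2 ^ cc L), cn L s (phi (TT L) (ρ % 2 ^ kk L) (ρ / 2 ^ kk L) A) := by
      rw [list_sum_range]
      apply sum_congr rfl
      intro ρ _
      rw [move_bl h _ hA, ih _ (phi_mem hA _ _)]
    rw [h1, two_pow_cc, sum_split' (2 ^ kk L) (2 * 2 ^ kk L)
      (fun e f => cn L s (phi (TT L) e f A))]
    rfl

theorem nT_eq (L : Cx) : nT L (2 ^ mm L) = (TT L).card := by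
  unfold nT
  have h1 : ((List.range (2 ^ mm L)).filter (fun v => test L (bitsOf (mm L) v))).length =
      ∑ v ∈ range (2 ^ mm L), (if test L (bitsOf (mm L) v) = true then 1 else 0) := by
    rw [← list_sum_range]
    induction List.range (2 ^ mm L) with
    | nil => rfl
    | cons a l ih =>
      rw [List.filter_cons, List.map_cons, List.sum_cons, ← ih]
      split_ifs
      · rw [List.length_cons, add_comm]
      · rw [zero_add]
  rw [h1, sum_bits (mm L) (fun B => if test L B = true then 1 else 0)]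
  unfold TT
  rw [card_filter]

/-! ### weights -/

theorem mm_le (L : Cx) : mm L ≤ 2 ^ kk L := (Nat.lt_size_self (mm L)).le

/-- `W` -/
def WW (L : Cx) (D : ℕ) : ℕ := 2 ^ (cc L * tt L D)

theorem WW_real (L : Cx) (D : ℕ) : (WW L D : ℝ) = (2 * ((2 ^ kk L : ℕ) : ℝ) ^ 2) ^ tt L D := by
  unfold WW
  rw [pow_mul, two_pow_cc]
  push_cast
  congr 1
  ring

theorem mix_nat {L : Cx} {l : ℕ} (h : Good L l) (D : ℕ) {A : Finset ℕ} (hA : A ∈ TT L) :
    2 ^ D * ((TT L).card * cn L (tt L D) A) ≤ (2 ^ D + 1) * WW L D ∧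
    (2 ^ D - 1) * WW L D ≤ 2 ^ D * ((TT L).card * cn L (tt L D) A) := by
  have h1 := mix h.exch TT_sub h.card (mm_le L) (by positivity) (AA_mem h) D hA
  change |((TT L).card : ℝ) * cn L (tt L D) A - (2 * ((2 ^ kk L : ℕ) : ℝ) ^ 2) ^ tt L D| ≤
    (2 * ((2 ^ kk L : ℕ) : ℝ) ^ 2) ^ tt L D / 2 ^ D at h1
  rw [← WW_real] at h1
  rw [abs_le] at h1
  have hD : (0 : ℝ) < 2 ^ D := by positivity
  obtain ⟨h2, h3⟩ := h1
  have h4 : (2 : ℝ) ^ D * (WW L D / 2 ^ D) = WW L D := by field_simp
  constructor
  · have h5 := mul_le_mul_of_nonneg_left h3 hD.le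
    rw [h4] at h5
    have h6 : (2 : ℝ) ^ D * ((TT L).card * cn L (tt L D) A) ≤ (2 ^ D + 1) * WW L D := by linarith
    exact_mod_cast h6
  · have h5 := mul_le_mul_of_nonneg_left h2 hD.le
    have h6 : ((2 : ℝ) ^ D - 1) * WW L D ≤ 2 ^ D * ((TT L).card * cn L (tt L D) A) := by
      rw [mul_neg, h4] at h5
      linarith
    have h7 : (((2 ^ D - 1 : ℕ) : ℝ)) = (2 : ℝ) ^ D - 1 := by
      rw [Nat.cast_sub Nat.one_le_two_pow]; push_cast; ring
    have h8 : (((2 ^ D - 1) * WW L D : ℕ) : ℝ) ≤
        ((2 ^ D * ((TT L).card * cn L (tt L D) A) : ℕ) : ℝ) := by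
      push_cast [h7]
      convert h6 using 2
    exact_mod_cast h8

theorem sum_cn {L : Cx} {l : ℕ} (h : Good L l) (D : ℕ) : ∑ A ∈ TT L, cn L (tt L D) A = WW L D := by
  have h1 := (decay h.exch TT_sub h.card (mm_le L) (by positivity) (AA_mem h) (tt L D)).1
  rw [← WW_real, ← sum_div] at h1
  have hW : (0 : ℝ) < WW L D := by unfold WW; positivity
  rw [div_eq_one_iff_eq hW.ne'] at h1
  exact_mod_cast h1

theorem wt_eq {L : Cx} {l : ℕ} (h : Good L l) (D : ℕ) {A : Finset ℕ} (hA : A ∈ TT L) :
    wt L D (2 ^ mm L) (valB (bl (mm L) A)) =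
      2 ^ D * WW L D - (TT L).card * (2 ^ D - 1) * cn L (tt L D) A := by
  unfold wt
  rw [nT_eq, tabT_getD h _ A hA]
  rfl

theorem wt_aux {L : Cx} {l : ℕ} (h : Good L l) (D : ℕ) {A : Finset ℕ} (hA : A ∈ TT L) :
    (TT L).card * (2 ^ D - 1) * cn L (tt L D) A ≤ 2 ^ D * WW L D ∧
    wt L D (2 ^ mm L) (valB (bl (mm L) A)) ≤ 2 * WW L D := by
  obtain ⟨h1, h2⟩ := mix_nat h D hA
  rw [wt_eq h D hA]
  obtain ⟨q, hq⟩ : ∃ q, 2 ^ D = q + 1 := ⟨2 ^ D - 1, by have := Nat.one_le_two_pow (n := D); omega⟩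
  rw [hq] at h1 h2 ⊢
  rw [Nat.add_sub_cancel] at h2 ⊢
  set N := (TT L).card
  set c := cn L (tt L D) A
  set W := WW L D
  have e1 : N * q * c = q * (N * c) := by ring
  rw [e1]
  have k1 : q * (N * c) ≤ (q + 1) * W := by
    have h3 : (q + 1) * (q * (N * c)) ≤ (q + 1) * ((q + 1) * W) := by
      calc (q + 1) * (q * (N * c)) = q * ((q + 1) * (N * c)) := by ring
        _ ≤ q * ((q + 1 + 1) * W) := Nat.mul_le_mul_left _ h1
        _ ≤ (q + 1) * ((q + 1) * W) := by
            have : q * (q + 1 + 1) ≤ (q + 1) * (q + 1) := by nlinarith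
            calc q * ((q + 1 + 1) * W) = (q * (q + 1 + 1)) * W := by ring
              _ ≤ ((q + 1) * (q + 1)) * W := Nat.mul_le_mul_right _ this
              _ = _ := by ring
    exact Nat.le_of_mul_le_mul_left h3 (by omega)
  refine ⟨k1, ?_⟩
  rw [Nat.sub_le_iff_le_add]
  have h3 : (q + 1) * ((q + 1) * W) ≤ (q + 1) * (2 * W + q * (N * c)) := by
    have h4 : q * (q * W) ≤ q * ((q + 1) * (N * c)) := Nat.mul_le_mul_left _ h2
    nlinarith
  exact Nat.le_of_mul_le_mul_left h3 (by omega)

theorem sum_wt {L : Cx} {l : ℕ} (h : Good L l) (D : ℕ) :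
    ∑ A ∈ TT L, wt L D (2 ^ mm L) (valB (bl (mm L) A)) = (TT L).card * WW L D := by
  have h1 : ∑ A ∈ TT L, (wt L D (2 ^ mm L) (valB (bl (mm L) A)) +
      (TT L).card * (2 ^ D - 1) * cn L (tt L D) A) = ∑ A ∈ TT L, 2 ^ D * WW L D := by
    apply sum_congr rfl
    intro A hA
    rw [wt_eq h D hA, Nat.sub_add_cancel (wt_aux h D hA).1]
  rw [sum_add_distrib, ← mul_sum, sum_cn h, sum_const, smul_eq_mul] at h1
  obtain ⟨q, hq⟩ : ∃ q, 2 ^ D = q + 1 := ⟨2 ^ D - 1, by have := Nat.one_le_two_pow (n := D); omega⟩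
  rw [hq, Nat.add_sub_cancel] at h1
  have h2 : (TT L).card * ((q + 1) * WW L D) = (TT L).card * WW L D + (TT L).card * q * WW L D := by
    ring
  rw [h2] at h1
  exact Nat.add_right_cancel h1

end Pool.Agent.E8helper15.ST
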