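import Pool.Agent.E8helper15.ST.Exact
import Pool.Agent.E8helper15.ST.AlgPoly2

set_option autoImplicit false
set_option maxHeartbeats 400000

/-!
# Choice of the parameters; the sampler for good inputs
-/

namespace Pool.Agent.E8helper15.ST

open Pool.Agent.NPC Pool.Agent.H591R2 Finset CoinMachine

theorem sz_units (n : ℕ) : sz (List.replicate n ()) = 2 * n + 1 := by
  induction n with
  | zero => rfl
  | succ n ih =>
    rw [List.replicate_succ]
    have h1 : sz (() :: List.replicate n ()) = sz () + sz (List.replicate n ()) + 1 := by simp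
    have h2 : sz () = 1 := rfl
    rw [h1, ih, h2]
    ring

theorem UPoly.bound {α : Type} [TEnc α] {n : α → ℕ} (h : UPoly n) :
    ∃ p : Polynomial ℕ, ∀ a, n a ≤ p.eval (sz a) := by
  obtain ⟨p, hp⟩ := NPC.Poly.sz_le (f := fun a => List.replicate (n a) ()) h
  refine ⟨p, fun a => ?_⟩
  have := hp a
  rw [sz_units] at this
  omega

theorem eval_mul_le (Q : Polynomial ℕ) (s b : ℕ) (hb : 1 ≤ b) :
    Q.eval (s * b) ≤ Q.eval s * b ^ Q.natDegree := by
  rw [Polynomial.eval_eq_sum_range, Polynomial.eval_eq_sum_range, sum_mul]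
  apply sum_le_sum
  intro i hi
  rw [mem_range] at hi
  rw [mul_pow, ← mul_assoc]
  exact Nat.mul_le_mul_left _ (Nat.pow_le_pow_right hb (by omega))

/-- size of the parameters -/
def S0 (L : Cx) (D : ℕ) : ℕ := 2 * (D + (mm L + (cc L * tt L D + 1))) + 2 * D + sz L + 10

theorem bits_len_pad (L : Cx) (D j : ℕ) :
    (bits (padSt L D j)).length = sz L + (2 * D + 1 + (2 * 2 ^ j + 1) + 1) + 1 := by
  rw [bits_length]
  unfold padSt
  rw [sz_pair, sz_pair, sz_units, sz_units]

theorem bits_len_init (L : Cx) (D : ℕ) :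
    (bits (initSt L D)).length = sz L + (2 * D + 1 + 1 + 1) + 1 := by
  rw [bits_length]
  unfold initSt
  rw [sz_pair, sz_pair, sz_units]
  rfl

theorem cost_pad_le (pC : Polynomial ℕ) (L : Cx) (D : ℕ) {j : ℕ} (hj : j ≤ mm L) :
    cost pC (padSt L D j) ≤ (Polynomial.X + pC).eval (S0 L D * 2 ^ mm L) := by
  have hk : kOf (padSt L D j) ≤ mm L + (cc L * tt L D + 1) := by
    rcases Nat.lt_or_ge j (mm L) with h | h
    · rw [kOf_pad h]; exact Nat.zero_le _
    · have : j = mm L := by omega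
      rw [this, kOf_last]
  have h1 : 2 ^ j ≤ 2 ^ mm L := Nat.pow_le_pow_right (by norm_num) hj
  have h2 : 1 ≤ 2 ^ mm L := Nat.one_le_two_pow
  have h3 : 2 * kOf (padSt L D j) + 1 + (bits (padSt L D j)).length ≤ S0 L D * 2 ^ mm L := by
    rw [bits_len_pad]
    unfold S0
    have h4 : ∀ x y : ℕ, x + 2 * 2 ^ mm L ≤ (x + 2) * 2 ^ mm L := by
      intro x _
      rw [add_mul]
      have := Nat.le_mul_of_pos_right x (show 0 < 2 ^ mm L by positivity)
      omega
    calc _ ≤ (2 * (mm L + (cc L * tt L D + 1)) + 1 + sz L + 2 * D + 4) + 2 * 2 ^ mm L := by omega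
      _ ≤ (2 * (mm L + (cc L * tt L D + 1)) + 1 + sz L + 2 * D + 4 + 2) * 2 ^ mm L := h4 _ 0
      _ ≤ _ := Nat.mul_le_mul_right _ (by omega)
  unfold cost
  rw [Polynomial.eval_add, Polynomial.eval_X]
  have h4 := eval_mono pC h3
  have h5 : 2 * kOf (padSt L D j) + 3 ≤ S0 L D * 2 ^ mm L := by
    have : 2 ≤ (bits (padSt L D j)).length := by rw [bits_len_pad]; omega
    omega
  omega

theorem cost_init_le (pC : Polynomial ℕ) (L : Cx) (D : ℕ) :
    cost pC (initSt L D) ≤ (Polynomial.X + pC).eval (S0 L D) := by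
  have h3 : 2 * kOf (initSt L D) + 1 + (bits (initSt L D)).length ≤ S0 L D := by
    rw [bits_len_init, kOf_init]
    unfold S0
    omega
  unfold cost
  rw [Polynomial.eval_add, Polynomial.eval_X]
  have h4 := eval_mono pC h3
  have h5 : 2 * kOf (initSt L D) + 3 ≤ S0 L D := by
    have : 2 ≤ (bits (initSt L D)).length := by rw [bits_len_init]; omega
    omega
  omega

/-- The exact sampler for good inputs. -/
theorem sampler : ∃ (M : CoinMachine) (p : Polynomial ℕ), ∀ (L : Cx) (l : ℕ), Good L l →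
    (∀ A ∈ TT L, ∀ A' ∈ TT L, treeOf L (bl (mm L) A) = treeOf L (bl (mm L) A') → A = A') →
    (∀ A ∈ TT L, outProb M (bits L) (bits (treeOf L (bl (mm L) A))) =
      ((TT L).card : ENNReal)⁻¹) ∧ M.expectedTime (bits L) ≤ (p.eval (sz L) : ℕ) := by
  obtain ⟨pC, hpC⟩ := exists_progs poly_fC
  set Q := Polynomial.X + pC with hQ
  set a := Q.natDegree + 1 with ha
  obtain ⟨N₀, cA, cC, pA, hP⟩ := hpC (fA a 2) (poly_fA a 2)
  have hU : UPoly (fun L : Cx => S0 L (a * mm L + 2)) := by
    have hL : NPC.Poly (fun L : Cx => L) := NPC.Poly.id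
    have hD : UPoly (fun L : Cx => a * mm L + 2) :=
      UPoly.add (UPoly.mul (UPoly.const a) (upoly_mm hL)) (UPoly.const 2)
    have hsz : UPoly (fun L : Cx => sz L) := by
      have h1 : NPC.Poly (fun L : Cx => bits L) := poly_bits' hL
      exact UPoly.length h1
    unfold S0
    exact UPoly.add (UPoly.add (UPoly.add (UPoly.mul (UPoly.const 2) (UPoly.add hD
      (UPoly.add (upoly_mm hL) (UPoly.add (UPoly.mul (upoly_cc hL) (upoly_tt hL hD))
        (UPoly.const 1))))) (UPoly.mul (UPoly.const 2) hD)) hsz) (UPoly.const 10)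
  obtain ⟨r, hr⟩ := UPoly.bound hU
  refine ⟨lvMachine cA cC, pA + 1 + Polynomial.C 2 * Q.comp r, fun L l hG hinj => ?_⟩
  set D := a * mm L + 2 with hD
  have hfA : fA a 2 (bits L) = stStr (initSt L D) := by
    unfold fA
    rw [unbits_bits]
    rfl
  constructor
  · intro A hA
    rw [pr_start hP, hfA]
    exact Pr_init hG hP D hinj hA
  · refine expectedTime_le (fun N => ?_)
    have h1 := eT_start hP N (bits L)
    rw [hfA] at h1
    have hC : ∀ j ≤ mm L, (cost pC (padSt L D j) : ℝ) ≤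
        ((Q.eval (S0 L D) * (2 ^ mm L) ^ Q.natDegree : ℕ) : ℝ) := by
      intro j hj
      have h2 := (cost_pad_le pC L D hj).trans (eval_mul_le Q (S0 L D) (2 ^ mm L) Nat.one_le_two_pow)
      exact_mod_cast h2
    have h2 := Tm_init hG hP D N hC
    have h3 : (2 : ℝ) ^ (mm L + 2) * ((Q.eval (S0 L D) * (2 ^ mm L) ^ Q.natDegree : ℕ) : ℝ) / 2 ^ D =
        Q.eval (S0 L D) := by
      have e : (2 : ℝ) ^ D = 2 ^ (mm L + 2) * (2 ^ mm L) ^ Q.natDegree := by
        rw [← pow_mul, ← pow_add, hD, ha]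
        congr 1
        ring
      rw [e]
      push_cast
      field_simp
    rw [h3] at h2
    have h4 := cost_init_le pC L D
    have h5 : Q.eval (S0 L D) ≤ Q.eval (r.eval (sz L)) := eval_mono Q (hr L)
    have h6 : (cost pC (initSt L D) : ℝ) ≤ (Q.eval (r.eval (sz L)) : ℕ) := by
      exact_mod_cast h4.trans h5
    have h7 : ((Q.eval (S0 L D) : ℕ) : ℝ) ≤ (Q.eval (r.eval (sz L)) : ℕ) := by exact_mod_cast h5
    have h8 : (((pA + 1 + Polynomial.C 2 * Q.comp r).eval (sz L) : ℕ) : ℝ) =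
        (pA.eval (bits L).length : ℕ) + 1 + 2 * ((Q.eval (r.eval (sz L)) : ℕ) : ℝ) := by
      rw [bits_length]
      simp only [Polynomial.eval_add, Polynomial.eval_mul, Polynomial.eval_C, Polynomial.eval_one,
        Polynomial.eval_comp]
      push_cast
      ring
    rw [h8]
    change eT N (cfg cA cC 1 (stStr (initSt L D)) []) ≤ _ at h2
    linarith

end Pool.Agent.E8helper15.ST
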