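import Pool.Agent.Helper870.DTLevel

set_option autoImplicit false
set_option maxHeartbeats 1000000

/-!
The trickle-down step (after `Pool.Agent.Helper870.DTTrickle` and `Pool.Agent.Helper870.DTChain`)
for connected links instead of links with a universal vertex.
-/

namespace Pool.Agent.E8helper15.ST

open Finset Matrix Pool.Agent.Helper870.DT

theorem trickle' {ι : Type} [Fintype ι] [DecidableEq ι] (W : ι → ι → ℝ)
    (hW : ∀ x y, 0 ≤ W x y) (hs : ∀ x y, W x y = W y x)
    (hconn : ∀ x y, x ≠ y → 0 < ∑ z, W x z → 0 < ∑ z, W y z →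
      0 < W x y ∨ ∃ z, 0 < W x z ∧ 0 < W z y)
    (hT : ∀ u : ι → ℝ, ∑ x, ∑ y, W x y * (u x * u y) ≤
      ∑ z, (∑ y, W z y * u y) ^ 2 / (∑ y, W z y))
    (u : ι → ℝ) : (∑ x, ∑ y, W x y) * ∑ x, ∑ y, W x y * (u x * u y) ≤
      (∑ x, (∑ y, W x y) * u x) ^ 2 := by
  classical
  set w : ι → ℝ := fun x => ∑ y, W x y with hw
  have hw0 : ∀ x, 0 ≤ w x := fun x => Finset.sum_nonneg fun y _ => hW x y
  have hWz : ∀ x, w x = 0 → ∀ y, W x y = 0 := by
    intro x hx y
    exact (Finset.sum_eq_zero_iff_of_nonneg (fun y _ => hW x y)).mp hx y (Finset.mem_univ y)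
  set d : ι → ℝ := fun x => Real.sqrt (w x) with hd
  have hd2 : ∀ x, d x * d x = w x := fun x => Real.mul_self_sqrt (hw0 x)
  have hdz : ∀ x, d x = 0 → w x = 0 := by
    intro x hx
    rw [← hd2 x, hx, mul_zero]
  set A : Matrix ι ι ℝ := Matrix.of fun x y => W x y / (d x * d y) with hAdef
  have hAH : A.IsHermitian := by
    ext x y
    simp only [Matrix.conjTranspose_apply, hAdef, Matrix.of_apply, star_trivial]
    rw [hs y x, mul_comm]
  obtain ⟨l, e, he, hnorm, hdec⟩ := spec_decomp A hAH
  -- quadratic form of A in terms of W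
  have hform : ∀ v : ι → ℝ, v ⬝ᵥ (A *ᵥ v) =
      ∑ x, ∑ y, W x y * ((v x / d x) * (v y / d y)) := by
    intro v
    simp only [dotProduct, Matrix.mulVec, hAdef, Matrix.of_apply, Finset.mul_sum]
    apply Finset.sum_congr rfl
    intro x _
    apply Finset.sum_congr rfl
    intro y _
    rw [div_eq_mul_inv, div_eq_mul_inv, div_eq_mul_inv, mul_inv]
    ring
  have hsq : ∀ v : ι → ℝ, (A *ᵥ v) ⬝ᵥ (A *ᵥ v) =
      ∑ z, (∑ y, W z y * (v y / d y)) ^ 2 / (∑ y, W z y) := by
    intro v
    simp only [dotProduct, Matrix.mulVec, hAdef, Matrix.of_apply]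
    apply Finset.sum_congr rfl
    intro z _
    have h1 : ∑ y, W z y / (d z * d y) * v y = (∑ y, W z y * (v y / d y)) / d z := by
      rw [Finset.sum_div]
      apply Finset.sum_congr rfl
      intro y _
      rw [div_eq_mul_inv, div_eq_mul_inv, div_eq_mul_inv, mul_inv]
      ring
    rw [h1, div_mul_div_comm, hd2, ← pow_two]
  -- eigenvalues satisfy l ≤ l^2
  have hee : ∀ i, e i ⬝ᵥ e i = 1 := by
    intro i
    rw [← hnorm i]
    simp [dotProduct, pow_two]
  have hl1 : ∀ i, l i ≤ l i ^ 2 := by
    intro i
    have h1 := hT (fun x => e i x / d x)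
    rw [← hform, ← hsq, he i] at h1
    simp only [dotProduct_smul, smul_dotProduct, smul_eq_mul, hee] at h1
    nlinarith
  -- Rayleigh bound
  have hray : ∀ v : ι → ℝ, v ⬝ᵥ (A *ᵥ v) = ∑ x, w x * (v x / d x) ^ 2 -
      (∑ x, ∑ y, W x y * (v x / d x - v y / d y) ^ 2) / 2 := by
    intro v
    rw [hform]
    have h1 : ∑ x, ∑ y, W x y * (v x / d x - v y / d y) ^ 2 =
        ∑ x, ∑ y, W x y * (v x / d x) ^ 2 + ∑ x, ∑ y, W x y * (v y / d y) ^ 2 -
        2 * ∑ x, ∑ y, W x y * ((v x / d x) * (v y / d y)) := by
      simp only [Finset.mul_sum, ← Finset.sum_add_distrib, ← Finset.sum_sub_distrib]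
      apply Finset.sum_congr rfl
      intro x _
      apply Finset.sum_congr rfl
      intro y _
      ring
    have h2 : ∑ x, ∑ y, W x y * (v x / d x) ^ 2 = ∑ x, w x * (v x / d x) ^ 2 := by
      apply Finset.sum_congr rfl
      intro x _
      rw [← Finset.sum_mul]
    have h3 : ∑ x, ∑ y, W x y * (v y / d y) ^ 2 = ∑ x, w x * (v x / d x) ^ 2 := by
      rw [Finset.sum_comm]
      apply Finset.sum_congr rfl
      intro x _
      rw [← Finset.sum_mul]
      congr 1
      exact Finset.sum_congr rfl fun y _ => hs y x
    rw [h1, h2, h3]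
    ring
  have hwle : ∀ (v : ι → ℝ) (x : ι), w x * (v x / d x) ^ 2 ≤ v x ^ 2 := by
    intro v x
    rcases eq_or_ne (d x) 0 with h | h
    · rw [h, div_zero]
      have := sq_nonneg (v x)
      simpa using this
    · rw [div_pow, ← hd2 x]
      have : d x * d x * (v x ^ 2 / d x ^ 2) = v x ^ 2 := by field_simp
      rw [this]
  have key : ∀ i, 0 < l i → ∃ c : ℝ, ∀ x, e i x = c * d x := by
    intro i hi
    have hge : 1 ≤ l i := by
      have := hl1 i
      nlinarith
    have h1 := hray (e i)
    rw [he i, dotProduct_smul, smul_eq_mul, hee, mul_one] at h1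
    have hsum1 : ∑ x, w x * (e i x / d x) ^ 2 ≤ ∑ x, e i x ^ 2 :=
      Finset.sum_le_sum fun x _ => hwle (e i) x
    rw [hnorm i] at hsum1
    have hnn : 0 ≤ ∑ x, ∑ y, W x y * (e i x / d x - e i y / d y) ^ 2 :=
      Finset.sum_nonneg fun x _ => Finset.sum_nonneg fun y _ => mul_nonneg (hW x y) (sq_nonneg _)
    have hzero : ∑ x, ∑ y, W x y * (e i x / d x - e i y / d y) ^ 2 = 0 := by linarith
    have heq : ∑ x, w x * (e i x / d x) ^ 2 = ∑ x, e i x ^ 2 := by
      rw [hnorm i]
      linarith
    have hW0 : ∀ x y, W x y * (e i x / d x - e i y / d y) ^ 2 = 0 := by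
      intro x y
      have h2 := (Finset.sum_eq_zero_iff_of_nonneg (fun x _ =>
        Finset.sum_nonneg fun y _ => mul_nonneg (hW x y) (sq_nonneg _))).mp hzero x
        (Finset.mem_univ x)
      exact (Finset.sum_eq_zero_iff_of_nonneg (fun y _ =>
        mul_nonneg (hW x y) (sq_nonneg _))).mp h2 y (Finset.mem_univ y)
    have hterm : ∀ x, w x * (e i x / d x) ^ 2 = e i x ^ 2 := by
      have h3 : ∑ x, (e i x ^ 2 - w x * (e i x / d x) ^ 2) = 0 := by
        rw [Finset.sum_sub_distrib, heq, sub_self]
      intro x
      have h4 := (Finset.sum_eq_zero_iff_of_nonneg (fun x _ =>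
        sub_nonneg.mpr (hwle (e i) x))).mp h3 x (Finset.mem_univ x)
      linarith
    have hwpos : ∀ x, d x ≠ 0 → 0 < w x := by
      intro x h
      rcases (hw0 x).eq_or_lt with h6 | h6
      · exfalso
        apply h
        have h7 : d x * d x = 0 := by rw [hd2 x, ← h6]
        exact mul_self_eq_zero.mp h7
      · exact h6
    have hez : ∀ x, d x = 0 → e i x = 0 := by
      intro x h
      have h5 := hterm x
      rw [h, div_zero] at h5
      have h6 : e i x ^ 2 = 0 := by
        rw [← h5]; ring
      exact (pow_eq_zero_iff (two_ne_zero)).mp h6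
    have hadj : ∀ x y, 0 < W x y → e i x / d x = e i y / d y := by
      intro x y hxy
      rcases mul_eq_zero.mp (hW0 x y) with h10 | h10
      · exact absurd h10 hxy.ne'
      · have := (pow_eq_zero_iff (two_ne_zero)).mp h10
        linarith
    by_cases hex : ∃ z0, d z0 ≠ 0
    · obtain ⟨z0, hz0⟩ := hex
      refine ⟨e i z0 / d z0, fun x => ?_⟩
      rcases eq_or_ne (d x) 0 with h | h
      · rw [h, mul_zero, hez x h]
      · have h11 : e i z0 / d z0 = e i x / d x := by
          rcases eq_or_ne z0 x with rfl | hne
          · rfl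
          · rcases hconn z0 x hne (hwpos z0 hz0) (hwpos x h) with h12 | ⟨z, h12, h13⟩
            · exact hadj z0 x h12
            · exact (hadj z0 z h12).trans (hadj z x h13)
        rw [h11]
        field_simp
    · push Not at hex
      exact ⟨0, fun x => by rw [hez x (hex x), zero_mul]⟩
  -- orthogonal vectors
  have horth : ∀ v : ι → ℝ, ∑ x, d x * v x = 0 → v ⬝ᵥ (A *ᵥ v) ≤ 0 := by
    intro v hv
    rw [hdec]
    apply Finset.sum_nonpos
    intro i _
    rcases le_or_gt (l i) 0 with h | h
    · exact mul_nonpos_of_nonpos_of_nonneg h (sq_nonneg _)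
    · obtain ⟨c, hc⟩ := key i h
      have : e i ⬝ᵥ v = 0 := by
        simp only [dotProduct, hc]
        have : ∑ x, c * d x * v x = c * ∑ x, d x * v x := by
          rw [Finset.mul_sum]
          exact Finset.sum_congr rfl fun x _ => by ring
        rw [this, hv, mul_zero]
      rw [this]
      simp
  -- conclusion
  set T := ∑ x, w x with hTdef
  have hT0 : 0 ≤ T := Finset.sum_nonneg fun x _ => hw0 x
  rcases hT0.eq_or_lt with h | hTpos
  · rw [← h, zero_mul]
    positivity
  · set α := (∑ x, w x * u x) / T with hα
    have hv : ∑ x, d x * (d x * (u x - α)) = 0 := by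
      have h1 : ∑ x, d x * (d x * (u x - α)) = ∑ x, w x * u x - (∑ x, w x) * α := by
        rw [Finset.sum_mul, ← Finset.sum_sub_distrib]
        apply Finset.sum_congr rfl
        intro x _
        rw [← mul_assoc, hd2]
        ring
      rw [h1, hα, ← hTdef]
      field_simp
      ring
    have h2 := horth (fun x => d x * (u x - α)) hv
    rw [hform] at h2
    have h3 : ∑ x, ∑ y, W x y * (d x * (u x - α) / d x * (d y * (u y - α) / d y)) =
        ∑ x, ∑ y, W x y * ((u x - α) * (u y - α)) := by
      apply Finset.sum_congr rfl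
      intro x _
      apply Finset.sum_congr rfl
      intro y _
      rcases eq_or_ne (d x) 0 with h4 | h4
      · rw [hWz x (hdz x h4) y]; ring
      rcases eq_or_ne (d y) 0 with h5 | h5
      · rw [hs x y, hWz y (hdz y h5) x]; ring
      · field_simp
    rw [h3] at h2
    have h6 : ∑ x, ∑ y, W x y * ((u x - α) * (u y - α)) =
        ∑ x, ∑ y, W x y * (u x * u y) - α * ∑ x, ∑ y, W x y * u x - α * ∑ x, ∑ y, W x y * u y +
        α ^ 2 * ∑ x, ∑ y, W x y := by
      simp only [Finset.mul_sum, ← Finset.sum_add_distrib, ← Finset.sum_sub_distrib]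
      apply Finset.sum_congr rfl
      intro x _
      apply Finset.sum_congr rfl
      intro y _
      ring
    have h7 : ∑ x, ∑ y, W x y * u x = α * T := by
      have : ∑ x, ∑ y, W x y * u x = ∑ x, w x * u x := by
        apply Finset.sum_congr rfl
        intro x _
        rw [← Finset.sum_mul]
      rw [this, hα]
      field_simp
    have h8 : ∑ x, ∑ y, W x y * u y = α * T := by
      have : ∑ x, ∑ y, W x y * u y = ∑ x, w x * u x := by
        rw [Finset.sum_comm]
        apply Finset.sum_congr rfl
        intro x _
        rw [← Finset.sum_mul]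
        congr 1
        exact Finset.sum_congr rfl fun y _ => hs y x
      rw [this, hα]
      field_simp
    have h9 : ∑ x, ∑ y, W x y = T := by rw [hTdef]
    have h10 : ∑ x, w x * u x = α * T := by
      rw [hα]; field_simp
    rw [h6, h7, h8, h9] at h2
    show T * ∑ x, ∑ y, W x y * (u x * u y) ≤ (∑ x, w x * u x) ^ 2
    rw [h10]
    nlinarith

theorem QQ_step' (F : Finset (Finset ℕ)) (V : Finset ℕ) (l r : ℕ)
    (hF : ∀ A ∈ F, A ⊆ V ∧ A.card = l) (S : Finset ℕ) (hS : S.card + (r + 3) = l)
    (hconn : ∀ x ∈ V \ S, ∀ y ∈ V \ S, x ≠ y → (upS F (insert x S)).Nonempty →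
      (upS F (insert y S)).Nonempty → (upS F (insert x (insert y S))).Nonempty ∨
      ∃ z ∈ V \ S, x ≠ z ∧ z ≠ y ∧ (upS F (insert x (insert z S))).Nonempty ∧
        (upS F (insert z (insert y S))).Nonempty)
    (ih : ∀ z ∈ V \ S, QQ F V (insert z S)) : QQ F V S := by
  classical
  intro u
  -- pass to the subtype
  have e : ∀ k : ℕ → ℝ, ∑ x : {x // x ∈ V \ S}, k x = ∑ x ∈ V \ S, k x :=
    fun k => Finset.sum_coe_sort (V \ S) k
  have e2 : ∀ k : ℕ → ℕ → ℝ, ∑ x : {x // x ∈ V \ S}, ∑ y : {x // x ∈ V \ S}, k x y =
      ∑ x ∈ V \ S, ∑ y ∈ V \ S, k x y := by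
    intro k
    rw [← e]
    exact Finset.sum_congr rfl fun x _ => e (k x)
  have key : (∑ x : {x // x ∈ V \ S}, ∑ y : {x // x ∈ V \ S}, Wt F S x y) *
      (∑ x : {x // x ∈ V \ S}, ∑ y : {x // x ∈ V \ S}, Wt F S x y * (u x * u y)) ≤
      (∑ x : {x // x ∈ V \ S}, (∑ y : {x // x ∈ V \ S}, Wt F S x y) * u x) ^ 2 := by
    refine trickle' (ι := {x // x ∈ V \ S}) (fun x y => Wt F S x y)
      (fun x y => Wt_nonneg _ _ _ _) (fun x y => Wt_symm _ _ _ _) ?_ ?_ (fun x => u x)
    · -- connectivity
      rintro ⟨x, hx⟩ ⟨y, hy⟩ hne hposx hposy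
      have hne' : x ≠ y := fun h => hne (Subtype.ext h)
      change 0 < ∑ z : {x // x ∈ V \ S}, Wt F S x z at hposx
      change 0 < ∑ z : {x // x ∈ V \ S}, Wt F S y z at hposy
      rw [e (fun y => Wt F S x y), Wt_sum F V l (r + 2) hF S (by omega) x hx] at hposx
      rw [e (fun z => Wt F S y z), Wt_sum F V l (r + 2) hF S (by omega) y hy] at hposy
      have hcard : ∀ x, 0 < ((r + 2 : ℕ) : ℝ) * ((upS F (insert x S)).card : ℝ) →
          (upS F (insert x S)).Nonempty := by
        intro x hpos
        rw [Finset.nonempty_iff_ne_empty]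
        intro h0
        rw [h0] at hpos
        simp at hpos
      have hWp : ∀ a b, a ≠ b → (upS F (insert a (insert b S))).Nonempty → 0 < Wt F S a b := by
        intro a b hab h
        unfold Wt
        rw [if_neg hab]
        exact_mod_cast h.card_pos
      rcases hconn x hx y hy hne' (hcard x hposx) (hcard y hposy) with h | ⟨z, hz, h1, h2, h3, h4⟩
      · left
        exact hWp x y hne' h
      · right
        exact ⟨⟨z, hz⟩, hWp x z h1 h3, hWp z y h2 h4⟩
    · -- the quadratic inequality
      intro v
      set w : ℕ → ℝ := fun x => if h : x ∈ V \ S then v ⟨x, h⟩ else 0 with hw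
      have hwv : ∀ x : {x // x ∈ V \ S}, v x = w x := by
        rintro ⟨x, hx⟩
        rw [hw]
        simp only [hx, dif_pos]
      simp only [hwv]
      rw [e2 (fun x y => Wt F S x y * (w x * w y))]
      have e4 : ∑ z : {x // x ∈ V \ S}, (∑ y : {x // x ∈ V \ S}, Wt F S z y * w y) ^ 2 /
          (∑ y : {x // x ∈ V \ S}, Wt F S z y) =
          ∑ z ∈ V \ S, (∑ y ∈ V \ S, Wt F S z y * w y) ^ 2 / ∑ y ∈ V \ S, Wt F S z y := by
        rw [← e]
        apply Finset.sum_congr rfl
        intro z _
        rw [e (fun y => Wt F S z y * w y), e (fun y => Wt F S z y)]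
      rw [e4]
      -- inequality at each z
      have hz : ∀ z ∈ V \ S, ∑ x ∈ V \ insert z S, ∑ y ∈ V \ insert z S,
          Wt F (insert z S) x y * (w x * w y) ≤
          ((r : ℝ) + 1) * ((∑ y ∈ V \ S, Wt F S z y * w y) ^ 2 / ∑ y ∈ V \ S, Wt F S z y) := by
        intro z hz
        have hzS := (Finset.mem_sdiff.mp hz).2
        have hq := ih z hz w
        have hScard : (insert z S).card + (r + 2) = l := by
          rw [Finset.card_insert_of_notMem hzS]; omega
        have hrow : ∀ x ∈ V \ insert z S, ∑ y ∈ V \ insert z S, Wt F (insert z S) x y =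
            ((r + 1 : ℕ) : ℝ) * ((upS F (insert x (insert z S))).card : ℝ) := fun x hx =>
          Wt_sum F V l (r + 1) hF (insert z S) (by omega) x hx
        have htot : ∑ x ∈ V \ insert z S, ∑ y ∈ V \ insert z S, Wt F (insert z S) x y =
            ((r + 1 : ℕ) : ℝ) * (((r + 2 : ℕ) : ℝ) * ((upS F (insert z S)).card : ℝ)) := by
          rw [Finset.sum_congr rfl hrow, ← Finset.mul_sum]
          have := double_count F V l (r + 2) hF (insert z S) (by omega) (fun _ => 1)
          simp only [Finset.sum_const, nsmul_eq_mul, mul_one] at this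
          rw [this]
        have hlin : ∑ x ∈ V \ insert z S, (∑ y ∈ V \ insert z S, Wt F (insert z S) x y) * w x =
            ((r + 1 : ℕ) : ℝ) * ∑ y ∈ V \ S, Wt F S z y * w y := by
          have h1 : ∑ y ∈ V \ S, Wt F S z y * w y =
              ∑ y ∈ V \ insert z S, ((upS F (insert z (insert y S))).card : ℝ) * w y := by
            rw [← sum_offdiag V S z hz]
            apply Finset.sum_congr rfl
            intro y _
            unfold Wt
            split_ifs <;> simp
          rw [h1, Finset.mul_sum]
          apply Finset.sum_congr rfl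
          intro x hx
          rw [hrow x hx, Finset.insert_comm]
          ring
        rw [htot, hlin] at hq
        have hden : ∑ y ∈ V \ S, Wt F S z y =
            ((r + 2 : ℕ) : ℝ) * ((upS F (insert z S)).card : ℝ) :=
          Wt_sum F V l (r + 2) hF S (by omega) z hz
        rw [hden]
        rcases Nat.eq_zero_or_pos (upS F (insert z S)).card with h0 | hpos
        · -- no facets above
          have hempty : upS F (insert z S) = ∅ := Finset.card_eq_zero.mp h0
          have hzero : ∀ x y, Wt F (insert z S) x y = 0 := by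
            intro x y
            unfold Wt
            split_ifs
            · rfl
            · have : upS F (insert x (insert y (insert z S))) = ∅ := by
                rw [Finset.eq_empty_iff_forall_notMem]
                intro A hA
                rw [mem_upS] at hA
                have : A ∈ upS F (insert z S) := mem_upS.mpr ⟨hA.1,
                  (Finset.subset_insert _ _).trans ((Finset.subset_insert _ _).trans hA.2)⟩
                rw [hempty] at this
                simp at this
              rw [this]; simp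
          have hz0 : ∑ x ∈ V \ insert z S, ∑ y ∈ V \ insert z S,
              Wt F (insert z S) x y * (w x * w y) = 0 :=
            Finset.sum_eq_zero fun x _ => Finset.sum_eq_zero fun y _ => by
              rw [hzero, zero_mul]
          rw [hz0, h0, Nat.cast_zero, mul_zero, div_zero, mul_zero]
        · have hc : (0:ℝ) < ((upS F (insert z S)).card : ℝ) := Nat.cast_pos.mpr hpos
          rw [← mul_div_assoc, le_div_iff₀ (mul_pos (Nat.cast_pos.mpr (by omega)) hc)]
          set Qz := ∑ x ∈ V \ insert z S, ∑ y ∈ V \ insert z S,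
            Wt F (insert z S) x y * (w x * w y)
          set Lz := ∑ y ∈ V \ S, Wt F S z y * w y
          have hr1 : (0:ℝ) < ((r + 1 : ℕ) : ℝ) := by positivity
          have h2 : ((r + 1 : ℕ) : ℝ) * (Qz * (((r + 2 : ℕ) : ℝ) *
              ((upS F (insert z S)).card : ℝ))) ≤
              ((r + 1 : ℕ) : ℝ) * (((r : ℝ) + 1) * Lz ^ 2) := by
            calc _ = ((r + 1 : ℕ) : ℝ) * (((r + 2 : ℕ) : ℝ) * ((upS F (insert z S)).card : ℝ)) * Qz :=
                  by ring
              _ ≤ (((r + 1 : ℕ) : ℝ) * Lz) ^ 2 := hq
              _ = _ := by push_cast; ring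
          exact le_of_mul_le_mul_left h2 hr1
      have hsum := Finset.sum_le_sum hz
      rw [← Finset.mul_sum] at hsum
      -- left side
      have hleft : ∑ z ∈ V \ S, ∑ x ∈ V \ insert z S, ∑ y ∈ V \ insert z S,
          Wt F (insert z S) x y * (w x * w y) =
          ((r : ℝ) + 1) * ∑ x ∈ V \ S, ∑ y ∈ V \ S, Wt F S x y * (w x * w y) := by
        have h1 : ∀ z ∈ V \ S, ∑ x ∈ V \ insert z S, ∑ y ∈ V \ insert z S,
            Wt F (insert z S) x y * (w x * w y) =
            ∑ x ∈ V \ S, ∑ y ∈ V \ S, (if z = x then 0 else if z = y then 0 else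
              Wt F (insert z S) x y * (w x * w y)) := by
          intro z hz
          rw [← sum_offdiag V S z hz]
          apply Finset.sum_congr rfl
          intro x _
          by_cases h : z = x
          · simp [h]
          · simp only [h, if_false]
            rw [← sum_offdiag V S z hz]
        rw [Finset.sum_congr rfl h1, Finset.sum_comm, Finset.mul_sum]
        apply Finset.sum_congr rfl
        intro x hx
        rw [Finset.sum_comm, Finset.mul_sum]
        apply Finset.sum_congr rfl
        intro y hy
        by_cases hxy : x = y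
        · subst hxy
          have : ∀ z ∈ V \ S, (if z = x then 0 else if z = x then 0 else
              Wt F (insert z S) x x * (w x * w x)) = (0:ℝ) := by
            intro z _
            unfold Wt
            simp
          rw [Finset.sum_congr rfl this]
          unfold Wt
          simp
        · have hxS := (Finset.mem_sdiff.mp hx)
          have hyS := (Finset.mem_sdiff.mp hy)
          have hx' : x ∉ insert y S := by simp [hxy, hxS.2]
          have h2 : ∑ z ∈ V \ S, (if z = x then 0 else if z = y then 0 else
              Wt F (insert z S) x y * (w x * w y)) =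
              (∑ z ∈ V \ insert x (insert y S),
                ((upS F (insert z (insert x (insert y S)))).card : ℝ)) * (w x * w y) := by
            have hset : V \ insert x (insert y S) =
                (V \ S).filter (fun z => ¬ z = x ∧ ¬ z = y) := by
              ext z
              simp only [Finset.mem_sdiff, Finset.mem_insert, Finset.mem_filter, not_or]
              tauto
            rw [hset, Finset.sum_filter, Finset.sum_mul]
            apply Finset.sum_congr rfl
            intro z _
            by_cases h3 : z = x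
            · simp [h3]
            · by_cases h4 : z = y
              · simp [h4]
              · rw [if_neg h3, if_neg h4, if_pos ⟨h3, h4⟩]
                have hset2 : insert x (insert y (insert z S)) =
                    insert z (insert x (insert y S)) := by
                  ext t
                  simp only [Finset.mem_insert]
                  tauto
                unfold Wt
                rw [if_neg hxy, hset2]
          rw [h2]
          have h5 := double_count F V l (r + 1) hF (insert x (insert y S))
            (by rw [Finset.card_insert_of_notMem hx', Finset.card_insert_of_notMem hyS.2]; omega)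
            (fun _ => 1)
          simp only [Finset.sum_const, nsmul_eq_mul, mul_one] at h5
          rw [h5]
          unfold Wt
          rw [if_neg hxy]
          push_cast
          ring
      rw [hleft] at hsum
      exact le_of_mul_le_mul_left hsum (by positivity)
  have hC : ∑ x : {x // x ∈ V \ S}, (∑ y : {x // x ∈ V \ S}, Wt F S x y) * u x =
      ∑ x ∈ V \ S, (∑ y ∈ V \ S, Wt F S x y) * u x := by
    rw [← e]
    apply Finset.sum_congr rfl
    intro x _
    rw [e (fun y => Wt F S x y)]
  rw [e2 (fun x y => Wt F S x y), e2 (fun x y => Wt F S x y * (u x * u y)), hC] at key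
  exact key

end Pool.Agent.E8helper15.ST
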